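import Pool.Agent.K6.H65.BJ.Tail
import Pool.Agent.W350.Edge4

/-!
# The boundary values of the logarithms
-/

set_option autoImplicit false

namespace Pool.Agent.K6.H65.BJ

open MeasureTheory Filter Topology Pool.Agent.W350.Edge
open scoped ENNReal

variable {N : ℕ}

/-- The family of phases `p^{-iτ}`. -/
noncomputable def phase (τ : ℝ) (p : Nat.Primes) : ℂ := ex (Real.log p) τ

/-- The sum over all primes of the logarithms of the Euler factors at the point of height `τ` on the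
edge line. -/
noncomputable def edgeLog (b : Nat.Primes → Fin N → ℂ) (τ : ℝ) : ℂ :=
  limUnder atTop fun x : ℕ => partialLog b x (phase τ)

/-- The exceptional set. -/
def badSet' (b : Nat.Primes → Fin N → ℂ) : Set ℝ :=
  {τ | ¬ ∃ l, Tendsto (fun x : ℕ => partialLog b x (phase τ)) atTop (𝓝 l)}

lemma tendsto_edgeLog {b : Nat.Primes → Fin N → ℂ} {τ : ℝ} (h : τ ∉ badSet' b) :
    Tendsto (fun x : ℕ => partialLog b x (phase τ)) atTop (𝓝 (edgeLog b τ)) := by
  unfold badSet' at h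
  rw [Set.mem_ofPred_eq, not_not] at h
  exact tendsto_nhds_limUnder h

lemma tendsto_primesLt : Tendsto primesLt atTop atTop := by
  refine tendsto_atTop_finset_of_monotone (fun x y hxy v hv => ?_) fun v => ?_
  · rw [mem_primesLt] at hv ⊢
    omega
  · exact ⟨v + 1, by rw [mem_primesLt]; omega⟩

/-- The traces, as a function of a natural number. -/
noncomputable def trN (b : Nat.Primes → Fin N → ℂ) (n : ℕ) : ℂ := ext (fun p => ∑ k, b p k) n

lemma norm_trN (b : Nat.Primes → Fin N → ℂ) (hb : ∀ p k, ‖b p k‖ ≤ 1) (n : ℕ) :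
    ‖trN b n‖ ≤ N := by
  unfold trN ext
  split_ifs with h
  · refine (norm_sum_le _ _).trans ((Finset.sum_le_sum fun k _ => hb _ k).trans ?_)
    simp
  · simp

lemma ps_trN (b : Nat.Primes → Fin N → ℂ) (τ : ℝ) (x : ℕ) :
    ps (trN b) τ x = ∑ p ∈ primesLt x, (∑ k, b p k) / p * ex (Real.log p) τ := by
  unfold ps term
  rw [← Finset.sum_filter, ← sum_primesLt]
  refine Finset.sum_congr rfl fun p _ => ?_
  unfold trN
  rw [ext_coe]
  congr 1
  unfold ex
  congr 1
  push_cast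
  ring

lemma summable_rem (b : Nat.Primes → Fin N → ℂ) (hb : ∀ p k, ‖b p k‖ ≤ 1)
    {u : Nat.Primes → ℂ} (hu : ∀ p, ‖u p‖ ≤ 1) : Summable fun p => rem b p (u p) := by
  refine Summable.of_norm_bounded (g := fun p : Nat.Primes => N * ((p : ℝ) ^ 2)⁻¹) ?_
    fun p => norm_rem b hb p (hu p)
  refine Summable.mul_left _ ?_
  have h1 := Nat.Primes.summable_rpow.2 (show (-2 : ℝ) < -1 by norm_num)
  refine h1.congr fun p => ?_
  rw [Real.rpow_neg (Nat.cast_nonneg _)]
  norm_num

lemma norm_phase (τ : ℝ) (p : Nat.Primes) : ‖phase τ p‖ ≤ 1 := (norm_ex _ _).le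

lemma badSet'_subset (b : Nat.Primes → Fin N → ℂ) (hb : ∀ p k, ‖b p k‖ ≤ 1) :
    badSet' b ⊆ divSet (trN b) := by
  intro τ hτ hl
  obtain ⟨l, hl⟩ := hl
  refine hτ ?_
  have h1 := (summable_rem b hb (norm_phase τ)).hasSum.comp tendsto_primesLt
  refine ⟨_, (hl.add h1).congr fun x => ?_⟩
  rw [ps_trN]
  simp only [Function.comp]
  rw [← Finset.sum_add_distrib]
  unfold partialLog
  refine Finset.sum_congr rfl fun p _ => ?_
  unfold rem phase
  ring

lemma dimH_badSet' (b : Nat.Primes → Fin N → ℂ) (hb : ∀ p k, ‖b p k‖ ≤ 1) :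
    dimH (badSet' b) = 0 :=
  le_antisymm ((dimH_mono (badSet'_subset b hb)).trans
    (dimH_divSet (trN b) N (norm_trN b hb)).le) zero_le

lemma volume_badSet' (b : Nat.Primes → Fin N → ℂ) (hb : ∀ p k, ‖b p k‖ ≤ 1) :
    volume (badSet' b) = 0 := by
  rw [← hausdorffMeasure_real]
  refine hausdorffMeasure_of_dimH_lt (d := 1) ?_
  rw [dimH_badSet' b hb]
  simp

lemma ae_tendsto (b : Nat.Primes → Fin N → ℂ) (hb : ∀ p k, ‖b p k‖ ≤ 1) :
    ∀ᵐ τ : ℝ, Tendsto (fun x : ℕ => partialLog b x (phase τ)) atTop (𝓝 (edgeLog b τ)) := by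
  rw [ae_iff]
  refine measure_mono_null (fun τ hτ => ?_) (volume_badSet' b hb)
  by_contra h
  exact hτ (tendsto_edgeLog h)

lemma continuous_pl (b : Nat.Primes → Fin N → ℂ) (hb : ∀ p k, ‖b p k‖ ≤ 1) (n : ℕ) :
    Continuous fun t : ℝ => partialLog b n (phase t) := continuous_partialLog b hb n

lemma aemeasurable_edgeLog (b : Nat.Primes → Fin N → ℂ) (hb : ∀ p k, ‖b p k‖ ≤ 1) :
    AEMeasurable (edgeLog b) volume :=
  aemeasurable_of_tendsto_metrizable_ae' (fun n => (continuous_pl b hb n).measurable.aemeasurable)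
    (ae_tendsto b hb)

/-- **Exponential moments of the boundary values** in unit windows. -/
theorem moment_edge : ∃ c : ℝ, 0 ≤ c ∧ ∀ (N : ℕ) (b : Nat.Primes → Fin N → ℂ),
    (∀ p k, ‖b p k‖ ≤ 1) → ∀ κ : ℝ, 0 ≤ κ → κ * N < 1 → ∀ x : ℝ,
    (∀ n : ℕ, ∫⁻ t in Set.Icc x (x + 1), ENNReal.ofReal (Real.exp (κ *
      ‖partialLog b n (phase t)‖)) ≤ ENNReal.ofReal (c / (1 - κ * N))) ∧
    ∫⁻ t in Set.Icc x (x + 1), ENNReal.ofReal (Real.exp (κ *
      ‖edgeLog b t‖)) ≤ ENNReal.ofReal (c / (1 - κ * N)) := by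
  obtain ⟨c, hc0, hc⟩ := moment_partial
  refine ⟨c, hc0, fun N b hb κ hκ hκN x => ⟨fun n => hc N b hb κ hκ hκN n x, ?_⟩⟩
  exact fatou (μ := volume.restrict (Set.Icc x (x + 1)))
    (f := fun n : ℕ => fun t => partialLog b n (phase t)) (g := edgeLog b)
    (fun n => (continuous_pl b hb n).measurable.aemeasurable)
    (ae_restrict_of_ae (ae_tendsto b hb))
    (fun y => ENNReal.ofReal (Real.exp (κ * ‖y‖)))
    (ENNReal.continuous_ofReal.comp (by fun_prop)) _
    (fun n => hc N b hb κ hκ hκN n x)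

/-- The constant of the mean square bound for the tails. -/
noncomputable def CT : ℝ := 288 * CC ^ 2 + 8

lemma CT_pos : 0 < CT := by
  unfold CT
  positivity

lemma tail_lintegral (b : Nat.Primes → Fin N → ℂ) (hb : ∀ p k, ‖b p k‖ ≤ 1) (x : ℝ) {y z : ℕ}
    (hy : 1 ≤ lg y) (hyz : y ≤ z) :
    ∫⁻ t in Set.Icc x (x + 1), ENNReal.ofReal (‖partialLog b z (phase t) -
      partialLog b y (phase t)‖ ^ 2) ≤ ENNReal.ofReal (CT * N ^ 2 / lg y) := by
  have hcont : Continuous fun t => ‖partialLog b z (phase t) - partialLog b y (phase t)‖ ^ 2 :=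
    ((continuous_pl b hb z).sub (continuous_pl b hb y)).norm.pow 2
  rw [← ofReal_integral_eq_lintegral_ofReal
    (hcont.continuousOn.integrableOn_compact isCompact_Icc)
    (Eventually.of_forall fun t => sq_nonneg _)]
  rw [integral_Icc_eq_integral_Ioc, ← intervalIntegral.integral_of_le (by linarith)]
  exact ENNReal.ofReal_le_ofReal (tail_window b hb x hy hyz)

/-- The tails of the boundary values in mean square, uniformly over unit windows. -/
theorem tail_edge (b : Nat.Primes → Fin N → ℂ) (hb : ∀ p k, ‖b p k‖ ≤ 1) (x : ℝ) {y : ℕ}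
    (hy : 1 ≤ lg y) :
    ∫⁻ t in Set.Icc x (x + 1), ENNReal.ofReal (‖edgeLog b t -
      partialLog b y (phase t)‖ ^ 2) ≤ ENNReal.ofReal (CT * N ^ 2 / lg y) := by
  refine fatou (μ := volume.restrict (Set.Icc x (x + 1)))
    (f := fun n : ℕ => fun t => partialLog b (n + y) (phase t) - partialLog b y (phase t))
    (g := fun t => edgeLog b t - partialLog b y (phase t))
    (fun n => ((continuous_pl b hb (n + y)).sub (continuous_pl b hb y)).measurable.aemeasurable)
    (ae_restrict_of_ae ?_)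
    (fun y => ENNReal.ofReal (‖y‖ ^ 2))
    (ENNReal.continuous_ofReal.comp (by fun_prop)) _
    (fun n => tail_lintegral b hb x hy (Nat.le_add_left _ _))
  filter_upwards [ae_tendsto b hb] with t ht
  exact (ht.comp (tendsto_add_atTop_nat y)).sub_const _

end Pool.Agent.K6.H65.BJ
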