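import Mathlib

/-!
# A local majorant principle for almost periodic series
-/

set_option autoImplicit false

namespace Pool.Agent.K6.H65.BJ

open MeasureTheory Filter Topology Set
open scoped ComplexConjugate

/-- `e^{-iωt}` -/
noncomputable def ex (ω t : ℝ) : ℂ := Complex.exp (-((ω * t : ℝ) : ℂ) * Complex.I)

lemma norm_ex (ω t : ℝ) : ‖ex ω t‖ = 1 := by
  unfold ex
  rw [Complex.norm_exp, Complex.mul_I_re, ← Complex.ofReal_neg, Complex.ofReal_im, neg_zero,
    Real.exp_zero]

lemma ex_add (ω ω' t : ℝ) : ex (ω + ω') t = ex ω t * ex ω' t := by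
  unfold ex
  rw [← Complex.exp_add]
  congr 1
  push_cast
  ring

lemma ex_add_right (ω t u : ℝ) : ex ω (t + u) = ex ω t * ex ω u := by
  unfold ex
  rw [← Complex.exp_add]
  congr 1
  push_cast
  ring

lemma conj_ex (ω t : ℝ) : conj (ex ω t) = ex (-ω) t := by
  unfold ex
  rw [← Complex.exp_conj]
  congr 1
  simp

lemma continuous_ex (ω : ℝ) : Continuous (ex ω) := by
  unfold ex
  fun_prop

/-- `F` is an absolutely convergent exponential series, majorised by the one of `G`. -/
def Dom (F G : ℝ → ℂ) : Prop :=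
  ∃ (ι : Type) (_ : Countable ι) (c : ι → ℂ) (C ω : ι → ℝ), (∀ i, ‖c i‖ ≤ C i) ∧ Summable C ∧
    (∀ t, F t = ∑' i, c i * ex (ω i) t) ∧ ∀ t, G t = ∑' i, (C i : ℂ) * ex (ω i) t

lemma norm_term {ι : Type} {c : ι → ℂ} {C ω : ι → ℝ} (h : ∀ i, ‖c i‖ ≤ C i) (i : ι) (t : ℝ) :
    ‖c i * ex (ω i) t‖ ≤ C i := by
  rw [norm_mul, norm_ex, mul_one]
  exact h i

lemma norm_C {ι : Type} {c : ι → ℂ} {C : ι → ℝ} (h : ∀ i, ‖c i‖ ≤ C i) (i : ι) :
    ‖(C i : ℂ)‖ ≤ C i := by
  rw [Complex.norm_real, Real.norm_of_nonneg ((norm_nonneg _).trans (h i))]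

lemma Dom.one : Dom (fun _ => 1) (fun _ => 1) := by
  refine ⟨Unit, inferInstance, fun _ => 1, fun _ => 1, fun _ => 0, by simp,
    (hasSum_fintype _).summable, ?_, ?_⟩ <;>
  · intro t
    simp [ex]

lemma Dom.mul {F G F' G' : ℝ → ℂ} (h : Dom F G) (h' : Dom F' G') :
    Dom (fun t => F t * F' t) (fun t => G t * G' t) := by
  obtain ⟨ι, hι, c, C, ω, hc, hC, hF, hG⟩ := h
  obtain ⟨ι', hι', c', C', ω', hc', hC', hF', hG'⟩ := h'
  have hC0 : ∀ i, 0 ≤ C i := fun i => (norm_nonneg _).trans (hc i)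
  have hC0' : ∀ i, 0 ≤ C' i := fun i => (norm_nonneg _).trans (hc' i)
  refine ⟨ι × ι', inferInstance, fun x => c x.1 * c' x.2, fun x => C x.1 * C' x.2,
    fun x => ω x.1 + ω' x.2, fun x => ?_, ?_, fun t => ?_, fun t => ?_⟩
  · rw [norm_mul]
    exact mul_le_mul (hc _) (hc' _) (norm_nonneg _) (hC0 _)
  · exact Summable.mul_of_nonneg hC hC' hC0 hC0'
  · have h1 : Summable fun i => ‖c i * ex (ω i) t‖ :=
      Summable.of_nonneg_of_le (fun _ => norm_nonneg _) (fun i => norm_term hc i t) hC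
    have h2 : Summable fun i => ‖c' i * ex (ω' i) t‖ :=
      Summable.of_nonneg_of_le (fun _ => norm_nonneg _) (fun i => norm_term hc' i t) hC'
    simp only
    rw [hF, hF', tsum_mul_tsum_of_summable_norm h1 h2]
    refine tsum_congr fun x => ?_
    rw [ex_add]
    ring
  · have h1 : Summable fun i => ‖(C i : ℂ) * ex (ω i) t‖ :=
      Summable.of_nonneg_of_le (fun _ => norm_nonneg _)
        (fun i => norm_term (norm_C hc) i t) hC
    have h2 : Summable fun i => ‖(C' i : ℂ) * ex (ω' i) t‖ :=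
      Summable.of_nonneg_of_le (fun _ => norm_nonneg _)
        (fun i => norm_term (norm_C hc') i t) hC'
    simp only
    rw [hG, hG', tsum_mul_tsum_of_summable_norm h1 h2]
    refine tsum_congr fun x => ?_
    rw [ex_add]
    push_cast
    ring

lemma Dom.pow {F G : ℝ → ℂ} (h : Dom F G) (k : ℕ) :
    Dom (fun t => F t ^ k) (fun t => G t ^ k) := by
  induction k with
  | zero => simpa using Dom.one
  | succ k ih =>
    have := ih.mul h
    simpa only [← pow_succ] using this

lemma Dom.conj {F G : ℝ → ℂ} (h : Dom F G) :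
    Dom (fun t => conj (F t)) (fun t => conj (G t)) := by
  obtain ⟨ι, hι, c, C, ω, hc, hC, hF, hG⟩ := h
  refine ⟨ι, hι, fun i => (starRingEnd ℂ) (c i), C, fun i => -ω i, fun i => ?_, hC,
    fun t => ?_, fun t => ?_⟩
  · rw [RCLike.norm_conj]
    exact hc i
  · simp only
    rw [hF, Complex.conj_tsum]
    refine tsum_congr fun i => ?_
    rw [map_mul, conj_ex]
  · simp only
    rw [hG, Complex.conj_tsum]
    refine tsum_congr fun i => ?_
    rw [map_mul, conj_ex, Complex.conj_ofReal]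

lemma Dom.continuous_left {F G : ℝ → ℂ} (h : Dom F G) : Continuous F := by
  obtain ⟨ι, hι, c, C, ω, hc, hC, hF, hG⟩ := h
  have : F = fun t => ∑' i, c i * ex (ω i) t := funext hF
  rw [this]
  exact continuous_tsum (fun i => continuous_const.mul (continuous_ex _)) hC
    fun i t => norm_term hc i t

lemma Dom.self {F G : ℝ → ℂ} (h : Dom F G) : Dom G G := by
  obtain ⟨ι, hι, c, C, ω, hc, hC, hF, hG⟩ := h
  exact ⟨ι, hι, fun i => (C i : ℂ), C, ω, fun i => norm_C hc i, hC, hG, hG⟩

lemma Dom.continuous_right {F G : ℝ → ℂ} (h : Dom F G) : Continuous G :=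
  h.self.continuous_left

/-- The triangle. -/
noncomputable def tri (t : ℝ) : ℝ := 1 - |t|

lemma continuous_tri : Continuous tri := by
  unfold tri
  fun_prop

lemma tri_nonneg {t : ℝ} (ht : t ∈ Icc (-1 : ℝ) 1) : 0 ≤ tri t := by
  unfold tri
  have := abs_le.2 ht
  linarith

lemma tri_le {t : ℝ} : tri t ≤ 1 := by
  unfold tri
  have := abs_nonneg t
  linarith

/-- The Fourier transform of the triangle. -/
noncomputable def ker (ω : ℝ) : ℂ := ∫ t in (-1 : ℝ)..1, (tri t : ℂ) * ex ω t

lemma ker_real (ω : ℝ) : ∃ r : ℝ, 0 ≤ r ∧ ker ω = r := by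
  have hint : ∀ a b : ℝ, IntervalIntegrable (fun t : ℝ => (tri t : ℂ) * ex ω t) volume a b :=
    fun a b => ((Complex.continuous_ofReal.comp continuous_tri).mul
      (continuous_ex ω)).intervalIntegrable a b
  have h1 : ker ω = ((2 * ∫ t in (0 : ℝ)..1, (1 - t) * Real.cos (ω * t) : ℝ) : ℂ) := by
    unfold ker
    rw [← intervalIntegral.integral_add_adjacent_intervals (hint (-1) 0) (hint 0 1)]
    have h2 : ∫ t in (-1 : ℝ)..0, (tri t : ℂ) * ex ω t =
        ∫ t in (0 : ℝ)..1, (tri (-t) : ℂ) * ex ω (-t) := by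
      have := intervalIntegral.integral_comp_neg (a := 0) (b := 1)
        (fun t : ℝ => (tri t : ℂ) * ex ω t)
      rw [this]
      simp
    rw [h2, ← intervalIntegral.integral_add]
    · rw [Complex.ofReal_mul, ← intervalIntegral.integral_ofReal]
      push_cast
      rw [← intervalIntegral.integral_const_mul]
      refine intervalIntegral.integral_congr fun t ht => ?_
      rw [uIcc_of_le zero_le_one] at ht
      have h3 : tri (-t) = 1 - t := by
        unfold tri
        rw [abs_neg, abs_of_nonneg ht.1]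
      have h4 : tri t = 1 - t := by
        unfold tri
        rw [abs_of_nonneg ht.1]
      rw [h3, h4]
      have h5 : ex ω (-t) + ex ω t = 2 * Complex.cos (ω * t) := by
        unfold ex
        rw [Complex.two_cos]
        rw [show (-((ω * -t : ℝ) : ℂ) * Complex.I) = ((ω : ℂ) * t) * Complex.I by
          push_cast; ring]
        rw [show (-((ω * t : ℝ) : ℂ) * Complex.I) = -((ω : ℂ) * t) * Complex.I by
          push_cast; ring]
      rw [← mul_add, h5]
      push_cast
      ring
    · exact ((Complex.continuous_ofReal.comp (continuous_tri.comp continuous_neg)).mul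
        ((continuous_ex ω).comp continuous_neg)).intervalIntegrable _ _
    · exact hint 0 1
  refine ⟨_, ?_, h1⟩
  rcases eq_or_ne ω 0 with rfl | hω
  · refine mul_nonneg two_pos.le (intervalIntegral.integral_nonneg zero_le_one fun t ht => ?_)
    simp only [zero_mul, Real.cos_zero, mul_one]
    linarith [ht.2]
  · have h2 : ∫ t in (0 : ℝ)..1, (1 - t) * Real.cos (ω * t) = (1 - Real.cos ω) / ω ^ 2 := by
      have h3 : ∀ t ∈ uIcc (0 : ℝ) 1, HasDerivAt
          (fun t : ℝ => (1 - t) * Real.sin (ω * t) / ω - Real.cos (ω * t) / ω ^ 2)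
          ((1 - t) * Real.cos (ω * t)) t := by
        intro t _
        have h4 : HasDerivAt (fun t : ℝ => ω * t) ω t := by
          simpa using (hasDerivAt_id t).const_mul ω
        have h5 := h4.sin
        have h6 := h4.cos
        have h7 : HasDerivAt (fun t : ℝ => 1 - t) (-1) t := by
          simpa using (hasDerivAt_id t).const_sub 1
        have h8 := ((h7.mul h5).div_const ω).sub (h6.div_const (ω ^ 2))
        refine h8.congr_deriv ?_
        field_simp
        ring
      rw [intervalIntegral.integral_eq_sub_of_hasDerivAt h3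
        ((by fun_prop : Continuous fun t : ℝ => (1 - t) * Real.cos (ω * t)).intervalIntegrable _ _)]
      simp
      ring
    rw [h2]
    have := Real.cos_le_one ω
    have h3 : 0 ≤ 1 - Real.cos ω := by linarith
    positivity

/-- The linear form of the majorant principle. -/
lemma Dom.lin {F G : ℝ → ℂ} (h : Dom F G) (x : ℝ) :
    ‖∫ t in (-1 : ℝ)..1, (tri t : ℂ) * F (x + t)‖ ≤ (∫ t in (-1 : ℝ)..1, (tri t : ℂ) * G t).re := by
  obtain ⟨ι, hι, c, C, ω, hc, hC, hF, hG⟩ := h
  have hC0 : ∀ i, 0 ≤ C i := fun i => (norm_nonneg _).trans (hc i)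
  -- a general interchange
  have key : ∀ b : ι → ℂ, (∀ i, ‖b i‖ ≤ C i) →
      HasSum (fun i => b i * ker (ω i)) (∫ t in (-1 : ℝ)..1, (tri t : ℂ) * ∑' i, b i * ex (ω i) t) := by
    intro b hb
    have h1 : HasSum (fun i => ∫ t in (-1 : ℝ)..1, (tri t : ℂ) * (b i * ex (ω i) t))
        (∫ t in (-1 : ℝ)..1, ∑' i, (tri t : ℂ) * (b i * ex (ω i) t)) := by
      refine intervalIntegral.hasSum_integral_of_dominated_convergence (fun i _ => C i)
        (fun i => ?_) (fun i => ?_) ?_ ?_ ?_
      · exact ((Complex.continuous_ofReal.comp continuous_tri).mul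
          (continuous_const.mul (continuous_ex _))).aestronglyMeasurable
      · refine ae_of_all _ fun t ht => ?_
        rw [norm_mul, Complex.norm_real]
        have ht' : t ∈ Icc (-1 : ℝ) 1 := by
          rw [uIoc_of_le (by norm_num)] at ht
          exact Ioc_subset_Icc_self ht
        rw [Real.norm_of_nonneg (tri_nonneg ht')]
        calc tri t * ‖b i * ex (ω i) t‖ ≤ 1 * C i :=
              mul_le_mul tri_le (norm_term hb i t) (norm_nonneg _) zero_le_one
          _ = C i := one_mul _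
      · exact ae_of_all _ fun t _ => hC
      · exact continuous_const.intervalIntegrable _ _
      · refine ae_of_all _ fun t _ => ?_
        have h2 : Summable fun i => b i * ex (ω i) t :=
          Summable.of_norm_bounded hC fun i => norm_term hb i t
        exact (h2.mul_left _).hasSum
    have h2 : (fun i => ∫ t in (-1 : ℝ)..1, (tri t : ℂ) * (b i * ex (ω i) t)) =
        fun i => b i * ker (ω i) := by
      funext i
      unfold ker
      rw [← intervalIntegral.integral_const_mul]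
      refine intervalIntegral.integral_congr fun t _ => ?_
      ring
    rw [h2] at h1
    convert h1 using 1
    refine intervalIntegral.integral_congr fun t _ => ?_
    rw [tsum_mul_left]
  have h1 := key (fun i => c i * ex (ω i) x) fun i => by
    rw [norm_mul, norm_ex, mul_one]
    exact hc i
  have h2 := key (fun i => (C i : ℂ)) fun i => norm_C hc i
  have h3 : ∫ t in (-1 : ℝ)..1, (tri t : ℂ) * F (x + t) =
      ∫ t in (-1 : ℝ)..1, (tri t : ℂ) * ∑' i, c i * ex (ω i) x * ex (ω i) t := by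
    refine intervalIntegral.integral_congr fun t _ => ?_
    rw [hF]
    congr 1
    refine tsum_congr fun i => ?_
    rw [ex_add_right]
    ring
  have h4 : ∫ t in (-1 : ℝ)..1, (tri t : ℂ) * G t =
      ∫ t in (-1 : ℝ)..1, (tri t : ℂ) * ∑' i, (C i : ℂ) * ex (ω i) t := by
    refine intervalIntegral.integral_congr fun t _ => ?_
    rw [hG]
  rw [h3, h4, ← h1.tsum_eq]
  have h5 := Complex.hasSum_re h2
  have h6 : ∀ i, ‖c i * ex (ω i) x * ker (ω i)‖ ≤ ((C i : ℂ) * ker (ω i)).re := by
    intro i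
    obtain ⟨r, hr, hk⟩ := ker_real (ω i)
    rw [hk, norm_mul, norm_mul, norm_ex, mul_one, Complex.norm_real, Real.norm_of_nonneg hr,
      ← Complex.ofReal_mul, Complex.ofReal_re]
    exact mul_le_mul_of_nonneg_right (hc i) hr
  have h7 : Summable fun i => ‖c i * ex (ω i) x * ker (ω i)‖ :=
    Summable.of_nonneg_of_le (fun _ => norm_nonneg _) h6 h5.summable
  calc ‖∑' i, c i * ex (ω i) x * ker (ω i)‖ ≤ ∑' i, ‖c i * ex (ω i) x * ker (ω i)‖ :=
        norm_tsum_le_tsum_norm h7
    _ ≤ ∑' i, ((C i : ℂ) * ker (ω i)).re := h7.tsum_le_tsum h6 h5.summable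
    _ = _ := h5.tsum_eq

/-- **The local majorant principle.** -/
lemma Dom.sq {F G : ℝ → ℂ} (h : Dom F G) (x : ℝ) :
    ∫ t in (-1 : ℝ)..1, tri t * ‖F (x + t)‖ ^ 2 ≤ ∫ t in (-1 : ℝ)..1, tri t * ‖G t‖ ^ 2 := by
  have h1 := (h.mul h.conj).lin x
  have h2 : ∀ z : ℂ, z * conj z = ((‖z‖ ^ 2 : ℝ) : ℂ) := by
    intro z
    rw [Complex.mul_conj, Complex.normSq_eq_norm_sq]
  simp only [h2, ← Complex.ofReal_mul] at h1
  rw [intervalIntegral.integral_ofReal, intervalIntegral.integral_ofReal, Complex.norm_real,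
    Complex.ofReal_re] at h1
  exact (le_abs_self _).trans h1

lemma Dom.even_pow {F G : ℝ → ℂ} (h : Dom F G) (x : ℝ) (k : ℕ) :
    ∫ t in (-1 : ℝ)..1, tri t * ‖F (x + t)‖ ^ (2 * k) ≤
      ∫ t in (-1 : ℝ)..1, tri t * ‖G t‖ ^ (2 * k) := by
  have h1 := (h.pow k).sq x
  simpa only [norm_pow, ← pow_mul, mul_comm k 2] using h1

/-- integrals of `cosh` as sums of moments -/
lemma hasSum_cosh {f : ℝ → ℂ} (hf : Continuous f) (κ : ℝ) :
    HasSum (fun k : ℕ => κ ^ (2 * k) / (2 * k).factorial *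
      ∫ t in (-1 : ℝ)..1, tri t * ‖f t‖ ^ (2 * k))
      (∫ t in (-1 : ℝ)..1, tri t * Real.cosh (κ * ‖f t‖)) := by
  obtain ⟨B, hB⟩ := (isCompact_Icc (a := (-1 : ℝ)) (b := 1)).exists_bound_of_continuousOn
    hf.continuousOn
  have hB' : ∀ t ∈ Icc (-1 : ℝ) 1, ‖f t‖ ≤ |B| := fun t ht => (hB t ht).trans (le_abs_self B)
  have h1 : HasSum (fun k : ℕ => ∫ t in (-1 : ℝ)..1, κ ^ (2 * k) / (2 * k).factorial *
      (tri t * ‖f t‖ ^ (2 * k))) (∫ t in (-1 : ℝ)..1, tri t * Real.cosh (κ * ‖f t‖)) := by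
    refine intervalIntegral.hasSum_integral_of_dominated_convergence
      (fun k _ => (|κ| * |B|) ^ (2 * k) / (2 * k).factorial) (fun k => ?_) (fun k => ?_) ?_ ?_ ?_
    · exact (by
        have := continuous_tri
        fun_prop : Continuous fun t : ℝ => κ ^ (2 * k) / ((2 * k).factorial : ℝ) *
          (tri t * ‖f t‖ ^ (2 * k))).aestronglyMeasurable
    · refine ae_of_all _ fun t ht => ?_
      have ht' : t ∈ Icc (-1 : ℝ) 1 := by
        rw [uIoc_of_le (by norm_num)] at ht
        exact Ioc_subset_Icc_self ht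
      have h2 : ‖f t‖ ^ (2 * k) ≤ |B| ^ (2 * k) :=
        pow_le_pow_left₀ (norm_nonneg _) (hB' t ht') _
      have h3 : 0 ≤ tri t := tri_nonneg ht'
      have h4 : tri t ≤ 1 := tri_le
      rw [norm_mul, norm_div, norm_pow, Real.norm_eq_abs κ, Real.norm_natCast,
        Real.norm_of_nonneg (by positivity : 0 ≤ tri t * ‖f t‖ ^ (2 * k)), mul_pow,
        mul_div_right_comm]
      refine mul_le_mul_of_nonneg_left ?_ (by positivity)
      calc tri t * ‖f t‖ ^ (2 * k) ≤ 1 * |B| ^ (2 * k) :=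
            mul_le_mul h4 h2 (by positivity) zero_le_one
        _ = _ := one_mul _
    · refine ae_of_all _ fun t _ => ?_
      have := (Real.hasSum_cosh (|κ| * |B|)).summable
      exact this
    · exact continuous_const.intervalIntegrable _ _
    · refine ae_of_all _ fun t _ => ?_
      have h2 := (Real.hasSum_cosh (κ * ‖f t‖)).mul_left (tri t)
      refine h2.congr_fun fun k => ?_
      rw [mul_pow]
      ring
  refine h1.congr_fun fun k => ?_
  rw [intervalIntegral.integral_const_mul]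

lemma Dom.cosh {F G : ℝ → ℂ} (h : Dom F G) (x κ : ℝ) :
    ∫ t in (-1 : ℝ)..1, tri t * Real.cosh (κ * ‖F (x + t)‖) ≤
      ∫ t in (-1 : ℝ)..1, tri t * Real.cosh (κ * ‖G t‖) := by
  have hF : Continuous fun t => F (x + t) := h.continuous_left.comp (continuous_const.add continuous_id)
  refine hasSum_le (fun k => ?_) (hasSum_cosh hF κ) (hasSum_cosh h.continuous_right κ)
  refine mul_le_mul_of_nonneg_left (h.even_pow x k) ?_
  rw [pow_mul]
  positivity

/-- **Exponential moments in unit intervals.** -/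
lemma Dom.exp_moment {F G : ℝ → ℂ} (h : Dom F G) (x : ℝ) {κ : ℝ} (hκ : 0 ≤ κ) :
    ∫ t in x..(x + 1), Real.exp (κ * ‖F t‖) ≤
      4 * ∫ t in (-1 : ℝ)..1, Real.exp (κ * ‖G t‖) := by
  have hFc := h.continuous_left
  have hGc := h.continuous_right
  have hco : Continuous Real.cosh := Real.continuous_cosh
  have h1 := h.cosh (x + 1 / 2) κ
  have h0 : ∀ y : ℝ, 0 ≤ Real.cosh y := fun y => (Real.cosh_pos y).le
  have h2 : ∫ t in x..(x + 1), Real.exp (κ * ‖F t‖) ≤
      ∫ t in x..(x + 1), 2 * Real.cosh (κ * ‖F t‖) := by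
    refine intervalIntegral.integral_mono_on (by linarith) ?_ ?_ fun t _ => ?_
    · exact (by fun_prop : Continuous fun t => Real.exp (κ * ‖F t‖)).intervalIntegrable _ _
    · exact (by fun_prop : Continuous fun t => 2 * Real.cosh (κ * ‖F t‖)).intervalIntegrable _ _
    · rw [Real.cosh_eq]
      have := Real.exp_pos (-(κ * ‖F t‖))
      linarith
  have h3 : ∫ t in x..(x + 1), 2 * Real.cosh (κ * ‖F t‖) =
      ∫ t in (-(1 / 2) : ℝ)..(1 / 2), 2 * Real.cosh (κ * ‖F (x + 1 / 2 + t)‖) := by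
    rw [intervalIntegral.integral_comp_add_left (fun t => 2 * Real.cosh (κ * ‖F t‖))]
    congr 1 <;> ring
  have h4 : ∫ t in (-(1 / 2) : ℝ)..(1 / 2), 2 * Real.cosh (κ * ‖F (x + 1 / 2 + t)‖) ≤
      ∫ t in (-(1 / 2) : ℝ)..(1 / 2), 4 * (tri t * Real.cosh (κ * ‖F (x + 1 / 2 + t)‖)) := by
    refine intervalIntegral.integral_mono_on (by norm_num) ?_ ?_ fun t ht => ?_
    · exact (by fun_prop : Continuous fun t =>
        2 * Real.cosh (κ * ‖F (x + 1 / 2 + t)‖)).intervalIntegrable _ _
    · exact (by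
        have := continuous_tri
        fun_prop : Continuous fun t =>
          4 * (tri t * Real.cosh (κ * ‖F (x + 1 / 2 + t)‖))).intervalIntegrable _ _
    · have h5 : 1 / 2 ≤ tri t := by
        unfold tri
        have := abs_le.2 ht
        linarith
      nlinarith [h0 (κ * ‖F (x + 1 / 2 + t)‖)]
  have h5 : ∫ t in (-(1 / 2) : ℝ)..(1 / 2), 4 * (tri t * Real.cosh (κ * ‖F (x + 1 / 2 + t)‖)) ≤
      ∫ t in (-1 : ℝ)..1, 4 * (tri t * Real.cosh (κ * ‖F (x + 1 / 2 + t)‖)) := by
    refine intervalIntegral.integral_mono_interval (by norm_num) (by norm_num) (by norm_num) ?_ ?_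
    · refine (ae_restrict_mem measurableSet_Ioc).mono fun t ht => ?_
      exact mul_nonneg (by norm_num) (mul_nonneg (tri_nonneg (Ioc_subset_Icc_self ht)) (h0 _))
    · exact (by
        have := continuous_tri
        fun_prop : Continuous fun t =>
          4 * (tri t * Real.cosh (κ * ‖F (x + 1 / 2 + t)‖))).intervalIntegrable _ _
  have h5' : ∫ t in (-1 : ℝ)..1, 4 * (tri t * Real.cosh (κ * ‖F (x + 1 / 2 + t)‖)) =
      4 * ∫ t in (-1 : ℝ)..1, tri t * Real.cosh (κ * ‖F (x + 1 / 2 + t)‖) :=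
    intervalIntegral.integral_const_mul _ _
  rw [h5'] at h5
  have h6 : ∫ t in (-1 : ℝ)..1, tri t * Real.cosh (κ * ‖G t‖) ≤
      ∫ t in (-1 : ℝ)..1, Real.exp (κ * ‖G t‖) := by
    refine intervalIntegral.integral_mono_on (by norm_num) ?_ ?_ fun t ht => ?_
    · exact (by
        have := continuous_tri
        fun_prop : Continuous fun t => tri t * Real.cosh (κ * ‖G t‖)).intervalIntegrable _ _
    · exact (by fun_prop : Continuous fun t => Real.exp (κ * ‖G t‖)).intervalIntegrable _ _
    · have h7 : 0 ≤ κ * ‖G t‖ := by positivity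
      have h8 : Real.cosh (κ * ‖G t‖) ≤ Real.exp (κ * ‖G t‖) := by
        rw [Real.cosh_eq]
        have : Real.exp (-(κ * ‖G t‖)) ≤ Real.exp (κ * ‖G t‖) := Real.exp_le_exp.2 (by linarith)
        linarith
      calc tri t * Real.cosh (κ * ‖G t‖) ≤ 1 * Real.exp (κ * ‖G t‖) :=
            mul_le_mul tri_le h8 (h0 _) zero_le_one
        _ = _ := one_mul _
  rw [h3] at h2
  linarith

end Pool.Agent.K6.H65.BJ
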