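import Pool.Agent.W350.EdgeV
import Pool.Agent.K6.H65.BJ.Maj

/-!
# Motives over `ℚ` and their logarithms on the edge line
-/

set_option autoImplicit false

namespace Pool.Agent.K6.H65.BJ

open Filter Topology

lemma finite_primesLt (x : ℕ) : {p : Nat.Primes | (p : ℕ) < x}.Finite :=
  Set.Finite.of_finite_image ((Set.finite_Iio x).subset (by
    rintro _ ⟨p, hp, rfl⟩
    exact hp)) Subtype.val_injective.injOn

/-- The primes less than `x`. -/
noncomputable def primesLt (x : ℕ) : Finset Nat.Primes := (finite_primesLt x).toFinset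

lemma mem_primesLt {x : ℕ} {p : Nat.Primes} : p ∈ primesLt x ↔ (p : ℕ) < x := by
  unfold primesLt
  simp

/-- The Frobenius data of a cohomology group `H^i` of a Chow motive over `ℚ`: its weight, its rank
`N` (the Betti number) and, for every prime `p`, the `N` inverse roots of the Euler factor, some of
which may be zero (at the primes of bad reduction).  They have absolute value at most `p^{w/2}`
(Deligne). -/
structure Motive where
  /-- The weight. -/
  weight : ℤ
  /-- The rank. -/
  rank : ℕ
  /-- The inverse roots of the Euler factors. -/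
  root : Nat.Primes → Fin rank → ℂ
  norm_root_le : ∀ p k, ‖root p k‖ ≤ (p : ℝ) ^ ((weight : ℝ) / 2)

variable {N : ℕ}

/-- The logarithm of `∏_k (1 - b_{p,k} u / p)⁻¹`. -/
noncomputable def logAt (b : Nat.Primes → Fin N → ℂ) (p : Nat.Primes) (u : ℂ) : ℂ :=
  ∑ k, -Complex.log (1 - b p k * u / p)

/-- The partial sum over the primes `p < x` of the logarithms of the Euler factors, at the family of
phases `u`. -/
noncomputable def partialLog (b : Nat.Primes → Fin N → ℂ) (x : ℕ) (u : Nat.Primes → ℂ) : ℂ :=
  ∑ p ∈ primesLt x, logAt b p (u p)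

namespace Motive

variable (M : Motive)

/-- The `L`-function, on its half plane of absolute convergence `Re s > w/2 + 1`. -/
noncomputable def LFun (s : ℂ) : ℂ :=
  ∏' p : Nat.Primes, ∏ k, (1 - M.root p k * (p : ℂ) ^ (-s))⁻¹

/-- The point of height `τ` on the line `Re s = w/2 + 1`. -/
noncomputable def edgePoint (τ : ℝ) : ℂ := (((M.weight : ℝ) / 2 + 1 : ℝ) : ℂ) + τ * Complex.I

/-- The inverse roots, divided by `p^{w/2}`. -/
noncomputable def nroot (p : Nat.Primes) (k : Fin M.rank) : ℂ :=
  M.root p k / (((p : ℝ) ^ ((M.weight : ℝ) / 2) : ℝ) : ℂ)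

end Motive

end Pool.Agent.K6.H65.BJ
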