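import Pool.Agent.K6.H65.BJ.Maj

/-!
# Uniform distribution of the phases `p^{-iτ}`
-/

set_option autoImplicit false

namespace Pool.Agent.K6.H65.BJ

open MeasureTheory Filter Topology

/-- The space of families of phases, one for each prime. -/
abbrev Om : Type := Nat.Primes → UnitAddCircle

/-- The product of the uniform distributions: the phases are independent and uniformly distributed. -/
noncomputable def PP : Measure Om :=
  Measure.infinitePi (fun _ : Nat.Primes => (AddCircle.haarAddCircle : Measure UnitAddCircle))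

instance : IsProbabilityMeasure PP := by
  unfold PP
  infer_instance

/-- The point of the phase space given by `p^{-iτ}`. -/
noncomputable def flow (τ : ℝ) (p : Nat.Primes) : UnitAddCircle :=
  ((-(τ * Real.log p) / (2 * Real.pi) : ℝ) : UnitAddCircle)

lemma continuous_flow : Continuous flow := by
  refine continuous_pi fun p => ?_
  unfold flow
  exact (AddCircle.continuous_mk' 1).comp (by fun_prop)

/-- The unimodular number of a phase. -/
noncomputable def unim (ω : Om) (p : Nat.Primes) : ℂ := ((AddCircle.toCircle (ω p) : Circle) : ℂ)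

lemma norm_unim (ω : Om) (p : Nat.Primes) : ‖unim ω p‖ = 1 := Circle.norm_coe _

lemma continuous_unim (p : Nat.Primes) : Continuous fun ω : Om => unim ω p := by
  unfold unim
  exact (map_continuous (fourier 1 : C(UnitAddCircle, ℂ))).comp (continuous_apply p) |>.congr
    fun ω => by simp

lemma unim_flow (τ : ℝ) (p : Nat.Primes) : unim (flow τ) p = ex (Real.log p) τ := by
  unfold unim flow ex
  rw [AddCircle.toCircle_apply_mk, Circle.coe_exp]
  congr 1
  have := Real.pi_pos.ne'
  push_cast
  field_simp

/-- The characters of the phase space. -/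
noncomputable def chr (n : Nat.Primes →₀ ℤ) : C(Om, ℂ) :=
  n.prod fun p k => (fourier k).comp ⟨fun ω : Om => ω p, continuous_apply p⟩

lemma chr_add (n m : Nat.Primes →₀ ℤ) : chr (n + m) = chr n * chr m := by
  classical
  unfold chr
  refine Finsupp.prod_add_index' (fun p => ?_) (fun p k l => ?_)
  · ext ω
    simp
  · ext ω
    exact fourier_add

lemma chr_zero : chr 0 = 1 := by
  unfold chr
  exact Finsupp.prod_zero_index

lemma chr_apply (n : Nat.Primes →₀ ℤ) (ω : Om) :
    chr n ω = ∏ p ∈ n.support, fourier (n p) (ω p) := by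
  unfold chr Finsupp.prod
  rw [ContinuousMap.coe_prod, Finset.prod_apply]
  rfl

lemma star_chr (n : Nat.Primes →₀ ℤ) : star (chr n) = chr (-n) := by
  ext ω
  rw [ContinuousMap.star_apply, chr_apply, chr_apply, Finsupp.support_neg]
  rw [star_prod]
  refine Finset.prod_congr rfl fun p _ => ?_
  exact fourier_neg.symm

lemma chr_single (p : Nat.Primes) (ω : Om) : chr (Finsupp.single p 1) ω = unim ω p := by
  unfold chr unim
  rw [Finsupp.prod_single_index]
  · simp
  · ext ω
    simp

/-- The algebra of trigonometric polynomials on the phase space. -/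
noncomputable def trig : StarSubalgebra ℂ C(Om, ℂ) where
  toSubalgebra := Algebra.adjoin ℂ (Set.range chr)
  star_mem' := by
    change Algebra.adjoin ℂ (Set.range chr) ≤ star (Algebra.adjoin ℂ (Set.range chr))
    refine Algebra.adjoin_le ?_
    rintro - ⟨n, rfl⟩
    exact Algebra.subset_adjoin ⟨-n, (star_chr n).symm⟩

lemma trig_coe : Subalgebra.toSubmodule trig.toSubalgebra = Submodule.span ℂ (Set.range chr) := by
  apply Algebra.adjoin_eq_span_of_subset
  refine Set.Subset.trans ?_ Submodule.subset_span
  intro x hx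
  refine Submonoid.closure_induction (fun _ => id) ⟨0, chr_zero⟩ ?_ hx
  rintro - - - - ⟨m, rfl⟩ ⟨n, rfl⟩
  exact ⟨m + n, chr_add m n⟩

lemma trig_separates : trig.SeparatesPoints := by
  intro x y hxy
  obtain ⟨p, hp⟩ := Function.ne_iff.1 hxy
  refine ⟨_, ⟨chr (Finsupp.single p 1), Algebra.subset_adjoin ⟨_, rfl⟩, rfl⟩, ?_⟩
  show chr (Finsupp.single p 1) x ≠ chr (Finsupp.single p 1) y
  rw [chr_single, chr_single]
  unfold unim
  intro h
  exact hp (AddCircle.injective_toCircle one_ne_zero (Subtype.coe_inj.1 h))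

lemma span_chr_closure : (Submodule.span ℂ (Set.range chr)).topologicalClosure = ⊤ := by
  rw [← trig_coe]
  exact congr_arg (Subalgebra.toSubmodule <| StarSubalgebra.toSubalgebra ·)
    (ContinuousMap.starSubalgebra_topologicalClosure_eq_top_of_separatesPoints trig trig_separates)

/-- The frequency of a character. -/
noncomputable def freq (n : Nat.Primes →₀ ℤ) : ℝ := ∑ p ∈ n.support, (n p : ℝ) * Real.log p

lemma chr_flow (n : Nat.Primes →₀ ℤ) (τ : ℝ) : chr n (flow τ) = ex (freq n) τ := by
  rw [chr_apply]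
  have h1 : ∀ p ∈ n.support, (fourier (n p) (flow τ p) : ℂ) =
      Complex.exp (-(((n p : ℝ) * Real.log p * τ : ℝ) : ℂ) * Complex.I) := by
    intro p _
    unfold flow
    rw [fourier_coe_apply]
    congr 1
    have := Real.pi_pos.ne'
    push_cast
    field_simp
  rw [Finset.prod_congr rfl h1, ← Complex.exp_sum]
  unfold ex freq
  congr 1
  rw [Finset.sum_mul, Complex.ofReal_sum, ← Finset.sum_neg_distrib, Finset.sum_mul]

lemma log_sum (s : Finset Nat.Primes) (e : Nat.Primes → ℕ) :
    ∑ p ∈ s, (e p : ℝ) * Real.log p = Real.log ((∏ p ∈ s, (p : ℕ) ^ e p : ℕ) : ℝ) := by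
  have hpos : ∀ p : Nat.Primes, (0 : ℝ) < p := fun p => by exact_mod_cast p.2.pos
  push_cast
  rw [Real.log_prod (fun p _ => (pow_pos (hpos p) _).ne')]
  refine Finset.sum_congr rfl fun p _ => ?_
  rw [Real.log_pow]

/-- The logarithms of the primes are linearly independent over `ℚ`. -/
lemma freq_ne_zero {n : Nat.Primes →₀ ℤ} (hn : n ≠ 0) : freq n ≠ 0 := by
  classical
  intro h0
  obtain ⟨q, hq⟩ := Finsupp.ne_iff.1 hn
  have hqs : q ∈ n.support := Finsupp.mem_support_iff.2 hq
  have h1 : ∑ p ∈ n.support, (((n p).toNat : ℕ) : ℝ) * Real.log p =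
      ∑ p ∈ n.support, (((-n p).toNat : ℕ) : ℝ) * Real.log p := by
    rw [← sub_eq_zero, ← Finset.sum_sub_distrib, ← h0]
    refine Finset.sum_congr rfl fun p _ => ?_
    rw [← sub_mul]
    congr 1
    have : ((n p).toNat : ℤ) - ((-n p).toNat : ℤ) = n p := by omega
    exact_mod_cast this
  rw [log_sum n.support (fun p => (n p).toNat), log_sum n.support (fun p => (-n p).toNat)] at h1
  have hpp : ∀ e : Nat.Primes → ℕ, 0 < ∏ p ∈ n.support, (p : ℕ) ^ e p := fun e =>
    Finset.prod_pos fun p _ => pow_pos p.2.pos _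
  have h2 : ∏ p ∈ n.support, (p : ℕ) ^ (n p).toNat = ∏ p ∈ n.support, (p : ℕ) ^ (-n p).toNat := by
    have := Real.log_injOn_pos (Set.mem_Ioi.2 (by exact_mod_cast hpp _))
      (Set.mem_Ioi.2 (by exact_mod_cast hpp _)) h1
    exact_mod_cast this
  have h3 : ∀ e : Nat.Primes → ℕ,
      (∏ p ∈ n.support, (p : ℕ) ^ e p).factorization q = e q := by
    intro e
    rw [Nat.factorization_prod (fun p _ => (pow_pos p.2.pos _).ne')]
    rw [Finsupp.finsetSum_apply, Finset.sum_eq_single q]
    · rw [q.2.factorization_pow]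
      simp
    · intro p _ hpq
      rw [p.2.factorization_pow, Finsupp.single_apply, if_neg]
      exact fun h => hpq (Nat.Primes.coe_nat_injective h)
    · exact fun h => absurd hqs h
  have h4 := congrArg (fun m => m.factorization (q : ℕ)) h2
  simp only [h3] at h4
  have h5 : n q ≠ 0 := hq
  omega

lemma integral_chr {n : Nat.Primes →₀ ℤ} (hn : n ≠ 0) : ∫ ω, chr n ω ∂PP = 0 := by
  classical
  obtain ⟨q, hq⟩ := Finsupp.ne_iff.1 hn
  have hqs : q ∈ n.support := Finsupp.mem_support_iff.2 hq
  have h1 : ∀ ω : Om, chr n ω =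
      (fun y : (∀ _ : n.support, UnitAddCircle) => ∏ i : n.support, (fourier (n i) (y i) : ℂ))
        (n.support.restrict ω) := by
    intro ω
    rw [chr_apply, ← Finset.prod_coe_sort]
    rfl
  simp_rw [h1]
  unfold PP
  rw [integral_restrict_infinitePi (μ := fun _ : Nat.Primes =>
    (AddCircle.haarAddCircle : Measure UnitAddCircle))
    (f := fun y : (∀ _ : n.support, UnitAddCircle) => ∏ i : n.support, (fourier (n i) (y i) : ℂ))
    (by
      refine Continuous.aestronglyMeasurable ?_
      exact continuous_finsetProd _ fun i _ => (map_continuous _).comp (continuous_apply i))]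
  rw [integral_fintype_prod_eq_prod (𝕜 := ℂ) (fun (i : n.support) (x : UnitAddCircle) =>
    (fourier (n i) x : ℂ))]
  refine Finset.prod_eq_zero (Finset.mem_univ ⟨q, hqs⟩) ?_
  exact integral_eq_zero_of_add_right_eq_neg (μ := AddCircle.haarAddCircle)
    (fourier_add_half_inv_index hq one_pos)

end Pool.Agent.K6.H65.BJ
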