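import Pool.Agent.K6.H65.BJ.Equi

/-!
# Time averages converge to space averages, uniformly in the starting point
-/

set_option autoImplicit false

namespace Pool.Agent.K6.H65.BJ

open MeasureTheory Filter Topology

/-- The difference of the time average over `[x, x + H]` and the space average. -/
noncomputable def dev (G : C(Om, ℂ)) (x H : ℝ) : ℂ :=
  (H : ℂ)⁻¹ * (∫ τ in x..(x + H), G (flow τ)) - ∫ ω, G ω ∂PP

lemma integrable_PP (G : C(Om, ℂ)) : Integrable (fun ω => G ω) PP :=
  (map_continuous G).integrable_of_hasCompactSupport (HasCompactSupport.of_compactSpace _)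

lemma intervalIntegrable_flow (G : C(Om, ℂ)) (x y : ℝ) :
    IntervalIntegrable (fun τ => G (flow τ)) volume x y :=
  ((map_continuous G).comp continuous_flow).intervalIntegrable _ _

lemma dev_add (G G' : C(Om, ℂ)) (x H : ℝ) : dev (G + G') x H = dev G x H + dev G' x H := by
  unfold dev
  have h1 : ∫ τ in x..(x + H), (G + G') (flow τ) =
      (∫ τ in x..(x + H), G (flow τ)) + ∫ τ in x..(x + H), G' (flow τ) :=
    intervalIntegral.integral_add (intervalIntegrable_flow G _ _) (intervalIntegrable_flow G' _ _)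
  have h2 : ∫ ω, (G + G') ω ∂PP = (∫ ω, G ω ∂PP) + ∫ ω, G' ω ∂PP :=
    integral_add (integrable_PP G) (integrable_PP G')
  rw [h1, h2]
  ring

lemma dev_smul (c : ℂ) (G : C(Om, ℂ)) (x H : ℝ) : dev (c • G) x H = c * dev G x H := by
  unfold dev
  have h1 : ∫ τ in x..(x + H), (c • G) (flow τ) = c * ∫ τ in x..(x + H), G (flow τ) :=
    intervalIntegral.integral_const_mul _ _
  have h2 : ∫ ω, (c • G) ω ∂PP = c * ∫ ω, G ω ∂PP := integral_const_mul _ _
  rw [h1, h2]
  ring

lemma norm_dev_le (G : C(Om, ℂ)) (x : ℝ) {H : ℝ} (hH : 0 < H) : ‖dev G x H‖ ≤ 2 * ‖G‖ := by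
  unfold dev
  have h1 : ‖∫ τ in x..(x + H), G (flow τ)‖ ≤ ‖G‖ * |x + H - x| :=
    intervalIntegral.norm_integral_le_of_norm_le_const fun τ _ => G.norm_coe_le_norm _
  have h2 : ‖∫ ω, G ω ∂PP‖ ≤ ‖G‖ := by
    have := norm_integral_le_of_norm_le_const (μ := PP) (f := fun ω => G ω) (C := ‖G‖)
      (Eventually.of_forall fun ω => G.norm_coe_le_norm _)
    simpa using this
  rw [add_sub_cancel_left, abs_of_pos hH] at h1
  refine (norm_sub_le _ _).trans ?_
  rw [norm_mul, norm_inv, Complex.norm_real, Real.norm_of_nonneg hH.le]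
  have h3 : H⁻¹ * ‖∫ τ in x..(x + H), G (flow τ)‖ ≤ ‖G‖ := by
    calc H⁻¹ * ‖∫ τ in x..(x + H), G (flow τ)‖ ≤ H⁻¹ * (‖G‖ * H) :=
          mul_le_mul_of_nonneg_left h1 (by positivity)
      _ = ‖G‖ := by field_simp
  linarith

lemma integral_ex {ω : ℝ} (hω : ω ≠ 0) (x y : ℝ) : ‖∫ τ in x..y, ex ω τ‖ ≤ 2 / |ω| := by
  have h1 : (∫ τ in x..y, ex ω τ) =
      (Complex.exp ((-(ω : ℂ) * Complex.I) * y) - Complex.exp ((-(ω : ℂ) * Complex.I) * x)) /
        (-(ω : ℂ) * Complex.I) := by
    have hc : -(ω : ℂ) * Complex.I ≠ 0 := by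
      simp [hω]
    rw [← integral_exp_mul_complex hc]
    refine intervalIntegral.integral_congr fun τ _ => ?_
    show ex ω τ = _
    unfold ex
    congr 1
    push_cast
    ring
  have h2 : ∀ t : ℝ, ‖Complex.exp ((-(ω : ℂ) * Complex.I) * t)‖ = 1 := by
    intro t
    have := norm_ex ω t
    unfold ex at this
    rw [← this]
    congr 2
    push_cast
    ring
  rw [h1, norm_div]
  have h3 : ‖-(ω : ℂ) * Complex.I‖ = |ω| := by simp
  rw [h3]
  refine div_le_div_of_nonneg_right ?_ (abs_nonneg _)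
  refine (norm_sub_le _ _).trans ?_
  rw [h2, h2]
  norm_num

/-- The class of functions with uniform convergence of the time averages. -/
def Conv (G : C(Om, ℂ)) : Prop :=
  ∀ ε : ℝ, 0 < ε → ∃ H₀ : ℝ, 0 < H₀ ∧ ∀ H : ℝ, H₀ ≤ H → ∀ x, ‖dev G x H‖ ≤ ε

lemma conv_chr (n : Nat.Primes →₀ ℤ) : Conv (chr n) := by
  intro ε hε
  by_cases hn : n = 0
  · refine ⟨1, one_pos, fun H hH x => ?_⟩
    have hH0 : (0 : ℝ) < H := by linarith
    have h1 : dev (chr n) x H = 0 := by
      subst hn
      unfold dev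
      rw [chr_zero]
      have hH1 : (H : ℂ) ≠ 0 := by exact_mod_cast hH0.ne'
      simp [hH1]
    rw [h1, norm_zero]
    exact hε.le
  · have hf := freq_ne_zero hn
    have hf0 : 0 < |freq n| := abs_pos.2 hf
    refine ⟨2 / |freq n| / ε, by positivity, fun H hH x => ?_⟩
    have hH0 : 0 < H := lt_of_lt_of_le (by positivity) hH
    unfold dev
    rw [integral_chr hn, sub_zero, norm_mul, norm_inv, Complex.norm_real,
      Real.norm_of_nonneg hH0.le]
    have h1 : ∫ τ in x..(x + H), chr n (flow τ) = ∫ τ in x..(x + H), ex (freq n) τ :=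
      intervalIntegral.integral_congr fun τ _ => chr_flow n τ
    rw [h1]
    have h2 := integral_ex hf x (x + H)
    rw [div_le_iff₀ hε] at hH
    calc H⁻¹ * ‖∫ τ in x..(x + H), ex (freq n) τ‖ ≤ H⁻¹ * (H * ε) :=
          mul_le_mul_of_nonneg_left (h2.trans hH) (by positivity)
      _ = ε := by field_simp

lemma conv_span {G : C(Om, ℂ)} (hG : G ∈ Submodule.span ℂ (Set.range chr)) : Conv G := by
  induction hG using Submodule.span_induction with
  | mem x h =>
    obtain ⟨n, rfl⟩ := h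
    exact conv_chr n
  | zero =>
    intro ε hε
    refine ⟨1, one_pos, fun H hH x => ?_⟩
    have := norm_dev_le 0 x (show (0 : ℝ) < H by linarith)
    rw [norm_zero, mul_zero] at this
    exact this.trans hε.le
  | add G G' _ _ h h' =>
    intro ε hε
    obtain ⟨H₁, h1, h1'⟩ := h (ε / 2) (by positivity)
    obtain ⟨H₂, h2, h2'⟩ := h' (ε / 2) (by positivity)
    refine ⟨max H₁ H₂, lt_max_of_lt_left h1, fun H hH x => ?_⟩
    rw [dev_add]
    refine (norm_add_le _ _).trans ?_
    have h3 := h1' H ((le_max_left _ _).trans hH) x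
    have h4 := h2' H ((le_max_right _ _).trans hH) x
    linarith
  | smul c G _ h =>
    intro ε hε
    obtain ⟨H₁, h1, h1'⟩ := h (ε / (‖c‖ + 1)) (by positivity)
    refine ⟨H₁, h1, fun H hH x => ?_⟩
    rw [dev_smul, norm_mul]
    have h2 := h1' H hH x
    calc ‖c‖ * ‖dev G x H‖ ≤ (‖c‖ + 1) * (ε / (‖c‖ + 1)) := by
          gcongr
          linarith
      _ = ε := by field_simp

/-- **Uniform distribution**, uniformly in the starting point. -/
theorem conv_all (G : C(Om, ℂ)) : Conv G := by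
  intro ε hε
  have h1 : G ∈ (Submodule.span ℂ (Set.range chr)).topologicalClosure := by
    rw [span_chr_closure]
    trivial
  have h2 : G ∈ closure (Submodule.span ℂ (Set.range chr) : Set C(Om, ℂ)) := by
    rw [← Submodule.topologicalClosure_coe]
    exact h1
  obtain ⟨G', hG', hd⟩ := Metric.mem_closure_iff.1 h2 (ε / 4) (by positivity)
  obtain ⟨H₀, h3, h4⟩ := conv_span hG' (ε / 2) (by positivity)
  refine ⟨H₀, h3, fun H hH x => ?_⟩
  have h5 : G = G' + (G - G') := by abel
  rw [h5, dev_add]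
  refine (norm_add_le _ _).trans ?_
  have h6 := norm_dev_le (G - G') x (h3.trans_le hH)
  rw [dist_eq_norm] at hd
  have h7 := h4 H hH x
  linarith

end Pool.Agent.K6.H65.BJ
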