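import Mathlib

/-!
# Transfer between nearby random vectors with exponential moments
-/

set_option autoImplicit false

namespace Pool.Agent.K6.H65.BJ

open MeasureTheory Filter Topology
open scoped ENNReal

/-- Exponential moments of order less than `1/N`, with a pole of order one at `1/N`. -/
def ExpBd {α : Type*} [MeasurableSpace α] (μ : Measure α) (Y : α → ℂ) (N : ℕ) (c : ℝ) : Prop :=
  ∀ a : ℝ, 0 ≤ a → a * N < 1 →
    ∫⁻ ω, ENNReal.ofReal (Real.exp (a * ‖Y ω‖)) ∂μ ≤ ENNReal.ofReal (c / (1 - a * N))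

/-- Joint exponential moments. -/
lemma joint {r : ℕ} (N : Fin r → ℕ) (κ : Fin r → ℝ) (hκ : ∀ j, 0 ≤ κ j)
    (hK : ∑ j, κ j * N j < 1) {c : ℝ} (hc : 0 ≤ c) :
    ∃ B : ℝ, 0 ≤ B ∧ ∀ {α : Type} [MeasurableSpace α] (μ : Measure α) [IsProbabilityMeasure μ]
      (Y : α → Fin r → ℂ), (∀ j, AEMeasurable (fun ω => Y ω j) μ) →
      (∀ j, ExpBd μ (fun ω => Y ω j) (N j) c) →
      ∫⁻ ω, ENNReal.ofReal (Real.exp (∑ j, κ j * ‖Y ω j‖)) ∂μ ≤ ENNReal.ofReal B := by
  classical
  rcases Nat.eq_zero_or_pos r with h0 | hr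
  · subst h0
    refine ⟨1, zero_le_one, fun {α} _ μ _ Y _ _ => ?_⟩
    simp
  set K : ℝ := ∑ j, κ j * N j with hKdef
  have hK0 : 0 ≤ K := Finset.sum_nonneg fun j _ => mul_nonneg (hκ j) (Nat.cast_nonneg _)
  set K' : ℝ := (1 + K) / 2 with hK'
  have hK'0 : 0 < K' := by positivity
  have hK'1 : K' < 1 := by
    rw [hK']
    linarith
  have hr0 : (0 : ℝ) < r := by exact_mod_cast hr
  set m : Fin r → ℝ := fun j => κ j * N j + (1 - K) / (2 * r) with hm
  have hm0 : ∀ j, 0 < m j := by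
    intro j
    have h1 : 0 ≤ κ j * N j := mul_nonneg (hκ j) (Nat.cast_nonneg _)
    have h2 : 0 < (1 - K) / (2 * r) := div_pos (by linarith) (by positivity)
    simp only [hm]
    linarith
  have hmsum : ∑ j, m j = K' := by
    simp only [hm]
    rw [Finset.sum_add_distrib, ← hKdef, Finset.sum_const, Finset.card_univ, Fintype.card_fin,
      nsmul_eq_mul, hK']
    field_simp
    ring
  set a : Fin r → ℝ := fun j => κ j * K' / m j with ha
  have ha0 : ∀ j, 0 ≤ a j := fun j => div_nonneg (mul_nonneg (hκ j) hK'0.le) (hm0 j).le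
  have haN : ∀ j, a j * N j ≤ K' := by
    intro j
    simp only [ha]
    rw [div_mul_eq_mul_div, div_le_iff₀ (hm0 j)]
    have h1 : κ j * N j ≤ m j := by
      simp only [hm]
      have h2 : 0 < (1 - K) / (2 * r) := div_pos (by linarith) (by positivity)
      linarith
    nlinarith
  have haN1 : ∀ j, a j * N j < 1 := fun j => (haN j).trans_lt hK'1
  refine ⟨∑ j, m j / K' * (c / (1 - a j * N j)), Finset.sum_nonneg fun j _ => ?_,
    fun {α} _ μ _ Y hY hE => ?_⟩
  · have h1 := haN1 j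
    have h2 := (hm0 j).le
    have h3 : 0 ≤ 1 - a j * N j := by linarith
    positivity
  have hpt : ∀ ω, Real.exp (∑ j, κ j * ‖Y ω j‖) ≤ ∑ j, m j / K' * Real.exp (a j * ‖Y ω j‖) := by
    intro ω
    have h1 := convexOn_exp.map_sum_le (t := Finset.univ) (w := fun j => m j / K')
      (p := fun j => a j * ‖Y ω j‖) (fun j _ => div_nonneg (hm0 j).le hK'0.le)
      (by rw [← Finset.sum_div, hmsum, div_self hK'0.ne']) (fun j _ => Set.mem_univ _)
    simp only [smul_eq_mul] at h1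
    refine le_trans (le_of_eq ?_) h1
    congr 1
    refine Finset.sum_congr rfl fun j _ => ?_
    simp only [ha]
    have := (hm0 j).ne'
    field_simp
  calc ∫⁻ ω, ENNReal.ofReal (Real.exp (∑ j, κ j * ‖Y ω j‖)) ∂μ ≤
      ∫⁻ ω, ∑ j, ENNReal.ofReal (m j / K') * ENNReal.ofReal (Real.exp (a j * ‖Y ω j‖)) ∂μ := by
        refine lintegral_mono fun ω => ?_
        refine (ENNReal.ofReal_le_ofReal (hpt ω)).trans (le_of_eq ?_)
        rw [ENNReal.ofReal_sum_of_nonneg]
        · refine Finset.sum_congr rfl fun j _ => ?_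
          rw [ENNReal.ofReal_mul (div_nonneg (hm0 j).le hK'0.le)]
        · intro j _
          have := (hm0 j).le
          positivity
    _ = ∑ j, ENNReal.ofReal (m j / K') * ∫⁻ ω, ENNReal.ofReal (Real.exp (a j * ‖Y ω j‖)) ∂μ := by
        have hmj : ∀ j, AEMeasurable (fun ω => ENNReal.ofReal (Real.exp (a j * ‖Y ω j‖))) μ := by
          intro j
          exact ((((hY j).norm).const_mul (a j)).exp).ennreal_ofReal
        rw [lintegral_finsetSum' _ fun j _ => (hmj j).const_mul _]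
        refine Finset.sum_congr rfl fun j _ => ?_
        rw [lintegral_const_mul'' _ (hmj j)]
    _ ≤ ∑ j, ENNReal.ofReal (m j / K') * ENNReal.ofReal (c / (1 - a j * N j)) := by
        refine Finset.sum_le_sum fun j _ => ?_
        exact mul_le_mul_right (hE j (a j) (ha0 j) (haN1 j)) _
    _ = ENNReal.ofReal (∑ j, m j / K' * (c / (1 - a j * N j))) := by
        rw [ENNReal.ofReal_sum_of_nonneg]
        · refine Finset.sum_congr rfl fun j _ => ?_
          rw [ENNReal.ofReal_mul (div_nonneg (hm0 j).le hK'0.le)]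
        · intro j _
          have h1 := haN1 j
          have h2 := (hm0 j).le
          have h3 : 0 ≤ 1 - a j * N j := by linarith
          positivity

/-- A cut-off function. -/
noncomputable def cut {E : Type*} [NormedAddCommGroup E] (A : ℝ) (y : E) : ℝ :=
  max 0 (min 1 (A + 1 - ‖y‖))

section cut

variable {E : Type*} [NormedAddCommGroup E]

lemma continuous_cut (A : ℝ) : Continuous (cut A : E → ℝ) := by
  unfold cut
  fun_prop

lemma cut_nonneg (A : ℝ) (y : E) : 0 ≤ cut A y := le_max_left _ _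

lemma cut_le_one (A : ℝ) (y : E) : cut A y ≤ 1 := max_le zero_le_one (min_le_left _ _)

lemma cut_eq_one {A : ℝ} {y : E} (h : ‖y‖ ≤ A) : cut A y = 1 := by
  unfold cut
  rw [min_eq_left (by linarith), max_eq_right zero_le_one]

lemma cut_eq_zero {A : ℝ} {y : E} (h : A + 1 ≤ ‖y‖) : cut A y = 0 := by
  unfold cut
  rw [max_eq_left]
  exact (min_le_right _ _).trans (by linarith)

end cut

/-- **Transfer.** -/
theorem transfer {r : ℕ} (κ : Fin r → ℝ) (η : ℝ) (hη : 0 < η)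
    (h : (Fin r → ℂ) → ℂ) (hh : Continuous h) (C : ℝ)
    (hC : ∀ y, ‖h y‖ ≤ C * Real.exp (∑ j, κ j * ‖y j‖)) {B : ℝ} (hB : 0 ≤ B) {δ : ℝ} (hδ : 0 < δ) :
    ∃ g : (Fin r → ℂ) → ℂ, Continuous g ∧ ∃ ρ : ℝ, 0 < ρ ∧
      ∀ {α : Type} [MeasurableSpace α] (μ : Measure α) [IsProbabilityMeasure μ]
        (Y Y' : α → Fin r → ℂ), AEMeasurable Y μ → AEMeasurable Y' μ →
        ∫⁻ ω, ENNReal.ofReal (Real.exp (∑ j, (κ j + η) * ‖Y ω j‖)) ∂μ ≤ ENNReal.ofReal B →
        ∫⁻ ω, ENNReal.ofReal (‖Y ω - Y' ω‖ ^ 2) ∂μ ≤ ENNReal.ofReal ρ →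
        Integrable (fun ω => h (Y ω)) μ ∧ Integrable (fun ω => g (Y' ω)) μ ∧
          ∫ ω, ‖h (Y ω) - g (Y' ω)‖ ∂μ ≤ δ := by
  have hC0 : 0 ≤ C := by
    have h1 := (norm_nonneg _).trans (hC 0)
    have h2 := Real.exp_pos (∑ j, κ j * ‖(0 : Fin r → ℂ) j‖)
    exact nonneg_of_mul_nonneg_left h1 h2
  -- the cut-off
  obtain ⟨A, hA0, hA⟩ : ∃ A : ℝ, 0 ≤ A ∧ C * Real.exp (-(η * A)) * B ≤ δ / 3 := by
    have h1 : Tendsto (fun A : ℝ => C * Real.exp (-(η * A)) * B) atTop (𝓝 (C * 0 * B)) := by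
      refine (Tendsto.const_mul C ?_).mul_const B
      exact Real.tendsto_exp_neg_atTop_nhds_zero.comp (tendsto_id.const_mul_atTop hη)
    rw [mul_zero, zero_mul] at h1
    have h2 := (h1.eventually (Iio_mem_nhds (show (0 : ℝ) < δ / 3 by positivity))).and
      (eventually_ge_atTop 0)
    obtain ⟨A, h3, h4⟩ := h2.exists
    exact ⟨A, h4, le_of_lt h3⟩
  set g : (Fin r → ℂ) → ℂ := fun y => (cut A y : ℂ) * h y with hg
  have hgc : Continuous g := by
    have := continuous_cut (E := Fin r → ℂ) A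
    simp only [hg]
    fun_prop
  have hsupp : HasCompactSupport g := by
    refine HasCompactSupport.of_support_subset_isCompact
      (ProperSpace.isCompact_closedBall (0 : Fin r → ℂ) (A + 1)) ?_
    intro y hy
    rw [mem_closedBall_zero_iff]
    by_contra h1
    refine hy ?_
    simp only [hg]
    rw [cut_eq_zero (le_of_lt (not_le.1 h1))]
    simp
  obtain ⟨Bg, hBg⟩ := hsupp.exists_bound_of_continuous hgc
  have hBg0 : 0 ≤ Bg := (norm_nonneg _).trans (hBg 0)
  have huc : UniformContinuous g := HasCompactSupport.uniformContinuous_of_continuous hsupp hgc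
  obtain ⟨ρ₀, hρ₀, hρ₀'⟩ := Metric.uniformContinuous_iff.1 huc (δ / 3) (by positivity)
  refine ⟨g, hgc, δ / 3 * ρ₀ ^ 2 / (2 * Bg + 1), by positivity,
    fun {α} _ μ _ Y Y' hY hY' hW hD => ?_⟩
  set W : (Fin r → ℂ) → ℝ := fun y => Real.exp (∑ j, (κ j + η) * ‖y j‖) with hWdef
  have hWc : Continuous W := by
    simp only [hWdef]
    fun_prop
  have hWi : Integrable (fun ω => W (Y ω)) μ := by
    refine ⟨(hWc.measurable.comp_aemeasurable hY).aestronglyMeasurable, ?_⟩
    rw [hasFiniteIntegral_iff_ofReal (Eventually.of_forall fun ω => (Real.exp_pos _).le)]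
    exact hW.trans_lt ENNReal.ofReal_lt_top
  have hWint : ∫ ω, W (Y ω) ∂μ ≤ B := by
    rw [← ofReal_integral_eq_lintegral_ofReal hWi
      (Eventually.of_forall fun ω => (Real.exp_pos _).le)] at hW
    exact (ENNReal.ofReal_le_ofReal_iff hB).1 hW
  have hDc : AEMeasurable (fun ω => ‖Y ω - Y' ω‖ ^ 2) μ := ((hY.sub hY').norm).pow_const 2
  have hρ0 : 0 ≤ δ / 3 * ρ₀ ^ 2 / (2 * Bg + 1) := by positivity
  have hDi : Integrable (fun ω => ‖Y ω - Y' ω‖ ^ 2) μ := by
    refine ⟨hDc.aestronglyMeasurable, ?_⟩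
    rw [hasFiniteIntegral_iff_ofReal (Eventually.of_forall fun ω => sq_nonneg _)]
    exact hD.trans_lt ENNReal.ofReal_lt_top
  have hDint : ∫ ω, ‖Y ω - Y' ω‖ ^ 2 ∂μ ≤ δ / 3 * ρ₀ ^ 2 / (2 * Bg + 1) := by
    rw [← ofReal_integral_eq_lintegral_ofReal hDi
      (Eventually.of_forall fun ω => sq_nonneg _)] at hD
    exact (ENNReal.ofReal_le_ofReal_iff hρ0).1 hD
  have hWle : ∀ y : Fin r → ℂ, Real.exp (∑ j, κ j * ‖y j‖) ≤ W y := by
    intro y
    refine Real.exp_le_exp.2 (Finset.sum_le_sum fun j _ => ?_)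
    exact mul_le_mul_of_nonneg_right (by linarith) (norm_nonneg _)
  have hhi : Integrable (fun ω => h (Y ω)) μ := by
    refine (hWi.const_mul C).mono' (hh.measurable.comp_aemeasurable hY).aestronglyMeasurable
      (Eventually.of_forall fun ω => ?_)
    exact (hC _).trans (mul_le_mul_of_nonneg_left (hWle _) hC0)
  have hgi : ∀ Z : α → Fin r → ℂ, AEMeasurable Z μ → Integrable (fun ω => g (Z ω)) μ := by
    intro Z hZ
    exact Integrable.of_bound (hgc.measurable.comp_aemeasurable hZ).aestronglyMeasurable Bg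
      (Eventually.of_forall fun ω => hBg _)
  refine ⟨hhi, hgi Y' hY', ?_⟩
  -- the two estimates
  have hp1 : ∀ y : Fin r → ℂ, ‖h y - g y‖ ≤ C * Real.exp (-(η * A)) * W y := by
    intro y
    have hW0 : 0 < W y := Real.exp_pos _
    by_cases hy : ‖y‖ ≤ A
    · have h1 : h y - g y = 0 := by
        simp only [hg]
        rw [cut_eq_one hy]
        simp
      rw [h1, norm_zero]
      positivity
    · have hy1 := not_le.1 hy
      have h1 : h y - g y = ((1 - cut A y : ℝ) : ℂ) * h y := by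
        simp only [hg]
        push_cast
        ring
      have h2 : |1 - cut A y| ≤ 1 := by
        rw [abs_le]
        have h3 := cut_nonneg A y
        have h4 := cut_le_one A y
        constructor <;> linarith
      rw [h1, norm_mul, Complex.norm_real, Real.norm_eq_abs]
      have h5 : Real.exp (∑ j, κ j * ‖y j‖) ≤ Real.exp (-(η * A)) * W y := by
        simp only [hWdef]
        rw [← Real.exp_add]
        refine Real.exp_le_exp.2 ?_
        have h6 : ‖y‖ ≤ ∑ j, ‖y j‖ := by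
          refine (pi_norm_le_iff_of_nonneg (Finset.sum_nonneg fun j _ => norm_nonneg _)).2
            fun j => ?_
          exact Finset.single_le_sum (f := fun j => ‖y j‖) (fun j _ => norm_nonneg _)
            (Finset.mem_univ j)
        have h7 : ∑ j, (κ j + η) * ‖y j‖ = (∑ j, κ j * ‖y j‖) + η * ∑ j, ‖y j‖ := by
          rw [Finset.mul_sum, ← Finset.sum_add_distrib]
          exact Finset.sum_congr rfl fun j _ => by ring
        rw [h7]
        have h8 : η * A ≤ η * ∑ j, ‖y j‖ := mul_le_mul_of_nonneg_left (by linarith) hη.le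
        linarith
      calc |1 - cut A y| * ‖h y‖ ≤ 1 * (C * Real.exp (∑ j, κ j * ‖y j‖)) :=
            mul_le_mul h2 (hC y) (norm_nonneg _) zero_le_one
        _ = C * Real.exp (∑ j, κ j * ‖y j‖) := one_mul _
        _ ≤ C * (Real.exp (-(η * A)) * W y) := mul_le_mul_of_nonneg_left h5 hC0
        _ = _ := by ring
  have hp2 : ∀ y y' : Fin r → ℂ, ‖g y - g y'‖ ≤ δ / 3 + 2 * Bg / ρ₀ ^ 2 * ‖y - y'‖ ^ 2 := by
    intro y y'
    by_cases hd : dist y y' < ρ₀
    · have h1 := hρ₀' hd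
      rw [dist_eq_norm] at h1
      have h2 : 0 ≤ 2 * Bg / ρ₀ ^ 2 * ‖y - y'‖ ^ 2 := by positivity
      linarith
    · rw [not_lt, dist_eq_norm] at hd
      have h1 : ‖g y - g y'‖ ≤ 2 * Bg := by
        refine (norm_sub_le _ _).trans ?_
        have := hBg y
        have := hBg y'
        linarith
      have h2 : ρ₀ ^ 2 ≤ ‖y - y'‖ ^ 2 := pow_le_pow_left₀ hρ₀.le hd 2
      have h3 : 2 * Bg ≤ 2 * Bg / ρ₀ ^ 2 * ‖y - y'‖ ^ 2 := by
        rw [div_mul_eq_mul_div, le_div_iff₀ (by positivity)]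
        exact mul_le_mul_of_nonneg_left h2 (by positivity)
      linarith
  have hpt : ∀ ω, ‖h (Y ω) - g (Y' ω)‖ ≤ C * Real.exp (-(η * A)) * W (Y ω) +
      (δ / 3 + 2 * Bg / ρ₀ ^ 2 * ‖Y ω - Y' ω‖ ^ 2) := by
    intro ω
    have h1 : h (Y ω) - g (Y' ω) = (h (Y ω) - g (Y ω)) + (g (Y ω) - g (Y' ω)) := by ring
    rw [h1]
    exact (norm_add_le _ _).trans (add_le_add (hp1 _) (hp2 _ _))
  have hI1 : Integrable (fun ω => C * Real.exp (-(η * A)) * W (Y ω)) μ := hWi.const_mul _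
  have hI2 : Integrable (fun ω => 2 * Bg / ρ₀ ^ 2 * ‖Y ω - Y' ω‖ ^ 2) μ := hDi.const_mul _
  have hI3 : Integrable (fun ω => δ / 3 + 2 * Bg / ρ₀ ^ 2 * ‖Y ω - Y' ω‖ ^ 2) μ :=
    (integrable_const _).add hI2
  calc ∫ ω, ‖h (Y ω) - g (Y' ω)‖ ∂μ ≤ ∫ ω, (C * Real.exp (-(η * A)) * W (Y ω) +
      (δ / 3 + 2 * Bg / ρ₀ ^ 2 * ‖Y ω - Y' ω‖ ^ 2)) ∂μ :=
        integral_mono ((hhi.sub (hgi Y' hY')).norm) (hI1.add hI3) hpt
    _ = C * Real.exp (-(η * A)) * ∫ ω, W (Y ω) ∂μ +
        (δ / 3 + 2 * Bg / ρ₀ ^ 2 * ∫ ω, ‖Y ω - Y' ω‖ ^ 2 ∂μ) := by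
        rw [integral_add hI1 hI3, integral_add (integrable_const _) hI2, integral_const_mul,
          integral_const_mul]
        simp
    _ ≤ δ / 3 + (δ / 3 + δ / 3) := by
        have h1 := (mul_le_mul_of_nonneg_left hWint
          (show 0 ≤ C * Real.exp (-(η * A)) by positivity)).trans hA
        have h2 : 2 * Bg / ρ₀ ^ 2 * ∫ ω, ‖Y ω - Y' ω‖ ^ 2 ∂μ ≤
            2 * Bg / ρ₀ ^ 2 * (δ / 3 * ρ₀ ^ 2 / (2 * Bg + 1)) :=
          mul_le_mul_of_nonneg_left hDint (by positivity)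
        have h3 : 2 * Bg / ρ₀ ^ 2 * (δ / 3 * ρ₀ ^ 2 / (2 * Bg + 1)) =
            δ / 3 * (2 * Bg / (2 * Bg + 1)) := by
          field_simp
        have h4 : 2 * Bg / (2 * Bg + 1) ≤ 1 := by
          rw [div_le_one (by positivity)]
          linarith
        have h5 : δ / 3 * (2 * Bg / (2 * Bg + 1)) ≤ δ / 3 * 1 :=
          mul_le_mul_of_nonneg_left h4 (by positivity)
        linarith
    _ = δ := by ring

end Pool.Agent.K6.H65.BJ
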