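import Pool.Agent.K6.H65.BJ.Prob
import Pool.Agent.K6.H65.BJ.Trans

/-!
# The limit law
-/

set_option autoImplicit false

namespace Pool.Agent.K6.H65.BJ

open MeasureTheory Filter Topology Pool.Agent.W350.Edge
open scoped ENNReal

variable {N : ℕ}

/-- The properties of the random logarithm. -/
structure Data (b : Nat.Primes → Fin N → ℂ) (c : ℝ) (L : Om → ℂ) : Prop where
  meas : Measurable L
  exp_time : ∀ x : ℝ, ExpBd (volume.restrict (Set.Icc x (x + 1))) (edgeLog b) N c
  exp_space : ExpBd PP L N c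
  exp_part : ∀ n : ℕ, ExpBd PP (fun ω => partialLog b n (unim ω)) N c
  tail_time : ∀ (x : ℝ) (y : ℕ), 1 ≤ lg y → ∫⁻ t in Set.Icc x (x + 1),
    ENNReal.ofReal (‖edgeLog b t - partialLog b y (phase t)‖ ^ 2) ≤ ENNReal.ofReal (CT * N ^ 2 / lg y)
  tail_space : ∀ y : ℕ, 1 ≤ lg y → ∫⁻ ω,
    ENNReal.ofReal (‖L ω - partialLog b y (unim ω)‖ ^ 2) ∂PP ≤ ENNReal.ofReal (CT * N ^ 2 / lg y)

theorem exists_data : ∃ c : ℝ, 0 ≤ c ∧ ∀ (N : ℕ) (b : Nat.Primes → Fin N → ℂ),
    (∀ p k, ‖b p k‖ ≤ 1) → ∃ L : Om → ℂ, Data b c L := by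
  obtain ⟨c, hc0, hc⟩ := moment_random
  refine ⟨c, hc0, fun N b hb => ?_⟩
  obtain ⟨L, hL, z, hz, hae⟩ := exists_random b hb
  have hm : ∀ n, Measurable fun ω : Om => partialLog b n (unim ω) := fun n =>
    (continuous_random b hb n).measurable
  refine ⟨L, ⟨hL, fun x κ hκ hκN => ((hc N b hb κ hκ hκN).1 x).2, fun κ hκ hκN => ?_,
    fun n κ hκ hκN => (hc N b hb κ hκ hκN).2 n, fun x y hy => tail_edge b hb x hy,
    fun y hy => ?_⟩⟩
  · exact fatou (μ := PP) (f := fun i ω => partialLog b (z i) (unim ω)) (g := L)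
      (fun i => (hm _).aemeasurable) hae
      (fun y => ENNReal.ofReal (Real.exp (κ * ‖y‖)))
      (ENNReal.continuous_ofReal.comp (by fun_prop)) _
      (fun i => (hc N b hb κ hκ hκN).2 (z i))
  · obtain ⟨i₀, hi₀⟩ := (hz.eventually_ge_atTop y).exists_forall_of_atTop
    exact fatou (μ := PP) (f := fun i ω => partialLog b (z (i + i₀)) (unim ω) -
        partialLog b y (unim ω)) (g := fun ω => L ω - partialLog b y (unim ω))
      (fun i => ((hm _).sub (hm _)).aemeasurable)
      (by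
        filter_upwards [hae] with ω hω
        exact (hω.comp (tendsto_add_atTop_nat i₀)).sub_const _)
      (fun y => ENNReal.ofReal (‖y‖ ^ 2))
      (ENNReal.continuous_ofReal.comp (by fun_prop)) _
      (fun i => tail_random b hb hy (hi₀ _ (Nat.le_add_left _ _)))

/-- The uniform probability measure on `[x, x + H]`. -/
noncomputable def av (x H : ℝ) : Measure ℝ :=
  (ENNReal.ofReal H)⁻¹ • volume.restrict (Set.Icc x (x + H))

lemma isProb_av (x : ℝ) {H : ℝ} (hH : 0 < H) : IsProbabilityMeasure (av x H) := by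
  constructor
  unfold av
  rw [Measure.smul_apply, Measure.restrict_apply_univ, Real.volume_Icc, add_sub_cancel_left,
    smul_eq_mul]
  exact ENNReal.inv_mul_cancel (by simpa using hH) ENNReal.ofReal_ne_top

lemma lintegral_av {g : ℝ → ℝ≥0∞} {B : ℝ}
    (hB : ∀ x : ℝ, ∫⁻ t in Set.Icc x (x + 1), g t ≤ ENNReal.ofReal B) (x : ℝ) {H : ℝ} (hH : 1 ≤ H) :
    ∫⁻ t, g t ∂(av x H) ≤ ENNReal.ofReal (2 * B) := by
  unfold av
  rw [lintegral_smul_measure, smul_eq_mul]
  have h1 := lintegral_windows' hB x hH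
  have hH0 : (0 : ℝ) < H := by linarith
  calc (ENNReal.ofReal H)⁻¹ * ∫⁻ t in Set.Icc x (x + H), g t ≤
      (ENNReal.ofReal H)⁻¹ * (ENNReal.ofReal (2 * H) * ENNReal.ofReal B) :=
        mul_le_mul_right h1 _
    _ = ENNReal.ofReal (2 * B) := by
        rw [← ENNReal.ofReal_inv_of_pos hH0, ← ENNReal.ofReal_mul (by positivity),
          ← ENNReal.ofReal_mul (by positivity)]
        congr 1
        field_simp

lemma integral_av (f : ℝ → ℂ) (x : ℝ) {H : ℝ} (hH : 0 < H) :
    ∫ t, f t ∂(av x H) = (H : ℂ)⁻¹ * ∫ t in x..(x + H), f t := by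
  unfold av
  rw [integral_smul_measure, integral_Icc_eq_integral_Ioc,
    ← intervalIntegral.integral_of_le (by linarith), ENNReal.toReal_inv,
    ENNReal.toReal_ofReal hH.le, Complex.real_smul]
  push_cast
  rfl

lemma ae_av {P : ℝ → Prop} (h : ∀ᵐ t, P t) (x H : ℝ) : ∀ᵐ t ∂(av x H), P t := by
  unfold av
  exact Measure.ae_smul_measure (ae_restrict_of_ae h) _

lemma aemeasurable_av {f : ℝ → ℂ} (h : AEMeasurable f volume) (x H : ℝ) :
    AEMeasurable f (av x H) := by
  unfold av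
  exact (h.mono_measure Measure.restrict_le_self).smul_measure _

lemma sq_norm_le {r : ℕ} (y : Fin r → ℂ) : ‖y‖ ^ 2 ≤ ∑ j, ‖y j‖ ^ 2 := by
  have h1 : ‖y‖ ≤ Real.sqrt (∑ j, ‖y j‖ ^ 2) := by
    refine (pi_norm_le_iff_of_nonneg (Real.sqrt_nonneg _)).2 fun j => ?_
    refine Real.le_sqrt_of_sq_le ?_
    exact Finset.single_le_sum (f := fun j => ‖y j‖ ^ 2) (fun j _ => sq_nonneg _)
      (Finset.mem_univ j)
  calc ‖y‖ ^ 2 ≤ Real.sqrt (∑ j, ‖y j‖ ^ 2) ^ 2 := pow_le_pow_left₀ (norm_nonneg _) h1 2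
    _ = _ := Real.sq_sqrt (Finset.sum_nonneg fun j _ => sq_nonneg _)

lemma lintegral_sq {α : Type} [MeasurableSpace α] {μ : Measure α} {r : ℕ} {D : α → Fin r → ℂ}
    (hD : ∀ j, AEMeasurable (fun ω => D ω j) μ) {δ : Fin r → ℝ} (hδ : ∀ j, 0 ≤ δ j)
    (h : ∀ j, ∫⁻ ω, ENNReal.ofReal (‖D ω j‖ ^ 2) ∂μ ≤ ENNReal.ofReal (δ j)) :
    ∫⁻ ω, ENNReal.ofReal (‖D ω‖ ^ 2) ∂μ ≤ ENNReal.ofReal (∑ j, δ j) := by
  calc ∫⁻ ω, ENNReal.ofReal (‖D ω‖ ^ 2) ∂μ ≤ ∫⁻ ω, ∑ j, ENNReal.ofReal (‖D ω j‖ ^ 2) ∂μ := by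
        refine lintegral_mono fun ω => ?_
        refine (ENNReal.ofReal_le_ofReal (sq_norm_le (D ω))).trans (le_of_eq ?_)
        exact ENNReal.ofReal_sum_of_nonneg fun j _ => sq_nonneg _
    _ = ∑ j, ∫⁻ ω, ENNReal.ofReal (‖D ω j‖ ^ 2) ∂μ :=
        lintegral_finsetSum' _ fun j _ => (((hD j).norm).pow_const 2).ennreal_ofReal
    _ ≤ ∑ j, ENNReal.ofReal (δ j) := Finset.sum_le_sum fun j _ => h j
    _ = _ := (ENNReal.ofReal_sum_of_nonneg fun j _ => hδ j).symm

/-- **Approximation** of test functions of the boundary values by continuous functions of the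
phases, in the mean over all windows, and for the random model. -/
theorem approx {r : ℕ} (N : Fin r → ℕ) (b : ∀ j, Nat.Primes → Fin (N j) → ℂ)
    (hb : ∀ j p k, ‖b j p k‖ ≤ 1) {c : ℝ} (hc : 0 ≤ c) (L : Fin r → Om → ℂ)
    (hL : ∀ j, Data (b j) c (L j)) (κ : Fin r → ℝ) (hκ : ∀ j, 0 ≤ κ j)
    (hκN : ∑ j, κ j * N j < 1) (h : (Fin r → ℂ) → ℂ) (hh : Continuous h) (C : ℝ)
    (hC : ∀ y, ‖h y‖ ≤ C * Real.exp (∑ j, κ j * ‖y j‖)) {ε : ℝ} (hε : 0 < ε) :
    ∃ G : C(Om, ℂ),
      (∀ x H : ℝ, 1 ≤ H → Integrable (fun t => h fun j => edgeLog (b j) t) (av x H) ∧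
        ∫ t, ‖h (fun j => edgeLog (b j) t) - G (flow t)‖ ∂(av x H) ≤ ε) ∧
      (Integrable (fun ω => h fun j => L j ω) PP ∧
        ∫ ω, ‖h (fun j => L j ω) - G ω‖ ∂PP ≤ ε) ∧
      ∃ n : ℕ, ∀ m : ℕ, n ≤ m → Integrable (fun ω => h fun j => partialLog (b j) m (unim ω)) PP ∧
        ∫ ω, ‖h (fun j => partialLog (b j) m (unim ω)) - G ω‖ ∂PP ≤ ε := by
  classical
  -- a slightly larger exponent
  set K : ℝ := ∑ j, κ j * N j with hK
  set T : ℝ := ∑ j, (N j : ℝ) with hT
  have hT0 : 0 ≤ T := Finset.sum_nonneg fun j _ => Nat.cast_nonneg _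
  set η : ℝ := (1 - K) / (2 * (T + 1)) with hη
  have hη0 : 0 < η := div_pos (by linarith) (by positivity)
  have hsum : ∑ j, (κ j + η) * N j < 1 := by
    have h1 : ∑ j, (κ j + η) * N j = K + η * T := by
      rw [hK, hT, Finset.mul_sum, ← Finset.sum_add_distrib]
      exact Finset.sum_congr rfl fun j _ => by ring
    rw [h1]
    have h2 : η * T ≤ (1 - K) / 2 := by
      rw [hη, div_mul_eq_mul_div, div_le_div_iff₀ (by positivity) two_pos]
      nlinarith
    linarith
  obtain ⟨B, hB0, hB⟩ := joint N (fun j => κ j + η) (fun j => by have := hκ j; positivity) hsum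
    (c := 2 * c) (by positivity)
  have hLm : ∀ j, Measurable (L j) := fun j => (hL j).meas
  have hEm : ∀ j, AEMeasurable (edgeLog (b j)) volume := fun j => aemeasurable_edgeLog _ (hb j)
  have hdouble : ∀ {Y : Om → ℂ} {j : Fin r}, ExpBd PP Y (N j) c → ExpBd PP Y (N j) (2 * c) := by
    intro Y j hY a ha haN
    refine (hY a ha haN).trans (ENNReal.ofReal_le_ofReal ?_)
    exact div_le_div_of_nonneg_right (by linarith) (by linarith)
  have hspaceW : ∫⁻ ω, ENNReal.ofReal (Real.exp (∑ j, (κ j + η) * ‖L j ω‖)) ∂PP ≤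
      ENNReal.ofReal B :=
    hB PP (fun ω j => L j ω) (fun j => (hLm j).aemeasurable) fun j => hdouble (hL j).exp_space
  have hpartW : ∀ m : ℕ, ∫⁻ ω, ENNReal.ofReal (Real.exp (∑ j, (κ j + η) *
      ‖partialLog (b j) m (unim ω)‖)) ∂PP ≤ ENNReal.ofReal B := fun m =>
    hB PP (fun ω j => partialLog (b j) m (unim ω))
      (fun j => (continuous_random (b j) (hb j) m).measurable.aemeasurable)
      fun j => hdouble ((hL j).exp_part m)
  have htimeW : ∀ (x H : ℝ), 1 ≤ H →
      ∫⁻ t, ENNReal.ofReal (Real.exp (∑ j, (κ j + η) * ‖edgeLog (b j) t‖)) ∂(av x H) ≤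
      ENNReal.ofReal B := by
    intro x H hH
    have := isProb_av x (show 0 < H by linarith)
    refine hB (av x H) (fun t j => edgeLog (b j) t) (fun j => aemeasurable_av (hEm j) x H)
      fun j a ha haN => ?_
    have h1 : 0 < 1 - a * N j := by linarith
    refine (lintegral_av (B := c / (1 - a * N j))
      (fun x => (hL j).exp_time x a ha haN) x hH).trans (le_of_eq ?_)
    congr 1
    ring
  have hYm : ∀ (x H : ℝ), AEMeasurable (fun t => fun j => edgeLog (b j) t) (av x H) := fun x H =>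
    aemeasurable_pi_lambda _ fun j => aemeasurable_av (hEm j) x H
  have hLm' : AEMeasurable (fun ω => fun j => L j ω) PP :=
    (measurable_pi_lambda _ hLm).aemeasurable
  have hPm : ∀ n, Measurable fun t : ℝ => fun j => partialLog (b j) n (phase t) := fun n =>
    measurable_pi_lambda _ fun j => (continuous_pl (b j) (hb j) n).measurable
  have hRm : ∀ n, Measurable fun ω : Om => fun j => partialLog (b j) n (unim ω) := fun n =>
    measurable_pi_lambda _ fun j => (continuous_random (b j) (hb j) n).measurable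
  obtain ⟨g, hg, ρ, hρ, htr⟩ := transfer κ η hη0 h hh C hC hB0 hε
  -- the truncation
  set S : ℝ := ∑ j, 2 * (CT * (N j : ℝ) ^ 2) with hS
  have hCT := CT_pos
  have hS0 : 0 ≤ S := Finset.sum_nonneg fun j _ => by positivity
  obtain ⟨n, hn⟩ : ∃ n : ℕ, S / ρ + 1 ≤ lg n := by
    obtain ⟨m, hm⟩ := exists_nat_ge (S / ρ + 1)
    obtain ⟨y, hy⟩ := exists_lg_ge m
    exact ⟨y, hm.trans (by exact_mod_cast hy)⟩
  have hn1 : (1 : ℝ) ≤ lg n := by
    have : 0 ≤ S / ρ := by positivity
    linarith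
  have hn0 : (0 : ℝ) < lg n := by linarith
  have hn1' : 1 ≤ lg n := by exact_mod_cast hn1
  have hSρ : S / lg n ≤ ρ := by
    rw [div_le_iff₀ hn0]
    have h1 : S / ρ ≤ lg n := by linarith
    rw [div_le_iff₀ hρ] at h1
    linarith
  have hsumδ : ∑ j, 2 * (CT * (N j : ℝ) ^ 2 / lg n) ≤ ρ := by
    refine le_trans (le_of_eq ?_) hSρ
    rw [hS, Finset.sum_div]
    exact Finset.sum_congr rfl fun j _ => by ring
  have hsingle : ∀ j, ENNReal.ofReal (CT * (N j : ℝ) ^ 2 / lg n) ≤
      ENNReal.ofReal (2 * (CT * (N j : ℝ) ^ 2 / lg n)) := fun j =>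
    ENNReal.ofReal_le_ofReal (by
      have : 0 ≤ CT * (N j : ℝ) ^ 2 / lg n := by positivity
      linarith)
  refine ⟨⟨fun ω => g fun j => partialLog (b j) n (unim ω),
    hg.comp (continuous_pi fun j => continuous_random (b j) (hb j) n)⟩, fun x H hH => ?_, ?_,
    n, fun m hm => ?_⟩
  · have hH0 : 0 < H := by linarith
    have hprob := isProb_av x hH0
    have e1 := htr (av x H) (fun t j => edgeLog (b j) t)
      (fun t j => partialLog (b j) n (phase t)) (hYm x H) (hPm n).aemeasurable (htimeW x H hH)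
      ((lintegral_sq (D := fun t => (fun j => edgeLog (b j) t) - fun j => partialLog (b j) n (phase t))
        (δ := fun j => 2 * (CT * (N j : ℝ) ^ 2 / lg n))
        (fun j => (aemeasurable_av (hEm j) x H).sub
          ((continuous_pl (b j) (hb j) n).measurable.aemeasurable))
        (fun j => by positivity)
        (fun j => lintegral_av (fun x => (hL j).tail_time x n hn1') x hH)).trans
        (ENNReal.ofReal_le_ofReal hsumδ))
    refine ⟨e1.1, ?_⟩
    have h3 : ∀ t : ℝ, (⟨fun ω => g fun j => partialLog (b j) n (unim ω),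
        hg.comp (continuous_pi fun j => continuous_random (b j) (hb j) n)⟩ : C(Om, ℂ)) (flow t) =
        g fun j => partialLog (b j) n (phase t) := by
      intro t
      show g (fun j => partialLog (b j) n (unim (flow t))) = _
      congr 1
      funext j
      exact random_flow (b j) n t
    simp_rw [h3]
    exact e1.2.2
  · have e3 := htr PP (fun ω j => L j ω)
      (fun ω j => partialLog (b j) n (unim ω)) hLm' (hRm n).aemeasurable hspaceW
      ((lintegral_sq (D := fun ω => (fun j => L j ω) - fun j => partialLog (b j) n (unim ω))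
        (δ := fun j => 2 * (CT * (N j : ℝ) ^ 2 / lg n))
        (fun j => ((hLm j).aemeasurable).sub
          ((continuous_random (b j) (hb j) n).measurable.aemeasurable))
        (fun j => by positivity)
        (fun j => ((hL j).tail_space n hn1').trans (hsingle j))).trans
        (ENNReal.ofReal_le_ofReal hsumδ))
    exact ⟨e3.1, e3.2.2⟩
  · have e4 := htr PP (fun ω j => partialLog (b j) m (unim ω))
      (fun ω j => partialLog (b j) n (unim ω)) (hRm m).aemeasurable (hRm n).aemeasurable (hpartW m)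
      ((lintegral_sq (D := fun ω => (fun j => partialLog (b j) m (unim ω)) -
          fun j => partialLog (b j) n (unim ω))
        (δ := fun j => 2 * (CT * (N j : ℝ) ^ 2 / lg n))
        (fun j => ((continuous_random (b j) (hb j) m).measurable.aemeasurable).sub
          ((continuous_random (b j) (hb j) n).measurable.aemeasurable))
        (fun j => by positivity)
        (fun j => (tail_random (b j) (hb j) hn1' hm).trans (hsingle j))).trans
        (ENNReal.ofReal_le_ofReal hsumδ))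
    exact ⟨e4.1, e4.2.2⟩

end Pool.Agent.K6.H65.BJ
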