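import Pool.Agent.K6.H65.BJ.Law

/-!
# Almost periodicity, mean values and product formulas
-/

set_option autoImplicit false

namespace Pool.Agent.K6.H65.BJ

open MeasureTheory Filter Topology Pool.Agent.W350.Edge
open scoped ENNReal

/-- A Dirichlet polynomial with positive rational frequencies. -/
noncomputable def dirPoly {m : ℕ} (c : Fin m → ℂ) (q : Fin m → ℚ) (t : ℝ) : ℂ :=
  ∑ i, c i * Complex.exp (-(t * Real.log (q i) : ℝ) * Complex.I)

/-- The positive rational number of a character. -/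
noncomputable def ratOf (n : Nat.Primes →₀ ℤ) : ℚ := ∏ p ∈ n.support, (p : ℚ) ^ (n p)

lemma ratOf_pos (n : Nat.Primes →₀ ℤ) : 0 < ratOf n := by
  unfold ratOf
  refine Finset.prod_pos fun p _ => zpow_pos ?_ _
  exact_mod_cast p.2.pos

lemma log_ratOf (n : Nat.Primes →₀ ℤ) : Real.log (ratOf n) = freq n := by
  unfold ratOf freq
  push_cast
  rw [Real.log_prod]
  · refine Finset.sum_congr rfl fun p _ => ?_
    rw [Real.log_zpow]
  · intro p _
    refine zpow_ne_zero _ ?_
    exact_mod_cast p.2.ne_zero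

/-- Continuous functions of the phases are approximated by Dirichlet polynomials. -/
lemma exists_dirPoly (G : C(Om, ℂ)) {ε : ℝ} (hε : 0 < ε) :
    ∃ (m : ℕ) (c : Fin m → ℂ) (q : Fin m → ℚ), (∀ i, 0 < q i) ∧
      ∀ t : ℝ, ‖G (flow t) - dirPoly c q t‖ ≤ ε := by
  have h1 : G ∈ (Submodule.span ℂ (Set.range chr)).topologicalClosure := by
    rw [span_chr_closure]
    trivial
  have h2 : G ∈ closure (Submodule.span ℂ (Set.range chr) : Set C(Om, ℂ)) := by
    rw [← Submodule.topologicalClosure_coe]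
    exact h1
  obtain ⟨G', hG', hd⟩ := Metric.mem_closure_iff.1 h2 ε hε
  obtain ⟨m, c, g, hg⟩ := Submodule.mem_span_set'.1 hG'
  choose n hn using fun i => (g i).2
  refine ⟨m, c, fun i => ratOf (n i), fun i => ratOf_pos _, fun t => ?_⟩
  have h3 : dirPoly c (fun i => ratOf (n i)) t = G' (flow t) := by
    rw [← hg, ContinuousMap.sum_apply]
    unfold dirPoly
    refine Finset.sum_congr rfl fun i _ => ?_
    rw [ContinuousMap.smul_apply, smul_eq_mul, ← hn i, chr_flow, log_ratOf]
    unfold ex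
    congr 2
    push_cast
    ring
  rw [h3, ← ContinuousMap.sub_apply]
  rw [dist_eq_norm] at hd
  exact ((G - G').norm_coe_le_norm _).trans hd.le

/-- Stepanov almost periodic functions: the closure of the trigonometric polynomials in the norm
`sup_x ∫_x^{x+1} |f|`.  All frequencies are logarithms of positive rational numbers. -/
def IsStepanov (f : ℝ → ℂ) : Prop :=
  (∀ x y : ℝ, IntervalIntegrable f volume x y) ∧
    ∀ ε : ℝ, 0 < ε → ∃ (m : ℕ) (c : Fin m → ℂ) (q : Fin m → ℚ), (∀ i, 0 < q i) ∧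
      ∀ x : ℝ, ∫ t in x..(x + 1), ‖f t - dirPoly c q t‖ ≤ ε

lemma continuous_dirPoly {m : ℕ} (c : Fin m → ℂ) (q : Fin m → ℚ) : Continuous (dirPoly c q) := by
  unfold dirPoly
  fun_prop

lemma integral_av' (f : ℝ → ℝ) (x : ℝ) {H : ℝ} (hH : 0 < H) :
    ∫ t, f t ∂(av x H) = H⁻¹ * ∫ t in x..(x + H), f t := by
  unfold av
  rw [integral_smul_measure, integral_Icc_eq_integral_Ioc,
    ← intervalIntegral.integral_of_le (by linarith), ENNReal.toReal_inv,
    ENNReal.toReal_ofReal hH.le, smul_eq_mul]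

lemma intervalIntegrable_of_av {f : ℝ → ℂ} (hf : ∀ x H : ℝ, 1 ≤ H → Integrable f (av x H))
    (x y : ℝ) : IntervalIntegrable f volume x y := by
  have hint2 : ∀ x H : ℝ, 1 ≤ H → IntegrableOn f (Set.Icc x (x + H)) volume := by
    intro x H hH
    have h1 := hf x H hH
    unfold av at h1
    rwa [integrable_smul_measure (by simp) (by
      rw [ne_eq, ENNReal.inv_eq_top, ENNReal.ofReal_eq_zero, not_le]
      linarith)] at h1
  have h1 := hint2 (min x y) (max 1 (max x y - min x y)) (le_max_left _ _)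
  rw [intervalIntegrable_iff]
  refine h1.mono_set ?_
  intro t ht
  rw [Set.mem_uIoc] at ht
  refine ⟨?_, ?_⟩
  · rcases ht with ht | ht
    · exact (min_le_left _ _).trans ht.1.le
    · exact (min_le_right _ _).trans ht.1.le
  · have h2 := le_max_right 1 (max x y - min x y)
    rcases ht with ht | ht
    · have := ht.2.trans (le_max_right x y)
      linarith
    · have := ht.2.trans (le_max_left x y)
      linarith

lemma integrable_flow_av (G : C(Om, ℂ)) (x : ℝ) {H : ℝ} (hH : 0 < H) :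
    Integrable (fun t => G (flow t)) (av x H) := by
  have := isProb_av x hH
  exact Integrable.of_bound ((map_continuous G).comp continuous_flow).aestronglyMeasurable ‖G‖
    (Eventually.of_forall fun t => G.norm_coe_le_norm _)

/-- **Stepanov almost periodicity and the limit law.** -/
theorem law {r : ℕ} (N : Fin r → ℕ) (b : ∀ j, Nat.Primes → Fin (N j) → ℂ)
    (hb : ∀ j p k, ‖b j p k‖ ≤ 1) {c : ℝ} (hc : 0 ≤ c) (L : Fin r → Om → ℂ)
    (hL : ∀ j, Data (b j) c (L j)) (κ : Fin r → ℝ) (hκ : ∀ j, 0 ≤ κ j)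
    (hκN : ∑ j, κ j * N j < 1) (h : (Fin r → ℂ) → ℂ) (hh : Continuous h) (C : ℝ)
    (hC : ∀ y, ‖h y‖ ≤ C * Real.exp (∑ j, κ j * ‖y j‖)) :
    IsStepanov (fun t => h fun j => edgeLog (b j) t) ∧
    Integrable (fun ω => h fun j => L j ω) PP ∧
    Tendsto (fun n : ℕ => ∫ ω, h (fun j => partialLog (b j) n (unim ω)) ∂PP) atTop
      (𝓝 (∫ ω, h (fun j => L j ω) ∂PP)) ∧
    ∀ ε : ℝ, 0 < ε → ∃ H₀ : ℝ, 0 < H₀ ∧ ∀ H : ℝ, H₀ ≤ H → ∀ x : ℝ,
      ‖(H : ℂ)⁻¹ * (∫ t in x..(x + H), h fun j => edgeLog (b j) t) -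
        ∫ ω, h (fun j => L j ω) ∂PP‖ ≤ ε := by
  have hA := fun {ε : ℝ} (hε : 0 < ε) => approx N b hb hc L hL κ hκ hκN h hh C hC hε
  obtain ⟨G₁, h1a, h1b, -⟩ := hA one_pos
  have hii := intervalIntegrable_of_av (fun x H hH => (h1a x H hH).1)
  refine ⟨⟨hii, fun ε hε => ?_⟩, h1b.1, ?_, fun ε hε => ?_⟩
  · obtain ⟨G, hG, -, -⟩ := hA (show 0 < ε / 2 by positivity)
    obtain ⟨m, cc, q, hq, happ⟩ := exists_dirPoly G (show 0 < ε / 2 by positivity)
    refine ⟨m, cc, q, hq, fun x => ?_⟩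
    have h2 := (hG x 1 le_rfl).2
    rw [integral_av' _ x one_pos, inv_one, one_mul] at h2
    have hGc : Continuous fun t => G (flow t) := (map_continuous G).comp continuous_flow
    have hD := continuous_dirPoly cc q
    have i1 : IntervalIntegrable (fun t => ‖h (fun j => edgeLog (b j) t) - G (flow t)‖)
        volume x (x + 1) := ((hii x (x + 1)).sub (hGc.intervalIntegrable _ _)).norm
    have i2 : IntervalIntegrable (fun _ : ℝ => ε / 2) volume x (x + 1) :=
      continuous_const.intervalIntegrable _ _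
    calc ∫ t in x..(x + 1), ‖h (fun j => edgeLog (b j) t) - dirPoly cc q t‖ ≤
        ∫ t in x..(x + 1), (‖h (fun j => edgeLog (b j) t) - G (flow t)‖ + ε / 2) := by
          refine intervalIntegral.integral_mono_on (by linarith)
            ((hii x (x + 1)).sub (hD.intervalIntegrable _ _)).norm (i1.add i2) fun t _ => ?_
          have h3 := happ t
          have h4 : h (fun j => edgeLog (b j) t) - dirPoly cc q t =
              (h (fun j => edgeLog (b j) t) - G (flow t)) + (G (flow t) - dirPoly cc q t) := by ring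
          rw [h4]
          exact (norm_add_le _ _).trans (by linarith)
      _ = (∫ t in x..(x + 1), ‖h (fun j => edgeLog (b j) t) - G (flow t)‖) + ε / 2 := by
          rw [intervalIntegral.integral_add i1 i2]
          simp
      _ ≤ ε := by linarith
  · rw [Metric.tendsto_atTop]
    intro ε hε
    obtain ⟨G, -, hG, n, hn⟩ := hA (show 0 < ε / 3 by positivity)
    refine ⟨n, fun m hm => ?_⟩
    have e1 := hn m hm
    have hGi := integrable_PP G
    have f1 : ‖(∫ ω, h (fun j => partialLog (b j) m (unim ω)) ∂PP) - ∫ ω, G ω ∂PP‖ ≤ ε / 3 := by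
      rw [← integral_sub e1.1 hGi]
      exact (norm_integral_le_integral_norm _).trans e1.2
    have f2 : ‖(∫ ω, h (fun j => L j ω) ∂PP) - ∫ ω, G ω ∂PP‖ ≤ ε / 3 := by
      rw [← integral_sub hG.1 hGi]
      exact (norm_integral_le_integral_norm _).trans hG.2
    rw [dist_eq_norm]
    have f3 : (∫ ω, h (fun j => partialLog (b j) m (unim ω)) ∂PP) - ∫ ω, h (fun j => L j ω) ∂PP =
        ((∫ ω, h (fun j => partialLog (b j) m (unim ω)) ∂PP) - ∫ ω, G ω ∂PP) -
          ((∫ ω, h (fun j => L j ω) ∂PP) - ∫ ω, G ω ∂PP) := by ring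
    rw [f3]
    have := norm_sub_le ((∫ ω, h (fun j => partialLog (b j) m (unim ω)) ∂PP) - ∫ ω, G ω ∂PP)
      ((∫ ω, h (fun j => L j ω) ∂PP) - ∫ ω, G ω ∂PP)
    linarith
  · obtain ⟨G, hGt, hG, -⟩ := hA (show 0 < ε / 3 by positivity)
    obtain ⟨H₀, hH₀, hconv⟩ := conv_all G (ε / 3) (by positivity)
    refine ⟨max H₀ 1, lt_max_of_lt_left hH₀, fun H hH x => ?_⟩
    have hH1 : 1 ≤ H := (le_max_right _ _).trans hH
    have hH0 : 0 < H := by linarith
    have hprob := isProb_av x hH0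
    have hGi := integrable_PP G
    have e1 := hGt x H hH1
    have f1 : ‖(∫ t, h (fun j => edgeLog (b j) t) ∂(av x H)) - ∫ t, G (flow t) ∂(av x H)‖ ≤
        ε / 3 := by
      rw [← integral_sub e1.1 (integrable_flow_av G x hH0)]
      exact (norm_integral_le_integral_norm _).trans e1.2
    have f2 : ‖(∫ ω, h (fun j => L j ω) ∂PP) - ∫ ω, G ω ∂PP‖ ≤ ε / 3 := by
      rw [← integral_sub hG.1 hGi]
      exact (norm_integral_le_integral_norm _).trans hG.2
    have f3 := hconv H ((le_max_left _ _).trans hH) x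
    unfold dev at f3
    rw [integral_av _ x hH0, integral_av _ x hH0] at f1
    have f4 : (H : ℂ)⁻¹ * (∫ t in x..(x + H), h fun j => edgeLog (b j) t) -
        ∫ ω, h (fun j => L j ω) ∂PP =
        ((H : ℂ)⁻¹ * (∫ t in x..(x + H), h fun j => edgeLog (b j) t) -
          (H : ℂ)⁻¹ * ∫ t in x..(x + H), G (flow t)) +
        (((H : ℂ)⁻¹ * (∫ t in x..(x + H), G (flow t)) - ∫ ω, G ω ∂PP) -
          ((∫ ω, h (fun j => L j ω) ∂PP) - ∫ ω, G ω ∂PP)) := by ring
    rw [f4]
    refine (norm_add_le _ _).trans ?_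
    have := norm_sub_le ((H : ℂ)⁻¹ * (∫ t in x..(x + H), G (flow t)) - ∫ ω, G ω ∂PP)
      ((∫ ω, h (fun j => L j ω) ∂PP) - ∫ ω, G ω ∂PP)
    linarith

/-- The space average of a product of functions of single phases. -/
lemma integral_prod_phases (F : Finset Nat.Primes) (φ : Nat.Primes → UnitAddCircle → ℝ)
    (hφ : ∀ p, Continuous (φ p)) :
    ∫ ω, ∏ p ∈ F, φ p (ω p) ∂PP = ∏ p ∈ F, ∫ θ, φ p θ ∂AddCircle.haarAddCircle := by
  have h1 : ∀ ω : Om, ∏ p ∈ F, φ p (ω p) =
      (fun y : (∀ _ : F, UnitAddCircle) => ∏ i : F, φ i (y i)) (F.restrict ω) := by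
    intro ω
    rw [← Finset.prod_coe_sort]
    rfl
  simp_rw [h1]
  unfold PP
  rw [integral_restrict_infinitePi (μ := fun _ : Nat.Primes =>
    (AddCircle.haarAddCircle : Measure UnitAddCircle))
    (f := fun y : (∀ _ : F, UnitAddCircle) => ∏ i : F, φ i (y i))
    (by
      refine Continuous.aestronglyMeasurable ?_
      exact continuous_finsetProd _ fun i _ => (hφ i).comp (continuous_apply i))]
  rw [integral_fintype_prod_eq_prod (𝕜 := ℝ) (fun (i : F) (x : UnitAddCircle) => φ i x)]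
  exact Finset.prod_coe_sort F fun p => ∫ θ, φ p θ ∂AddCircle.haarAddCircle

end Pool.Agent.K6.H65.BJ
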