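import Pool.Agent.K6.H65.BJ.Sharp
import Pool.Agent.K6.H65.BJ.Law2

/-!
# Value distribution on the edge line: assembling
-/

set_option autoImplicit false

namespace Pool.Agent.K6.H65.BJ

open MeasureTheory Filter Topology Pool.Agent.W350.Edge
open scoped ENNReal

lemma half_log_le_lg {y : ℕ} (hy : 3 ≤ y) : 1 ≤ lg y ∧ Real.log y / 2 ≤ lg y := by
  have h1 : (1 : ℝ) ≤ Real.log y := by
    have h2 : Real.exp 1 ≤ y := by
      have h3 : Real.exp 1 ≤ 3 := by
        have := Real.exp_one_lt_d9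
        linarith
      exact h3.trans (by exact_mod_cast hy)
    have h4 := Real.log_le_log (Real.exp_pos 1) h2
    rwa [Real.log_exp] at h4
  have h5 := lt_lg y
  have h6 : 1 ≤ lg y := by
    unfold lg
    exact Nat.le_floor (by exact_mod_cast h1)
  refine ⟨h6, ?_⟩
  have h7 : (1 : ℝ) ≤ lg y := by exact_mod_cast h6
  linarith

lemma tail_const {y : ℕ} (hy : 3 ≤ y) (N : ℕ) :
    ENNReal.ofReal (CT * N ^ 2 / lg y) ≤ ENNReal.ofReal ((2 * CT) * N ^ 2 / Real.log y) := by
  obtain ⟨h1, h2⟩ := half_log_le_lg hy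
  have hCT := CT_pos
  refine ENNReal.ofReal_le_ofReal ?_
  have h3 : (0 : ℝ) < Real.log y := by
    refine Real.log_pos ?_
    have : (3 : ℝ) ≤ y := by exact_mod_cast hy
    linarith
  have h4 : (0 : ℝ) < lg y := by exact_mod_cast h1
  rw [div_le_div_iff₀ h4 h3]
  have h5 : 0 ≤ CT * (N : ℝ) ^ 2 := by positivity
  nlinarith

/-- The mean over the phase of `p` of the product of the `κ_j`-th powers of the absolute values of the
Euler factors at `p`. -/
noncomputable def localMoment {r : ℕ} (M : Fin r → Motive) (κ : Fin r → ℝ) (p : Nat.Primes) : ℝ :=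
  ∫ θ : UnitAddCircle, ∏ j, ‖∏ k, (1 - (M j).nroot p k * ((AddCircle.toCircle θ : Circle) : ℂ) / p)⁻¹‖
    ^ κ j ∂AddCircle.haarAddCircle

lemma norm_factor {N : ℕ} (b : Nat.Primes → Fin N → ℂ) (hb : ∀ p k, ‖b p k‖ ≤ 1) (p : Nat.Primes)
    {u : ℂ} (hu : ‖u‖ ≤ 1) : ‖∏ k, (1 - b p k * u / p)⁻¹‖ = Real.exp (logAt b p u).re := by
  rw [← Complex.norm_exp]
  congr 1
  unfold logAt
  rw [Complex.exp_sum]
  refine Finset.prod_congr rfl fun k _ => ?_
  rw [Complex.exp_neg, Complex.exp_log]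
  refine Complex.slitPlane_ne_zero (mem_slit ?_)
  have h0 : (0 : ℝ) < p := by exact_mod_cast p.2.pos
  have h2 : (2 : ℝ) ≤ p := by exact_mod_cast p.2.two_le
  rw [norm_div, norm_mul, Complex.norm_natCast, div_le_div_iff₀ h0 two_pos]
  have := mul_le_one₀ (hb p k) (norm_nonneg _) hu
  linarith

lemma moment_partial_random {r : ℕ} (M : Fin r → Motive) (κ : Fin r → ℝ) (n : ℕ) :
    ∫ ω, Real.exp (∑ j, κ j * (partialLog (M j).nroot n (unim ω)).re) ∂PP =
      ∏ p ∈ primesLt n, localMoment M κ p := by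
  set φ : Nat.Primes → UnitAddCircle → ℝ := fun p θ =>
    Real.exp (∑ j, κ j * (logAt (M j).nroot p ((AddCircle.toCircle θ : Circle) : ℂ)).re) with hφ
  have hcu : Continuous fun θ : UnitAddCircle => ((AddCircle.toCircle θ : Circle) : ℂ) :=
    (map_continuous (fourier 1 : C(UnitAddCircle, ℂ))).congr fun θ => by simp
  have hφc : ∀ p, Continuous (φ p) := by
    intro p
    simp only [hφ]
    refine Real.continuous_exp.comp (continuous_finsetSum _ fun j _ => ?_)
    refine continuous_const.mul (Complex.continuous_re.comp ?_)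
    refine continuous_iff_continuousAt.2 fun θ => ?_
    exact ContinuousAt.comp (g := logAt (M j).nroot p)
      (continuousAt_logAt (M j).nroot (M j).norm_nroot p (Circle.norm_coe _).le) hcu.continuousAt
  have h1 : ∀ ω : Om, Real.exp (∑ j, κ j * (partialLog (M j).nroot n (unim ω)).re) =
      ∏ p ∈ primesLt n, φ p (ω p) := by
    intro ω
    simp only [hφ]
    rw [← Real.exp_sum]
    congr 1
    unfold partialLog
    rw [Finset.sum_comm]
    refine Finset.sum_congr rfl fun j _ => ?_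
    rw [Complex.re_sum, Finset.mul_sum]
    rfl
  simp_rw [h1]
  rw [integral_prod_phases _ φ hφc]
  refine Finset.prod_congr rfl fun p _ => ?_
  unfold localMoment
  refine integral_congr_ae (Eventually.of_forall fun θ => ?_)
  simp only [hφ]
  rw [Real.exp_sum]
  refine Finset.prod_congr rfl fun j _ => ?_
  rw [norm_factor (M j).nroot (M j).norm_nroot p (Circle.norm_coe _).le, ← Real.exp_mul, mul_comm]

/-- The moments. -/
theorem moments {r : ℕ} (M : Fin r → Motive) {c : ℝ} (hc : 0 ≤ c) (L : Fin r → Om → ℂ)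
    (hL : ∀ j, Data (M j).nroot c (L j)) (κ : Fin r → ℝ) (hκN : ∑ j, |κ j| * (M j).rank < 1) :
    ∃ m : ℝ, 0 < m ∧ Tendsto (fun y : ℕ => ∏ p ∈ primesLt y, localMoment M κ p) atTop (𝓝 m) ∧
      ∀ ε : ℝ, 0 < ε → ∃ H₀ : ℝ, 0 < H₀ ∧ ∀ H : ℝ, H₀ ≤ H → ∀ x : ℝ,
        |H⁻¹ * (∫ τ in x..(x + H), ∏ j, ‖Complex.exp ((M j).logL τ)‖ ^ κ j) - m| ≤ ε := by
  set g : (Fin r → ℂ) → ℝ := fun y => Real.exp (∑ j, κ j * (y j).re) with hg
  have hgc : Continuous g := by
    simp only [hg]
    fun_prop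
  obtain ⟨-, hint, hlim, hmean⟩ := law (fun j => (M j).rank) (fun j => (M j).nroot)
    (fun j => (M j).norm_nroot) hc L hL (fun j => |κ j|) (fun j => abs_nonneg _) hκN
    (fun y => (g y : ℂ)) (by fun_prop) 1 (fun y => by
      rw [Complex.norm_real, Real.norm_of_nonneg (Real.exp_pos _).le, one_mul]
      refine Real.exp_le_exp.2 (Finset.sum_le_sum fun j _ => ?_)
      calc κ j * (y j).re ≤ |κ j * (y j).re| := le_abs_self _
        _ = |κ j| * |(y j).re| := abs_mul _ _
        _ ≤ |κ j| * ‖y j‖ := mul_le_mul_of_nonneg_left (Complex.abs_re_le_norm _) (abs_nonneg _))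
  have hint' : Integrable (fun ω => g fun j => L j ω) PP := hint.re
  have hgint : ∀ f : Om → Fin r → ℂ, ∫ ω, ((g (f ω) : ℝ) : ℂ) ∂PP = ((∫ ω, g (f ω) ∂PP : ℝ) : ℂ) :=
    fun f => integral_complex_ofReal
  refine ⟨∫ ω, g (fun j => L j ω) ∂PP, ?_, ?_, fun ε hε => ?_⟩
  · rw [integral_pos_iff_support_of_nonneg (fun ω => (Real.exp_pos _).le) hint']
    have h1 : Function.support (fun ω => g fun j => L j ω) = Set.univ := by
      ext ω
      simp only [Function.mem_support, Set.mem_univ, iff_true]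
      exact (Real.exp_pos _).ne'
    rw [h1, measure_univ]
    exact one_pos
  · have h1 := (Complex.continuous_re.tendsto _).comp hlim
    rw [hgint] at h1
    refine (h1.congr fun n => ?_)
    simp only [Function.comp]
    rw [hgint, Complex.ofReal_re]
    exact moment_partial_random M κ n
  · obtain ⟨H₀, hH₀, hH⟩ := hmean ε hε
    refine ⟨H₀, hH₀, fun H hHH x => ?_⟩
    have h1 := hH H hHH x
    rw [hgint] at h1
    have h2 : ∀ τ : ℝ, g (fun j => edgeLog (M j).nroot τ) =
        ∏ j, ‖Complex.exp ((M j).logL τ)‖ ^ κ j := by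
      intro τ
      simp only [hg]
      rw [Real.exp_sum]
      refine Finset.prod_congr rfl fun j _ => ?_
      rw [Complex.norm_exp, ← Real.exp_mul, mul_comm]
      rfl
    have h3 : (∫ t in x..(x + H), ((g fun j => edgeLog (M j).nroot t : ℝ) : ℂ)) =
        ((∫ τ in x..(x + H), ∏ j, ‖Complex.exp ((M j).logL τ)‖ ^ κ j : ℝ) : ℂ) := by
      rw [intervalIntegral.integral_ofReal]
      congr 1
      exact intervalIntegral.integral_congr fun τ _ => h2 τ
    rw [h3, ← Complex.ofReal_inv, ← Complex.ofReal_mul, ← Complex.ofReal_sub, Complex.norm_real,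
      Real.norm_eq_abs] at h1
    exact h1

/-- The angle of opening `K` at the point of height `τ` of the edge line, inside the half plane of
absolute convergence. -/
def Motive.angle (M : Motive) (τ K : ℝ) : Set ℂ :=
  {s : ℂ | (M.weight : ℝ) / 2 + 1 < s.re ∧
    ‖s - M.edgePoint τ‖ ≤ K * (s.re - ((M.weight : ℝ) / 2 + 1))}

/-- One motive. -/
theorem single : ∃ c : ℝ, 0 ≤ c ∧ ∃ Λ : Motive → Om → ℂ, ∀ M : Motive, Data M.nroot c (Λ M) ∧
    (∃ T : Set ℝ, dimH T = 0 ∧ ∀ τ : ℝ, τ ∉ T →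
      Tendsto (fun y : ℕ => partialLog M.nroot y (phase τ)) atTop (𝓝 (M.logL τ)) ∧
      ∀ K : ℝ, Tendsto M.LFun (𝓝[M.angle τ K] (M.edgePoint τ)) (𝓝 (Complex.exp (M.logL τ)))) := by
  obtain ⟨c, hc0, hc⟩ := exists_data
  choose Λ hΛ using fun M : Motive => hc M.rank M.nroot M.norm_nroot
  refine ⟨c, hc0, Λ, fun M => ⟨hΛ M, badSet' M.nroot, dimH_badSet' _ M.norm_nroot,
    fun τ hτ => ⟨tendsto_edgeLog hτ, fun K => (M.at_edge hτ).2 K⟩⟩⟩

end Pool.Agent.K6.H65.BJ
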