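import Mathlib

/-!
# The logarithm of the zeta function near the line `Re s = 1`
-/

set_option autoImplicit false

open Set Complex Filter Topology

namespace Pool.Agent.K6.H65.BJ

/-- The logarithm of the Euler product of the zeta function. -/
noncomputable def Z (s : ℂ) : ℂ := ∑' p : Nat.Primes, -Complex.log (1 - (p : ℂ) ^ (-s))

lemma norm_prime_cpow (p : Nat.Primes) (s : ℂ) : ‖(p : ℂ) ^ (-s)‖ = (p : ℝ) ^ (-s.re) := by
  rw [Complex.norm_natCast_cpow_of_pos p.2.pos, Complex.neg_re]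

lemma prime_rpow_le_half (p : Nat.Primes) {σ : ℝ} (h : 1 ≤ σ) : (p : ℝ) ^ (-σ) ≤ 1 / 2 := by
  have h2 : (2 : ℝ) ≤ p := by exact_mod_cast p.2.two_le
  calc (p : ℝ) ^ (-σ) ≤ (p : ℝ) ^ (-1 : ℝ) :=
        Real.rpow_le_rpow_of_exponent_le (by linarith) (by linarith)
    _ = (p : ℝ)⁻¹ := Real.rpow_neg_one _
    _ ≤ 1 / 2 := by
        rw [one_div]
        exact inv_anti₀ (by norm_num) h2

lemma norm_log_term (p : Nat.Primes) {s : ℂ} (h : 1 ≤ s.re) :
    ‖-Complex.log (1 - (p : ℂ) ^ (-s))‖ ≤ 3 / 2 * (p : ℝ) ^ (-s.re) := by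
  rw [norm_neg, ← norm_prime_cpow p s, sub_eq_add_neg, ← norm_neg ((p : ℂ) ^ (-s))]
  refine Complex.norm_log_one_add_half_le_self ?_
  rw [norm_neg, norm_prime_cpow]
  exact prime_rpow_le_half p h

lemma summable_primes_rpow {σ : ℝ} (h : 1 < σ) : Summable fun p : Nat.Primes => (p : ℝ) ^ (-σ) :=
  Nat.Primes.summable_rpow.2 (by linarith)

lemma differentiableOn_Z : DifferentiableOn ℂ Z {s | 1 < s.re} := by
  have hopen : ∀ σ : ℝ, IsOpen {s : ℂ | σ < s.re} := fun σ =>
    isOpen_lt continuous_const Complex.continuous_re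
  intro s hs
  obtain ⟨σ, h1, h2⟩ := exists_between (show 1 < s.re from hs)
  have h : DifferentiableOn ℂ Z {s | σ < s.re} := by
    refine differentiableOn_tsum_of_summable_norm (u := fun p : Nat.Primes =>
      3 / 2 * (p : ℝ) ^ (-σ)) ((summable_primes_rpow h1).mul_left _) (fun p => ?_) (hopen σ) ?_
    · intro w hw
      have hw1 : 1 ≤ w.re := h1.le.trans (le_of_lt hw)
      have hp0 : (p : ℂ) ≠ 0 := by exact_mod_cast p.2.ne_zero
      have hd : DifferentiableAt ℂ (fun w : ℂ => 1 - (p : ℂ) ^ (-w)) w := by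
        refine (differentiableAt_const _).sub ?_
        exact (differentiableAt_id.neg).const_cpow (Or.inl hp0)
      refine (hd.clog ?_).neg.differentiableWithinAt
      refine Or.inl ?_
      have h3 : ‖(p : ℂ) ^ (-w)‖ ≤ 1 / 2 := by
        rw [norm_prime_cpow]
        exact prime_rpow_le_half p hw1
      have h4 := (Complex.abs_re_le_norm ((p : ℂ) ^ (-w))).trans h3
      have h5 := abs_le.1 h4
      simp only [Complex.sub_re, Complex.one_re]
      linarith [h5.2]
    · intro p w hw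
      have hw1 : 1 ≤ w.re := h1.le.trans (le_of_lt hw)
      refine (norm_log_term p hw1).trans ?_
      have h2 : (1 : ℝ) ≤ p := by exact_mod_cast p.2.one_lt.le
      refine mul_le_mul_of_nonneg_left ?_ (by norm_num)
      exact Real.rpow_le_rpow_of_exponent_le h2 (by have : σ < w.re := hw; linarith)
  exact (h.differentiableAt ((hopen σ).mem_nhds h2)).differentiableWithinAt

/-- `(s - 1) ζ(s)`. -/
noncomputable def hz : ℂ → ℂ := DirichletCharacter.LFunctionTrivChar₁ 1

lemma hz_of_ne {s : ℂ} (hs : s ≠ 1) : hz s = (s - 1) * riemannZeta s := by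
  unfold hz DirichletCharacter.LFunctionTrivChar₁ DirichletCharacter.LFunctionTrivChar
  rw [Function.update_of_ne hs, DirichletCharacter.LFunction_modOne_eq]

lemma hz_ne_zero {s : ℂ} (hs : 1 ≤ s.re) : hz s ≠ 0 := by
  by_cases h : s = 1
  · subst h
    exact DirichletCharacter.LFunctionTrivChar₁_apply_one_ne_zero 1
  · rw [hz_of_ne h]
    exact mul_ne_zero (sub_ne_zero.2 h) (riemannZeta_ne_zero_of_one_le_re hs)

lemma differentiable_hz : Differentiable ℂ hz :=
  DirichletCharacter.differentiable_LFunctionTrivChar₁ 1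

/-- `Z(s) + log (s - 1)`. -/
noncomputable def DZ (s : ℂ) : ℂ := Z s + Complex.log (s - 1)

lemma exp_DZ {s : ℂ} (hs : 1 < s.re) : Complex.exp (DZ s) = hz s := by
  have h1 : s ≠ 1 := by
    rintro rfl
    simp at hs
  unfold DZ Z
  rw [Complex.exp_add, riemannZeta_eulerProduct_exp_log hs, Complex.exp_log (sub_ne_zero.2 h1),
    hz_of_ne h1, mul_comm]

lemma differentiableAt_DZ {s : ℂ} (hs : 1 < s.re) : DifferentiableAt ℂ DZ s := by
  have hopen : IsOpen {s : ℂ | 1 < s.re} := isOpen_lt continuous_const Complex.continuous_re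
  refine (differentiableOn_Z.differentiableAt (hopen.mem_nhds hs)).add ?_
  refine (differentiableAt_id.sub_const 1).clog ?_
  refine Or.inl ?_
  simp only [id, Complex.sub_re, Complex.one_re]
  linarith

lemma deriv_DZ {s : ℂ} (hs : 1 < s.re) : deriv DZ s = deriv hz s / hz s := by
  have hopen : IsOpen {s : ℂ | 1 < s.re} := isOpen_lt continuous_const Complex.continuous_re
  have h1 : (fun w => Complex.exp (DZ w)) =ᶠ[𝓝 s] hz :=
    Filter.eventuallyEq_of_mem (hopen.mem_nhds hs) fun w hw => exp_DZ hw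
  have h2 := h1.deriv_eq
  have h3 : deriv (fun w => Complex.exp (DZ w)) s = Complex.exp (DZ s) * deriv DZ s := by
    have := ((differentiableAt_DZ hs).hasDerivAt.cexp).deriv
    simpa using this
  rw [h3, exp_DZ hs] at h2
  rw [← h2, mul_div_cancel_left₀ _ (hz_ne_zero hs.le)]

/-- The box. -/
def box : Set ℂ := Icc 1 2 ×ℂ Icc (-1) 1

lemma isCompact_box : IsCompact box := isCompact_Icc.reProdIm isCompact_Icc

lemma exists_bound_deriv : ∃ B : ℝ, 0 ≤ B ∧ ∀ s ∈ box, ‖deriv hz s / hz s‖ ≤ B := by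
  have h1 : ContinuousOn (fun s => deriv hz s / hz s) box := by
    refine ((differentiable_hz.contDiff.continuous_deriv le_rfl).continuousOn).div
      differentiable_hz.continuous.continuousOn fun s hs => hz_ne_zero hs.1.1
  obtain ⟨B, hB⟩ := isCompact_box.exists_bound_of_continuousOn h1
  exact ⟨max B 0, le_max_right _ _, fun s hs => (hB s hs).trans (le_max_left _ _)⟩

lemma exists_bound_DZ : ∃ B : ℝ, 0 ≤ B ∧ ∀ s : ℂ, 1 < s.re → s.re ≤ 2 → |s.im| ≤ 1 →
    ‖DZ s‖ ≤ B := by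
  obtain ⟨B, hB0, hB⟩ := exists_bound_deriv
  refine ⟨‖DZ 2‖ + B * 2, by positivity, fun s h1 h2 h3 => ?_⟩
  have hconv : Convex ℝ (Ioc 1 2 ×ℂ Icc (-1) 1 : Set ℂ) := by
    intro a ha b hb u v hu hv huv
    refine ⟨?_, ?_⟩
    · have := convex_Ioc (1 : ℝ) 2 ha.1 hb.1 hu hv huv
      simpa using this
    · have := convex_Icc (-1 : ℝ) 1 ha.2 hb.2 hu hv huv
      simpa using this
  have hmem : s ∈ (Ioc 1 2 ×ℂ Icc (-1) 1 : Set ℂ) := ⟨⟨h1, h2⟩, abs_le.1 h3⟩
  have hmem2 : (2 : ℂ) ∈ (Ioc 1 2 ×ℂ Icc (-1) 1 : Set ℂ) := by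
    refine ⟨⟨?_, ?_⟩, ?_, ?_⟩ <;> simp
  have h4 := hconv.norm_image_sub_le_of_norm_deriv_le (f := DZ) (C := B)
    (fun w hw => differentiableAt_DZ hw.1.1) (fun w hw => by
      rw [deriv_DZ hw.1.1]
      exact hB w ⟨⟨hw.1.1.le, hw.1.2⟩, hw.2⟩) hmem2 hmem
  have h5 : ‖s - 2‖ ≤ 2 := by
    have h6 := Complex.norm_le_abs_re_add_abs_im (s - 2)
    have h7 : |(s - 2).re| ≤ 1 := by
      rw [abs_le]
      constructor <;> simp <;> linarith
    have h8 : |(s - 2).im| ≤ 1 := by simpa using h3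
    linarith
  calc ‖DZ s‖ = ‖DZ 2 + (DZ s - DZ 2)‖ := by ring_nf
    _ ≤ ‖DZ 2‖ + ‖DZ s - DZ 2‖ := norm_add_le _ _
    _ ≤ ‖DZ 2‖ + B * 2 := by
        have := mul_le_mul_of_nonneg_left h5 hB0
        linarith

/-- **The logarithm of the zeta function near `1`.** -/
lemma exists_bound_Z : ∃ c₀ : ℝ, 0 ≤ c₀ ∧ ∀ ε t : ℝ, 0 < ε → ε ≤ 1 → t ≠ 0 → |t| ≤ 1 →
    ‖Z (1 + ε + t * I)‖ ≤ -Real.log |t| + c₀ := by
  obtain ⟨B, hB0, hB⟩ := exists_bound_DZ
  refine ⟨B + Real.log 2 + Real.pi, by positivity, fun ε t h1 h2 h3 h4 => ?_⟩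
  set s : ℂ := 1 + ε + t * I with hs
  have hre : s.re = 1 + ε := by simp [hs]
  have him : s.im = t := by simp [hs]
  have h5 := hB s (by rw [hre]; linarith) (by rw [hre]; linarith) (by rw [him]; exact h4)
  have h6 : Z s = DZ s - Complex.log (s - 1) := by
    unfold DZ
    ring
  have h7 : s - 1 = ε + t * I := by
    rw [hs]
    ring
  have habs : 0 < |t| := abs_pos.2 h3
  have hlow : |t| ≤ ‖s - 1‖ := by
    have := Complex.abs_im_le_norm (s - 1)
    simpa [h7] using this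
  have hup : ‖s - 1‖ ≤ 2 := by
    have := Complex.norm_le_abs_re_add_abs_im (s - 1)
    rw [h7] at this ⊢
    simp only [add_re, ofReal_re, mul_re, I_re, mul_zero, ofReal_im, I_im, mul_one, sub_self,
      add_zero, add_im, mul_im, zero_add] at this
    rw [abs_of_pos h1] at this
    linarith
  have hpos : 0 < ‖s - 1‖ := habs.trans_le hlow
  have h8 : |Real.log ‖s - 1‖| ≤ -Real.log |t| + Real.log 2 := by
    have h9 : Real.log |t| ≤ Real.log ‖s - 1‖ := Real.log_le_log habs hlow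
    have h10 : Real.log ‖s - 1‖ ≤ Real.log 2 := Real.log_le_log hpos hup
    have h11 : Real.log |t| ≤ 0 := Real.log_nonpos habs.le h4
    have h12 : 0 ≤ Real.log 2 := Real.log_nonneg (by norm_num)
    rw [abs_le]
    constructor <;> linarith
  have h13 : ‖Complex.log (s - 1)‖ ≤ -Real.log |t| + Real.log 2 + Real.pi := by
    have := Complex.norm_le_abs_re_add_abs_im (Complex.log (s - 1))
    rw [Complex.log_re, Complex.log_im] at this
    have := Complex.abs_arg_le_pi (s - 1)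
    linarith
  rw [h6]
  have := norm_sub_le (DZ s) (Complex.log (s - 1))
  linarith

end Pool.Agent.K6.H65.BJ
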