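import Pool.Agent.K6.H65.BJ.Maj
import Pool.Agent.K6.H65.BJ.Zeta

/-!
# Exponential moments of partial logarithms in unit windows
-/

set_option autoImplicit false

namespace Pool.Agent.K6.H65.BJ

open MeasureTheory Filter Topology Set

lemma ex_pow (ω t : ℝ) (n : ℕ) : ex ω t ^ n = ex (n * ω) t := by
  unfold ex
  rw [← Complex.exp_nat_mul]
  congr 1
  push_cast
  ring

variable {N : ℕ}

lemma norm_pt {c : ℂ} {ρ : ℝ} (hc : ‖c‖ ≤ 1) (h0 : 0 ≤ ρ) (ω t : ℝ) :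
    ‖c * ρ * ex ω t‖ ≤ ρ := by
  rw [norm_mul, norm_mul, norm_ex, mul_one, Complex.norm_real, Real.norm_of_nonneg h0]
  calc ‖c‖ * ρ ≤ 1 * ρ := mul_le_mul_of_nonneg_right hc h0
    _ = ρ := one_mul ρ

lemma pow_div_le {ρ : ℝ} (h0 : 0 ≤ ρ) (h1 : ρ ≤ 1 / 2) (n : ℕ) :
    ρ ^ n / n ≤ 2 * ρ * (1 / 2) ^ n := by
  rcases n with _ | n
  · simp
    exact h0
  · have h2 : ρ ^ (n + 1) / ((n + 1 : ℕ) : ℝ) ≤ ρ ^ (n + 1) := by
      refine div_le_self (by positivity) ?_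
      push_cast
      linarith [n.cast_nonneg (α := ℝ)]
    have h3 : ρ ^ n ≤ (1 / 2) ^ n := pow_le_pow_left₀ h0 h1 n
    calc ρ ^ (n + 1) / ((n + 1 : ℕ) : ℝ) ≤ ρ ^ (n + 1) := h2
      _ = ρ * ρ ^ n := by ring
      _ ≤ ρ * (1 / 2) ^ n := mul_le_mul_of_nonneg_left h3 h0
      _ = 2 * ρ * (1 / 2) ^ (n + 1) := by ring

/-- The logarithm of an Euler product is dominated by the logarithm of a power of zeta. -/
lemma dom_log (b : Nat.Primes → Fin N → ℂ) (hb : ∀ p k, ‖b p k‖ ≤ 1) (ρ : Nat.Primes → ℝ)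
    (h0 : ∀ p, 0 ≤ ρ p) (h1 : ∀ p, ρ p ≤ 1 / 2) (hs : Summable ρ) (ω : Nat.Primes → ℝ) :
    Dom (fun t => ∑' p, ∑ k, -Complex.log (1 - b p k * ρ p * ex (ω p) t))
      (fun t => N * ∑' p, -Complex.log (1 - 1 * ρ p * ex (ω p) t)) := by
  have hC : Summable fun i : Nat.Primes × ℕ => (N : ℝ) * (ρ i.1 ^ i.2 / i.2) := by
    refine Summable.mul_left _ ?_
    have h2 : Summable fun i : Nat.Primes × ℕ => (2 * ρ i.1) * (1 / 2 : ℝ) ^ i.2 :=
      (hs.mul_left 2).mul_of_nonneg (summable_geometric_of_lt_one (by norm_num) (by norm_num))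
        (fun p => mul_nonneg zero_le_two (h0 p)) (fun n => by positivity)
    refine Summable.of_nonneg_of_le (fun i => ?_) (fun i => pow_div_le (h0 i.1) (h1 i.1) i.2) h2
    have := h0 i.1
    positivity
  have hser : ∀ (c : ℂ), ‖c‖ ≤ 1 → ∀ p t, HasSum (fun n : ℕ => (c ^ n * (ρ p : ℂ) ^ n / n) *
      ex (n * ω p) t) (-Complex.log (1 - c * ρ p * ex (ω p) t)) := by
    intro c hc p t
    have h3 := Complex.hasSum_taylorSeries_neg_log (z := c * ρ p * ex (ω p) t)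
      ((norm_pt hc (h0 p) _ _).trans_lt ((h1 p).trans_lt (by norm_num)))
    refine h3.congr_fun ?_ |> fun h => h
    intro n
    rw [← ex_pow]
    ring
  refine ⟨Nat.Primes × ℕ, inferInstance, fun i => ∑ k, b i.1 k ^ i.2 * (ρ i.1 : ℂ) ^ i.2 / i.2,
    fun i => (N : ℝ) * (ρ i.1 ^ i.2 / i.2), fun i => i.2 * ω i.1, fun i => ?_, hC, fun t => ?_,
    fun t => ?_⟩
  · refine (norm_sum_le _ _).trans ?_
    have h4 : ∀ k ∈ (Finset.univ : Finset (Fin N)),
        ‖b i.1 k ^ i.2 * (ρ i.1 : ℂ) ^ i.2 / i.2‖ ≤ ρ i.1 ^ i.2 / i.2 := by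
      intro k _
      rw [norm_div, norm_mul, norm_pow, norm_pow, Complex.norm_natCast, Complex.norm_real,
        Real.norm_of_nonneg (h0 i.1)]
      have h5 : ‖b i.1 k‖ ^ i.2 ≤ 1 := pow_le_one₀ (norm_nonneg _) (hb _ _)
      have h6 : 0 ≤ ρ i.1 ^ i.2 := pow_nonneg (h0 _) _
      gcongr
      calc ‖b i.1 k‖ ^ i.2 * ρ i.1 ^ i.2 ≤ 1 * ρ i.1 ^ i.2 := mul_le_mul_of_nonneg_right h5 h6
        _ = _ := one_mul _
    refine (Finset.sum_le_sum h4).trans ?_
    rw [Finset.sum_const, Finset.card_univ, Fintype.card_fin, nsmul_eq_mul]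
  · have hsum : Summable fun i : Nat.Primes × ℕ =>
        (∑ k, b i.1 k ^ i.2 * (ρ i.1 : ℂ) ^ i.2 / i.2) * ex (i.2 * ω i.1) t := by
      refine Summable.of_norm_bounded hC fun i => ?_
      rw [norm_mul, norm_ex, mul_one]
      refine (norm_sum_le _ _).trans ?_
      have h4 : ∀ k ∈ (Finset.univ : Finset (Fin N)),
          ‖b i.1 k ^ i.2 * (ρ i.1 : ℂ) ^ i.2 / i.2‖ ≤ ρ i.1 ^ i.2 / i.2 := by
        intro k _
        rw [norm_div, norm_mul, norm_pow, norm_pow, Complex.norm_natCast, Complex.norm_real,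
          Real.norm_of_nonneg (h0 i.1)]
        have h5 : ‖b i.1 k‖ ^ i.2 ≤ 1 := pow_le_one₀ (norm_nonneg _) (hb _ _)
        have h6 : 0 ≤ ρ i.1 ^ i.2 := pow_nonneg (h0 _) _
        gcongr
        calc ‖b i.1 k‖ ^ i.2 * ρ i.1 ^ i.2 ≤ 1 * ρ i.1 ^ i.2 := mul_le_mul_of_nonneg_right h5 h6
          _ = _ := one_mul _
      refine (Finset.sum_le_sum h4).trans ?_
      rw [Finset.sum_const, Finset.card_univ, Fintype.card_fin, nsmul_eq_mul]
    rw [hsum.tsum_prod]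
    refine tsum_congr fun p => ?_
    have h5 : HasSum (fun n : ℕ => ∑ k, (b p k ^ n * (ρ p : ℂ) ^ n / n) * ex (n * ω p) t)
        (∑ k, -Complex.log (1 - b p k * ρ p * ex (ω p) t)) :=
      hasSum_sum fun k _ => hser _ (hb p k) p t
    rw [← h5.tsum_eq]
    refine tsum_congr fun n => ?_
    rw [Finset.sum_mul]
  · have hsum : Summable fun i : Nat.Primes × ℕ =>
        (((N : ℝ) * (ρ i.1 ^ i.2 / i.2) : ℝ) : ℂ) * ex (i.2 * ω i.1) t := by
      refine Summable.of_norm_bounded hC fun i => ?_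
      rw [norm_mul, norm_ex, mul_one, Complex.norm_real, Real.norm_of_nonneg]
      have := h0 i.1
      positivity
    rw [hsum.tsum_prod]
    beta_reduce
    rw [← tsum_mul_left]
    refine tsum_congr fun p => ?_
    have h6 := (hser 1 (by simp) p t).mul_left (N : ℂ)
    rw [← h6.tsum_eq]
    refine tsum_congr fun n => ?_
    push_cast
    ring

lemma integral_abs_rpow {a : ℝ} (h1 : a < 1) :
    IntervalIntegrable (fun t : ℝ => |t| ^ (-a)) volume (-1) 1 ∧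
      ∫ t in (-1 : ℝ)..1, |t| ^ (-a) = 2 / (1 - a) := by
  have hi : IntervalIntegrable (fun t : ℝ => t ^ (-a)) volume 0 1 :=
    intervalIntegral.intervalIntegrable_rpow' (by linarith)
  have he : EqOn (fun t : ℝ => t ^ (-a)) (fun t : ℝ => |t| ^ (-a)) (uIcc 0 1) := by
    intro t ht
    rw [uIcc_of_le zero_le_one] at ht
    show t ^ (-a) = |t| ^ (-a)
    rw [abs_of_nonneg ht.1]
  have hi1 : IntervalIntegrable (fun t : ℝ => |t| ^ (-a)) volume 0 1 :=
    hi.congr (he.mono uIoc_subset_uIcc)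
  have hi2 : IntervalIntegrable (fun t : ℝ => |t| ^ (-a)) volume (-1) 0 := by
    have h2 := ((IntervalIntegrable.iff_comp_neg (f := fun t : ℝ => |t| ^ (-a)) (a := 0)
      (b := 1)).1 hi1).symm
    simpa using h2
  have hv : ∫ t in (0 : ℝ)..1, |t| ^ (-a) = 1 / (1 - a) := by
    rw [← intervalIntegral.integral_congr he, integral_rpow (Or.inl (by linarith))]
    have : -a + 1 = 1 - a := by ring
    rw [this, Real.one_rpow, Real.zero_rpow (by linarith), sub_zero]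
  have hv2 : ∫ t in (-1 : ℝ)..0, |t| ^ (-a) = 1 / (1 - a) := by
    rw [← hv]
    have h3 := intervalIntegral.integral_comp_neg (a := 0) (b := 1) (fun t : ℝ => |t| ^ (-a))
    simp only [abs_neg, neg_zero] at h3
    exact h3.symm
  refine ⟨hi2.trans hi1, ?_⟩
  rw [← intervalIntegral.integral_add_adjacent_intervals hi2 hi1, hv, hv2]
  ring

/-- `p^{-(1+ε)}` -/
noncomputable def rh (ε : ℝ) (p : Nat.Primes) : ℝ := (p : ℝ) ^ (-(1 + ε))

lemma rh_nonneg (ε : ℝ) (p : Nat.Primes) : 0 ≤ rh ε p := by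
  unfold rh
  positivity

lemma rh_le {ε : ℝ} (h : 0 ≤ ε) (p : Nat.Primes) : rh ε p ≤ 1 / 2 :=
  prime_rpow_le_half p (by linarith)

lemma summable_rh {ε : ℝ} (h : 0 < ε) : Summable (rh ε) := summable_primes_rpow (by linarith)

lemma prime_cpow_eq (p : Nat.Primes) (ε t : ℝ) :
    (p : ℂ) ^ (-(1 + ε + t * Complex.I)) = 1 * rh ε p * ex (Real.log p) t := by
  have hp : (0 : ℝ) < p := by exact_mod_cast p.2.pos
  have hp0 : ((p : ℕ) : ℂ) ≠ 0 := by exact_mod_cast p.2.ne_zero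
  unfold rh ex
  rw [one_mul, Complex.ofReal_cpow hp.le, Complex.ofReal_natCast, Complex.cpow_def_of_ne_zero hp0,
    Complex.cpow_def_of_ne_zero hp0, ← Complex.exp_add, ← Complex.natCast_log]
  congr 1
  push_cast
  ring

/-- **Exponential moments of zeta near `1`.** -/
lemma zeta_moment : ∃ c₀ : ℝ, 0 ≤ c₀ ∧ ∀ (κ : ℝ) (N : ℕ) (ε : ℝ), 0 ≤ κ → κ * N < 1 → 0 < ε → ε ≤ 1 →
    ∫ t in (-1 : ℝ)..1, Real.exp (κ * ‖(N : ℂ) * ∑' p : Nat.Primes,
      -Complex.log (1 - 1 * rh ε p * ex (Real.log p) t)‖) ≤ 2 * Real.exp c₀ / (1 - κ * N) := by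
  obtain ⟨c₀, hc0, hc⟩ := exists_bound_Z
  refine ⟨c₀, hc0, fun κ N ε hκ hκN hε hε1 => ?_⟩
  have hdom := dom_log (N := N) (fun _ _ => 0) (fun _ _ => by simp) (rh ε) (rh_nonneg ε)
    (rh_le hε.le) (summable_rh hε) (fun p => Real.log p)
  have hcont := hdom.continuous_right
  have hZ : ∀ t : ℝ, ∑' p : Nat.Primes, -Complex.log (1 - 1 * rh ε p * ex (Real.log p) t) =
      Z (1 + ε + t * Complex.I) := by
    intro t
    unfold Z
    refine tsum_congr fun p => ?_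
    rw [prime_cpow_eq]
  have hi := (integral_abs_rpow (a := κ * N) hκN).1
  have h1 : ∫ t in (-1 : ℝ)..1, Real.exp (κ * ‖(N : ℂ) * ∑' p : Nat.Primes,
      -Complex.log (1 - 1 * rh ε p * ex (Real.log p) t)‖) ≤
      ∫ t in (-1 : ℝ)..1, Real.exp c₀ * |t| ^ (-(κ * N)) := by
    refine intervalIntegral.integral_mono_ae_restrict (by norm_num) ?_ (hi.const_mul _) ?_
    · exact (by fun_prop : Continuous fun t : ℝ => Real.exp (κ * ‖(N : ℂ) * ∑' p : Nat.Primes,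
        -Complex.log (1 - 1 * rh ε p * ex (Real.log p) t)‖)).intervalIntegrable _ _
    · have h2 : ∀ᵐ t : ℝ ∂(volume.restrict (Icc (-1 : ℝ) 1)), t ≠ 0 :=
        ae_restrict_of_ae (Measure.ae_ne volume 0)
      filter_upwards [h2, ae_restrict_mem measurableSet_Icc] with t ht0 ht
      have ht1 : |t| ≤ 1 := abs_le.2 ht
      have h3 := hc ε t hε hε1 ht0 ht1
      have h4 : 0 < |t| := abs_pos.2 ht0
      rw [hZ, norm_mul, Complex.norm_natCast, Real.rpow_def_of_pos h4, ← Real.exp_add]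
      refine Real.exp_le_exp.2 ?_
      have h5 : κ * (N * ‖Z (1 + ε + t * Complex.I)‖) ≤ (κ * N) * (-Real.log |t| + c₀) := by
        rw [← mul_assoc]
        exact mul_le_mul_of_nonneg_left h3 (by positivity)
      have h6 : κ * N * c₀ ≤ c₀ := by nlinarith
      linarith
  refine h1.trans ?_
  rw [intervalIntegral.integral_const_mul, (integral_abs_rpow hκN).2]
  apply le_of_eq
  ring

end Pool.Agent.K6.H65.BJ
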