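import Pool.Agent.K6.H65.BJ.Mom
import Pool.Agent.K6.H65.BJ.Defs

/-!
# Exponential moments of partial logarithms on the edge line
-/

set_option autoImplicit false

namespace Pool.Agent.K6.H65.BJ

open MeasureTheory Filter Topology Set
open scoped ENNReal

/-- Fatou's lemma in the form we need. -/
lemma fatou {α E : Type*} [MeasurableSpace α] {μ : Measure α} [TopologicalSpace E]
    [MeasurableSpace E] [OpensMeasurableSpace E]
    {f : ℕ → α → E} {g : α → E} (hf : ∀ n, AEMeasurable (f n) μ)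
    (h : ∀ᵐ a ∂μ, Tendsto (fun n => f n a) atTop (𝓝 (g a))) (Φ : E → ℝ≥0∞) (hΦ : Continuous Φ)
    (B : ℝ≥0∞) (hB : ∀ n, ∫⁻ a, Φ (f n a) ∂μ ≤ B) : ∫⁻ a, Φ (g a) ∂μ ≤ B := by
  have h1 : ∫⁻ a, Φ (g a) ∂μ = ∫⁻ a, liminf (fun n => Φ (f n a)) atTop ∂μ := by
    refine lintegral_congr_ae ?_
    filter_upwards [h] with a ha
    exact (((hΦ.tendsto _).comp ha).liminf_eq).symm
  rw [h1]
  refine (lintegral_liminf_le' fun n => hΦ.measurable.comp_aemeasurable (hf n)).trans ?_
  refine (liminf_le_liminf (Eventually.of_forall hB)).trans ?_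
  simp

variable {N : ℕ}

lemma mem_slit {z : ℂ} (hz : ‖z‖ ≤ 1 / 2) : 1 - z ∈ Complex.slitPlane := by
  refine Or.inl ?_
  have h5 := abs_le.1 ((Complex.abs_re_le_norm z).trans hz)
  simp only [Complex.sub_re, Complex.one_re]
  linarith [h5.2]

/-- The partial logarithms, slightly to the right of the edge line. -/
noncomputable def Fe (S : Finset Nat.Primes) (b : Nat.Primes → Fin N → ℂ) (ε t : ℝ) : ℂ :=
  ∑ p ∈ S, ∑ k, -Complex.log (1 - b p k * rh ε p * ex (Real.log p) t)

lemma rh_zero (p : Nat.Primes) : rh 0 p = (p : ℝ)⁻¹ := by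
  unfold rh
  rw [add_zero, Real.rpow_neg_one]

lemma Fe_zero (x : ℕ) (b : Nat.Primes → Fin N → ℂ) (t : ℝ) :
    Fe (primesLt x) b 0 t = partialLog b x (fun p => ex (Real.log p) t) := by
  unfold Fe partialLog logAt
  refine Finset.sum_congr rfl fun p _ => Finset.sum_congr rfl fun k _ => ?_
  rw [rh_zero]
  push_cast
  congr 3
  ring

lemma Fe_eq (S : Finset Nat.Primes) (b : Nat.Primes → Fin N → ℂ) (ε t : ℝ) [DecidableEq Nat.Primes] :
    Fe S b ε t = ∑' p, ∑ k, -Complex.log (1 - (if p ∈ S then b p k else 0) * rh ε p *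
      ex (Real.log p) t) := by
  unfold Fe
  rw [tsum_eq_sum (s := S)]
  · refine Finset.sum_congr rfl fun p hp => Finset.sum_congr rfl fun k _ => ?_
    rw [if_pos hp]
  · intro p hp
    refine Finset.sum_eq_zero fun k _ => ?_
    rw [if_neg hp]
    simp

lemma tendsto_Fe (S : Finset Nat.Primes) (b : Nat.Primes → Fin N → ℂ) (hb : ∀ p k, ‖b p k‖ ≤ 1)
    (t : ℝ) : Tendsto (fun n : ℕ => Fe S b (1 / ((n : ℝ) + 1)) t) atTop (𝓝 (Fe S b 0 t)) := by
  have h1 : Tendsto (fun n : ℕ => 1 / ((n : ℝ) + 1)) atTop (𝓝 0) :=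
    tendsto_one_div_add_atTop_nhds_zero_nat
  have h2 : ContinuousAt (fun ε : ℝ => Fe S b ε t) 0 := by
    unfold Fe
    refine tendsto_finsetSum _ fun p _ => tendsto_finsetSum _ fun k _ => ?_
    refine ContinuousAt.neg (ContinuousAt.clog ?_ ?_)
    · have hp : (0 : ℝ) < p := by exact_mod_cast p.2.pos
      have h3 : Continuous fun ε : ℝ => rh ε p := by
        unfold rh
        refine Continuous.rpow continuous_const (by fun_prop) fun ε => Or.inl hp.ne'
      exact (by fun_prop : Continuous fun ε : ℝ =>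
        1 - b p k * rh ε p * ex (Real.log p) t).continuousAt
    · exact mem_slit ((norm_pt (hb p k) (rh_nonneg 0 p) _ _).trans (rh_le le_rfl p))
  exact h2.tendsto.comp h1

lemma continuous_Fe (S : Finset Nat.Primes) (b : Nat.Primes → Fin N → ℂ) (hb : ∀ p k, ‖b p k‖ ≤ 1)
    {ε : ℝ} (hε : 0 ≤ ε) : Continuous (Fe S b ε) := by
  unfold Fe
  refine continuous_finsetSum _ fun p _ => continuous_finsetSum _ fun k _ => ?_
  refine Continuous.neg (Continuous.clog ?_ fun t => ?_)
  · have := continuous_ex (Real.log p)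
    fun_prop
  · exact mem_slit ((norm_pt (hb p k) (rh_nonneg ε p) _ _).trans (rh_le hε p))

/-- **Exponential moments** of partial logarithms in unit windows. -/
theorem moment_partial : ∃ c : ℝ, 0 ≤ c ∧ ∀ (N : ℕ) (b : Nat.Primes → Fin N → ℂ),
    (∀ p k, ‖b p k‖ ≤ 1) → ∀ κ : ℝ, 0 ≤ κ → κ * N < 1 → ∀ (n : ℕ) (x : ℝ),
    ∫⁻ t in Icc x (x + 1), ENNReal.ofReal (Real.exp (κ *
      ‖partialLog b n (fun p => ex (Real.log p) t)‖)) ≤ ENNReal.ofReal (c / (1 - κ * N)) := by
  classical
  obtain ⟨c₀, hc0, hc⟩ := zeta_moment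
  refine ⟨4 * (2 * Real.exp c₀), by positivity, fun N b hb κ hκ hκN n x => ?_⟩
  have key : ∀ ε : ℝ, 0 < ε → ε ≤ 1 →
      ∫⁻ t in Icc x (x + 1), ENNReal.ofReal (Real.exp (κ * ‖Fe (primesLt n) b ε t‖)) ≤
        ENNReal.ofReal (4 * (2 * Real.exp c₀) / (1 - κ * N)) := by
    intro ε hε hε1
    have hdom := dom_log (N := N) (fun p k => if p ∈ primesLt n then b p k else 0)
      (fun p k => by
        show ‖if p ∈ primesLt n then b p k else 0‖ ≤ 1
        split_ifs
        · exact hb p k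
        · simp) (rh ε) (rh_nonneg ε) (rh_le hε.le) (summable_rh hε) (fun p => Real.log p)
    have h1 := hdom.exp_moment x hκ
    have h2 := hc κ N ε hκ hκN hε hε1
    have h3 : ∫ t in x..(x + 1), Real.exp (κ * ‖Fe (primesLt n) b ε t‖) ≤
        4 * (2 * Real.exp c₀) / (1 - κ * N) := by
      have h4 : ∫ t in x..(x + 1), Real.exp (κ * ‖Fe (primesLt n) b ε t‖) =
          ∫ t in x..(x + 1), Real.exp (κ * ‖∑' p, ∑ k, -Complex.log (1 -
            (if p ∈ primesLt n then b p k else 0) * rh ε p * ex (Real.log p) t)‖) := by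
        refine intervalIntegral.integral_congr fun t _ => ?_
        show Real.exp _ = Real.exp _
        rw [Fe_eq]
      rw [h4]
      refine h1.trans ?_
      calc _ ≤ 4 * (2 * Real.exp c₀ / (1 - κ * N)) := mul_le_mul_of_nonneg_left h2 (by norm_num)
        _ = _ := by ring
    have hcont : Continuous fun t => Real.exp (κ * ‖Fe (primesLt n) b ε t‖) := by
      have := continuous_Fe (primesLt n) b hb hε.le
      fun_prop
    rw [← ofReal_integral_eq_lintegral_ofReal
      (hcont.continuousOn.integrableOn_compact isCompact_Icc)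
      (Eventually.of_forall fun t => (Real.exp_pos _).le)]
    rw [integral_Icc_eq_integral_Ioc, ← intervalIntegral.integral_of_le (by linarith)]
    exact ENNReal.ofReal_le_ofReal h3
  have h5 := fatou (μ := volume.restrict (Icc x (x + 1)))
    (f := fun m : ℕ => Fe (primesLt n) b (1 / ((m : ℝ) + 1))) (g := Fe (primesLt n) b 0)
    (fun m => (continuous_Fe (primesLt n) b hb (by positivity)).measurable.aemeasurable)
    (Eventually.of_forall fun t => tendsto_Fe (primesLt n) b hb t)
    (fun y => ENNReal.ofReal (Real.exp (κ * ‖y‖)))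
    (ENNReal.continuous_ofReal.comp (by fun_prop)) _
    (fun m => key (1 / ((m : ℝ) + 1)) (by positivity) (by
      rw [div_le_one (by positivity)]
      linarith [m.cast_nonneg (α := ℝ)]))
  simpa only [Fe_zero] using h5

end Pool.Agent.K6.H65.BJ
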