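import Pool.Agent.K6.H65.BJ.Bdry

/-!
# The `L`-function at a point of the edge line
-/

set_option autoImplicit false

namespace Pool.Agent.K6.H65.BJ

open MeasureTheory Filter Topology Pool.Agent.W350.Edge Pool.Agent.W350.EdgeV

lemma logAt_eq {N : ℕ} (b : Nat.Primes → Fin N → ℂ) (p : Nat.Primes) (u : ℂ) :
    logAt b p u = (∑ k, b p k) / p * u + rem b p u := by
  unfold rem
  ring

lemma continuousAt_logAt {N : ℕ} (b : Nat.Primes → Fin N → ℂ) (hb : ∀ p k, ‖b p k‖ ≤ 1)
    (p : Nat.Primes) {u : ℂ} (hu : ‖u‖ ≤ 1) : ContinuousAt (logAt b p) u := by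
  unfold logAt
  refine tendsto_finsetSum _ fun k _ => ?_
  refine ContinuousAt.neg (ContinuousAt.clog ?_ ?_)
  · fun_prop
  · refine mem_slit ?_
    have h0 : (0 : ℝ) < p := by exact_mod_cast p.2.pos
    have h2 : (2 : ℝ) ≤ p := by exact_mod_cast p.2.two_le
    rw [norm_div, norm_mul, Complex.norm_natCast, div_le_div_iff₀ h0 two_pos]
    have := mul_le_one₀ (hb p k) (norm_nonneg _) hu
    linarith

namespace Motive

variable (M : Motive)

lemma norm_nroot (p : Nat.Primes) (k : Fin M.rank) : ‖M.nroot p k‖ ≤ 1 := by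
  have hp : (0 : ℝ) < p := by exact_mod_cast p.2.pos
  unfold nroot
  rw [norm_div, Complex.norm_real, Real.norm_of_nonneg (by positivity)]
  exact div_le_one_of_le₀ (M.norm_root_le p k) (by positivity)

/-- The real part of the edge. -/
noncomputable def edge : ℝ := (M.weight : ℝ) / 2 + 1

/-- The phase of `p` at the point `s`. -/
noncomputable def ph (p : Nat.Primes) (s : ℂ) : ℂ := (p : ℂ) ^ ((M.edge : ℂ) - s)

lemma norm_ph (p : Nat.Primes) {s : ℂ} (hs : M.edge ≤ s.re) : ‖M.ph p s‖ ≤ 1 := by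
  unfold ph
  have h1 : (1 : ℝ) ≤ p := by exact_mod_cast p.2.one_lt.le
  rw [Complex.norm_natCast_cpow_of_pos p.2.pos]
  refine Real.rpow_le_one_of_one_le_of_nonpos h1 ?_
  simp only [Complex.sub_re, Complex.ofReal_re]
  linarith

lemma root_cpow (p : Nat.Primes) (k : Fin M.rank) (s : ℂ) :
    M.nroot p k * M.ph p s / p = M.root p k * (p : ℂ) ^ (-s) := by
  have hp : (0 : ℝ) < p := by exact_mod_cast p.2.pos
  have hp0 : ((p : ℕ) : ℂ) ≠ 0 := by exact_mod_cast p.2.ne_zero
  unfold nroot ph edge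
  rw [Complex.ofReal_cpow hp.le, Complex.ofReal_natCast]
  have h1 : (((M.weight : ℝ) / 2 + 1 : ℝ) : ℂ) - s = ((M.weight : ℝ) / 2 : ℝ) + 1 + -s := by
    push_cast
    ring
  rw [h1, Complex.cpow_add _ _ hp0, Complex.cpow_add _ _ hp0, Complex.cpow_one]
  have h2 : (p : ℂ) ^ (((M.weight : ℝ) / 2 : ℝ) : ℂ) ≠ 0 := by
    rw [Complex.cpow_ne_zero_iff]
    exact Or.inl hp0
  field_simp

lemma factor_eq (p : Nat.Primes) {s : ℂ} (hs : M.edge ≤ s.re) :
    ∏ k, (1 - M.root p k * (p : ℂ) ^ (-s))⁻¹ = Complex.exp (logAt M.nroot p (M.ph p s)) := by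
  unfold logAt
  rw [Complex.exp_sum]
  refine Finset.prod_congr rfl fun k _ => ?_
  rw [Complex.exp_neg, Complex.exp_log, M.root_cpow]
  refine Complex.slitPlane_ne_zero (mem_slit ?_)
  have h0 : (0 : ℝ) < p := by exact_mod_cast p.2.pos
  have h2 : (2 : ℝ) ≤ p := by exact_mod_cast p.2.two_le
  rw [norm_div, norm_mul, Complex.norm_natCast, div_le_div_iff₀ h0 two_pos]
  have := mul_le_one₀ (M.norm_nroot p k) (norm_nonneg _) (M.norm_ph p hs)
  linarith

lemma ph_edge (p : Nat.Primes) (τ : ℝ) (z : ℂ) :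
    M.ph p (M.edgePoint τ + z) = Complex.exp (-z * Real.log p) *
      Complex.exp (-(τ * Real.log p) * Complex.I) := by
  have hp0 : ((p : ℕ) : ℂ) ≠ 0 := by exact_mod_cast p.2.ne_zero
  unfold ph edgePoint edge
  rw [Complex.cpow_def_of_ne_zero hp0, ← Complex.exp_add, ← Complex.natCast_log]
  congr 1
  push_cast
  ring

lemma ph_edge' (p : Nat.Primes) (τ : ℝ) : M.ph p (M.edgePoint τ) = phase τ p := by
  have h1 := M.ph_edge p τ 0
  rw [add_zero, neg_zero, zero_mul, Complex.exp_zero, one_mul] at h1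
  rw [h1]
  unfold phase ex
  congr 1
  push_cast
  ring

/-- The logarithm on the edge line. -/
noncomputable def logL (τ : ℝ) : ℂ := edgeLog M.nroot τ

/-- **The boundary values.** -/
theorem at_edge {τ : ℝ} (hτ : τ ∉ badSet' M.nroot) :
    Tendsto (fun x : ℕ => ∏ p ∈ primesLt x, ∏ k, (1 - M.root p k * (p : ℂ) ^ (-M.edgePoint τ))⁻¹)
      atTop (𝓝 (Complex.exp (M.logL τ))) ∧
    ∀ K : ℝ, Tendsto M.LFun
      (𝓝[{s : ℂ | M.edge < s.re ∧ ‖s - M.edgePoint τ‖ ≤ K * (s.re - M.edge)}] (M.edgePoint τ))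
      (𝓝 (Complex.exp (M.logL τ))) := by
  have hre : (M.edgePoint τ).re = M.edge := by simp [edgePoint, edge]
  have hfin : ∀ x : ℕ, {p : Nat.Primes | (p : ℕ) < x}.Finite := finite_primesLt
  have hconv := tendsto_edgeLog hτ
  have hrem := (summable_rem M.nroot M.norm_nroot (norm_phase τ)).hasSum.comp tendsto_primesLt
  have hA : Tendsto (fun x => ∑ v ∈ FV (fun p : Nat.Primes => (p : ℕ)) hfin x,
      vt (fun p : Nat.Primes => (p : ℕ)) (fun p => ∑ k, M.nroot p k) τ v) atTop
      (𝓝 (edgeLog M.nroot τ - ∑' p, rem M.nroot p (phase τ p))) := by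
    refine (hconv.sub hrem).congr fun x => ?_
    simp only [Function.comp]
    unfold partialLog
    rw [← Finset.sum_sub_distrib]
    refine Finset.sum_congr rfl fun p _ => ?_
    rw [logAt_eq]
    unfold vt phase ex
    rw [add_sub_cancel_right]
    congr 2
    push_cast
    ring
  have key := at_point_V (N := fun p : Nat.Primes => (p : ℕ)) (fun p => p.2.one_lt.le) hfin
    (fun r hr => Nat.Primes.summable_rpow.2 (by linarith)) (fun p => ∑ k, M.nroot p k) M.rank
    (fun p => by
      refine (norm_sum_le _ _).trans ((Finset.sum_le_sum fun k _ => M.norm_nroot p k).trans ?_)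
      simp) ∅
    (fun p s => ∏ k, (1 - M.root p k * (p : ℂ) ^ (-s))⁻¹)
    (fun p s => rem M.nroot p (M.ph p s)) M.rank M.edge τ
    (fun p s hs => by
      have h1 := norm_rem M.nroot M.norm_nroot p (M.norm_ph p hs)
      have h2 : ((p : ℕ) : ℝ) ^ (-2 : ℝ) = ((p : ℝ) ^ 2)⁻¹ := by
        rw [Real.rpow_neg (Nat.cast_nonneg _)]
        norm_num
      rw [h2]
      exact h1)
    (fun p => by
      show Tendsto (fun s => rem M.nroot p (M.ph p s))
        (𝓝[{s | M.edge ≤ s.re}] (M.edgePoint τ)) (𝓝 (rem M.nroot p (M.ph p (M.edgePoint τ))))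
      refine ContinuousAt.tendsto ?_ |>.mono_left nhdsWithin_le_nhds
      have hp0 : ((p : ℕ) : ℂ) ≠ 0 := by exact_mod_cast p.2.ne_zero
      have h1 : Continuous (M.ph p) := by
        unfold ph
        exact (continuous_const.sub continuous_id).const_cpow (Or.inl hp0)
      have h2 : ContinuousAt (rem M.nroot p) (M.ph p (M.edgePoint τ)) := by
        unfold rem
        refine (continuousAt_logAt M.nroot M.norm_nroot p (M.norm_ph p hre.ge)).sub ?_
        fun_prop
      exact ContinuousAt.comp h2 h1.continuousAt)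
    (fun v hv => absurd hv (Finset.notMem_empty v)) (fun v hv => absurd hv (Finset.notMem_empty v))
    (fun p _ z hz => by
      have h1 : M.edge ≤ (M.edgePoint τ + z).re := by
        rw [Complex.add_re, hre]
        linarith
      show ∏ k, (1 - M.root p k * (p : ℂ) ^ (-(M.edgePoint τ + z)))⁻¹ = _
      rw [M.factor_eq p h1, logAt_eq]
      congr 1
      show _ = _ + rem M.nroot p (M.ph p (M.edgePoint τ + z))
      congr 1
      rw [ph_edge]
      unfold vt
      ring)
    _ hA
  obtain ⟨l, -, h1, h2⟩ := key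
  have h3 : Tendsto (fun x : ℕ => ∏ p ∈ primesLt x,
      ∏ k, (1 - M.root p k * (p : ℂ) ^ (-M.edgePoint τ))⁻¹) atTop (𝓝 (Complex.exp (M.logL τ))) := by
    have h4 := (Complex.continuous_exp.tendsto _).comp hconv
    refine h4.congr fun x => ?_
    simp only [Function.comp]
    unfold partialLog
    rw [Complex.exp_sum]
    refine Finset.prod_congr rfl fun p _ => ?_
    rw [M.factor_eq p hre.ge, ph_edge']
  have h5 : l = Complex.exp (M.logL τ) := tendsto_nhds_unique h1 h3
  subst h5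
  exact ⟨h3, h2⟩

end Motive

end Pool.Agent.K6.H65.BJ
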