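import Pool.Agent.K6.H65.BJ.Bdry
import Pool.Agent.K6.H65.BJ.Equi2

/-!
# The random Euler products
-/

set_option autoImplicit false

namespace Pool.Agent.K6.H65.BJ

open MeasureTheory Filter Topology Pool.Agent.W350.Edge
open scoped ENNReal

/-- Windows of integral length. -/
lemma lintegral_windows {g : ℝ → ℝ≥0∞} {B : ℝ≥0∞} (hB : ∀ x : ℝ, ∫⁻ t in Set.Icc x (x + 1), g t ≤ B)
    (x : ℝ) (m : ℕ) : ∫⁻ t in Set.Icc x (x + m), g t ≤ m * B := by
  induction m with
  | zero => simp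
  | succ m ih =>
    have h1 : Set.Icc x (x + (m + 1 : ℕ)) ⊆ Set.Icc x (x + m) ∪ Set.Icc (x + m) (x + m + 1) := by
      intro t ht
      rcases le_total t (x + m) with h | h
      · exact Or.inl ⟨ht.1, h⟩
      · refine Or.inr ⟨h, ?_⟩
        have := ht.2
        push_cast at this
        linarith
    calc ∫⁻ t in Set.Icc x (x + (m + 1 : ℕ)), g t ≤
        ∫⁻ t in Set.Icc x (x + m) ∪ Set.Icc (x + m) (x + m + 1), g t := lintegral_mono_set h1
      _ ≤ (∫⁻ t in Set.Icc x (x + m), g t) + ∫⁻ t in Set.Icc (x + m) (x + m + 1), g t :=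
        lintegral_union_le _ _ _
      _ ≤ m * B + B := add_le_add ih (hB _)
      _ = ((m + 1 : ℕ) : ℝ≥0∞) * B := by push_cast; ring

/-- Windows of length `H ≥ 1`. -/
lemma lintegral_windows' {g : ℝ → ℝ≥0∞} {B : ℝ≥0∞} (hB : ∀ x : ℝ, ∫⁻ t in Set.Icc x (x + 1), g t ≤ B)
    (x : ℝ) {H : ℝ} (hH : 1 ≤ H) : ∫⁻ t in Set.Icc x (x + H), g t ≤ ENNReal.ofReal (2 * H) * B := by
  have h1 : Set.Icc x (x + H) ⊆ Set.Icc x (x + (⌈H⌉₊ : ℕ)) := by
    refine Set.Icc_subset_Icc_right ?_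
    have := Nat.le_ceil H
    linarith
  refine (lintegral_mono_set h1).trans ((lintegral_windows hB x _).trans ?_)
  refine mul_le_mul_left ?_ B
  rw [← ENNReal.ofReal_natCast]
  refine ENNReal.ofReal_le_ofReal ?_
  have := Nat.ceil_lt_add_one (show 0 ≤ H by linarith)
  linarith

/-- A bound in all unit windows gives the bound for the space average. -/
lemma space_le {g : Om → ℝ} (hg : Continuous g) (h0 : ∀ ω, 0 ≤ g ω) {B : ℝ} (hB0 : 0 ≤ B)
    (hB : ∀ x : ℝ, ∫⁻ t in Set.Icc x (x + 1), ENNReal.ofReal (g (flow t)) ≤ ENNReal.ofReal B) :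
    ∫⁻ ω, ENNReal.ofReal (g ω) ∂PP ≤ ENNReal.ofReal B := by
  set G : C(Om, ℂ) := ⟨fun ω => (g ω : ℂ), by fun_prop⟩ with hG
  have hgi : Integrable g PP := by
    have h1 : Integrable (fun ω => G ω) PP := integrable_PP G
    exact h1.re
  rw [← ofReal_integral_eq_lintegral_ofReal hgi (Eventually.of_forall h0)]
  refine ENNReal.ofReal_le_ofReal ?_
  refine le_of_forall_pos_le_add fun ε hε => ?_
  obtain ⟨H₀, hH₀, hdev⟩ := conv_all G ε hε
  obtain ⟨m, hm⟩ := exists_nat_ge (max H₀ 1)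
  have hm0 : (0 : ℝ) < m := lt_of_lt_of_le (lt_max_of_lt_left hH₀) hm
  have h2 := hdev m ((le_max_left _ _).trans hm) 0
  have hfc : Continuous fun t => g (flow t) := hg.comp continuous_flow
  have h3 : dev G 0 m = (((m : ℝ)⁻¹ * (∫ t in (0 : ℝ)..m, g (flow t)) - ∫ ω, g ω ∂PP : ℝ) : ℂ) := by
    unfold dev
    rw [zero_add, Complex.ofReal_sub, Complex.ofReal_mul, Complex.ofReal_inv,
      ← intervalIntegral.integral_ofReal, ← integral_complex_ofReal]
    rfl
  rw [h3, Complex.norm_real, Real.norm_eq_abs] at h2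
  have h4 : ∫ t in (0 : ℝ)..m, g (flow t) ≤ m * B := by
    have h5 := lintegral_windows hB 0 m
    rw [zero_add, ← ofReal_integral_eq_lintegral_ofReal
      (hfc.continuousOn.integrableOn_compact isCompact_Icc)
      (Eventually.of_forall fun t => h0 _), ← ENNReal.ofReal_natCast,
      ← ENNReal.ofReal_mul (Nat.cast_nonneg _)] at h5
    rw [ENNReal.ofReal_le_ofReal_iff (by positivity)] at h5
    rwa [intervalIntegral.integral_of_le hm0.le, ← integral_Icc_eq_integral_Ioc]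
  have h6 : (m : ℝ)⁻¹ * (∫ t in (0 : ℝ)..m, g (flow t)) ≤ B := by
    calc (m : ℝ)⁻¹ * (∫ t in (0 : ℝ)..m, g (flow t)) ≤ (m : ℝ)⁻¹ * (m * B) :=
          mul_le_mul_of_nonneg_left h4 (by positivity)
      _ = B := by field_simp
  have h7 := (abs_le.1 h2).1
  linarith

variable {N : ℕ}

lemma continuous_random (b : Nat.Primes → Fin N → ℂ) (hb : ∀ p k, ‖b p k‖ ≤ 1) (n : ℕ) :
    Continuous fun ω : Om => partialLog b n (unim ω) := by
  unfold partialLog logAt
  refine continuous_finsetSum _ fun p _ => continuous_finsetSum _ fun k _ => ?_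
  have h0 : (0 : ℝ) < p := by exact_mod_cast p.2.pos
  refine Continuous.neg (Continuous.clog ?_ fun ω => ?_)
  · have := continuous_unim p
    fun_prop
  · refine mem_slit ?_
    rw [norm_div, norm_mul, norm_unim, mul_one, Complex.norm_natCast]
    have h1 := hb p k
    have h2 : (2 : ℝ) ≤ p := by exact_mod_cast p.2.two_le
    rw [div_le_div_iff₀ h0 two_pos]
    linarith

lemma random_flow (b : Nat.Primes → Fin N → ℂ) (n : ℕ) (τ : ℝ) :
    partialLog b n (unim (flow τ)) = partialLog b n (phase τ) := by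
  congr 1
  funext p
  exact unim_flow τ p

/-- Exponential moments of the partial random sums. -/
theorem moment_random : ∃ c : ℝ, 0 ≤ c ∧ ∀ (N : ℕ) (b : Nat.Primes → Fin N → ℂ),
    (∀ p k, ‖b p k‖ ≤ 1) → ∀ κ : ℝ, 0 ≤ κ → κ * N < 1 →
    (∀ x : ℝ, (∀ n : ℕ, ∫⁻ t in Set.Icc x (x + 1), ENNReal.ofReal (Real.exp (κ *
      ‖partialLog b n (phase t)‖)) ≤ ENNReal.ofReal (c / (1 - κ * N))) ∧
    ∫⁻ t in Set.Icc x (x + 1), ENNReal.ofReal (Real.exp (κ *
      ‖edgeLog b t‖)) ≤ ENNReal.ofReal (c / (1 - κ * N))) ∧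
    ∀ n : ℕ, ∫⁻ ω, ENNReal.ofReal (Real.exp (κ * ‖partialLog b n (unim ω)‖)) ∂PP ≤
      ENNReal.ofReal (c / (1 - κ * N)) := by
  obtain ⟨c, hc0, hc⟩ := moment_edge
  refine ⟨c, hc0, fun N b hb κ hκ hκN => ⟨fun x => hc N b hb κ hκ hκN x, fun n => ?_⟩⟩
  have h1 : 0 < 1 - κ * N := by linarith
  refine space_le (g := fun ω => Real.exp (κ * ‖partialLog b n (unim ω)‖)) ?_
    (fun ω => (Real.exp_pos _).le) (by positivity) fun x => ?_
  · have := continuous_random b hb n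
    fun_prop
  · have h2 := (hc N b hb κ hκ hκN x).1 n
    simpa only [random_flow] using h2

/-- Tails of the random sums in mean square. -/
lemma tail_random (b : Nat.Primes → Fin N → ℂ) (hb : ∀ p k, ‖b p k‖ ≤ 1) {y z : ℕ}
    (hy : 1 ≤ lg y) (hyz : y ≤ z) :
    ∫⁻ ω, ENNReal.ofReal (‖partialLog b z (unim ω) - partialLog b y (unim ω)‖ ^ 2) ∂PP ≤
      ENNReal.ofReal (CT * N ^ 2 / lg y) := by
  have h0 := CT_pos
  refine space_le (g := fun ω => ‖partialLog b z (unim ω) - partialLog b y (unim ω)‖ ^ 2) ?_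
    (fun ω => sq_nonneg _) (by positivity) fun x => ?_
  · have := continuous_random b hb z
    have := continuous_random b hb y
    fun_prop
  · have h2 := tail_lintegral b hb x hy hyz
    simpa only [random_flow] using h2

lemma eLpNorm_le_of_sq {α : Type*} [MeasurableSpace α] {μ : Measure α} {f : α → ℂ} {δ : ℝ}
    (hδ : 0 ≤ δ) (h : ∫⁻ a, ENNReal.ofReal (‖f a‖ ^ 2) ∂μ ≤ ENNReal.ofReal (δ ^ 2)) :
    eLpNorm f 2 μ ≤ ENNReal.ofReal δ := by
  rw [eLpNorm_eq_lintegral_rpow_enorm_toReal two_ne_zero ENNReal.ofNat_ne_top]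
  have h1 : ∫⁻ a, ‖f a‖ₑ ^ (2 : ℝ≥0∞).toReal ∂μ = ∫⁻ a, ENNReal.ofReal (‖f a‖ ^ 2) ∂μ := by
    refine lintegral_congr fun a => ?_
    rw [ENNReal.ofReal_pow (norm_nonneg _), ofReal_norm_eq_enorm]
    simp
  rw [h1]
  have h2 : (∫⁻ a, ENNReal.ofReal (‖f a‖ ^ 2) ∂μ) ^ (1 / (2 : ℝ≥0∞).toReal) ≤
      (ENNReal.ofReal (δ ^ 2)) ^ (1 / (2 : ℝ≥0∞).toReal) :=
    ENNReal.rpow_le_rpow h (by simp)
  refine h2.trans (le_of_eq ?_)
  rw [ENNReal.ofReal_rpow_of_nonneg (sq_nonneg _) (by simp)]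
  congr 1
  simp only [ENNReal.toReal_ofNat]
  rw [← Real.sqrt_eq_rpow, Real.sqrt_sq hδ]

lemma exists_lg_ge (m : ℕ) : ∃ y : ℕ, m ≤ lg y := by
  refine ⟨⌈Real.exp m⌉₊, ?_⟩
  unfold lg
  refine Nat.le_floor ?_
  have h1 : Real.exp m ≤ (⌈Real.exp m⌉₊ : ℝ) := Nat.le_ceil _
  have h2 := Real.log_le_log (Real.exp_pos _) h1
  rwa [Real.log_exp] at h2

/-- **The random logarithm** exists. -/
theorem exists_random (b : Nat.Primes → Fin N → ℂ) (hb : ∀ p k, ‖b p k‖ ≤ 1) :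
    ∃ (L : Om → ℂ), Measurable L ∧ ∃ z : ℕ → ℕ, Tendsto z atTop atTop ∧
      ∀ᵐ ω ∂PP, Tendsto (fun i => partialLog b (z i) (unim ω)) atTop (𝓝 (L ω)) := by
  have hCT := CT_pos
  -- the levels
  have hlev : ∀ k : ℕ, ∃ y : ℕ, CT * N ^ 2 * 16 ^ k + 1 ≤ lg y := by
    intro k
    obtain ⟨m, hm⟩ := exists_nat_ge (CT * N ^ 2 * 16 ^ k + 1)
    obtain ⟨y, hy⟩ := exists_lg_ge m
    exact ⟨y, hm.trans (by exact_mod_cast hy)⟩
  choose y₀ hy₀ using hlev
  -- make the levels increasing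
  set y : ℕ → ℕ := fun k => ∑ j ∈ Finset.range (k + 1), (y₀ j + 1) with hy
  have hy1 : ∀ k, y₀ k + 1 ≤ y k := by
    intro k
    simp only [hy]
    exact Finset.single_le_sum (f := fun j => y₀ j + 1) (fun j _ => Nat.zero_le _)
      (Finset.self_mem_range_succ k)
  have hymono : Monotone y := by
    refine monotone_nat_of_le_succ fun k => ?_
    simp only [hy]
    rw [Finset.sum_range_succ _ (k + 1)]
    exact Nat.le_add_right _ _
  have hytend : Tendsto y atTop atTop := by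
    refine tendsto_atTop_mono (fun k => ?_) tendsto_id
    simp only [hy]
    have : ∑ j ∈ Finset.range (k + 1), 1 ≤ ∑ j ∈ Finset.range (k + 1), (y₀ j + 1) :=
      Finset.sum_le_sum fun j _ => Nat.le_add_left _ _
    rw [Finset.sum_const, Finset.card_range, smul_eq_mul, mul_one] at this
    exact (Nat.le_succ k).trans this
  have hlgy : ∀ k, CT * N ^ 2 * 16 ^ k + 1 ≤ lg (y k) := by
    intro k
    have h1 : lg (y₀ k) ≤ lg (y k) := by
      refine lg_mono ?_ (by have := hy1 k; omega)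
      by_contra h
      have h2 : y₀ k = 0 := by omega
      have h3 := hy₀ k
      rw [h2] at h3
      have : lg 0 = 0 := by simp [lg]
      rw [this] at h3
      have : 0 ≤ CT * N ^ 2 * 16 ^ k := by positivity
      simp at h3
      linarith
    exact (hy₀ k).trans (by exact_mod_cast h1)
  have hlgy1 : ∀ k, 1 ≤ lg (y k) := by
    intro k
    have h1 := hlgy k
    have : 0 ≤ CT * N ^ 2 * 16 ^ k := by positivity
    have h2 : (1 : ℝ) ≤ lg (y k) := by linarith
    exact_mod_cast h2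
  have hsmall : ∀ k, CT * N ^ 2 / lg (y k) ≤ ((1 / 4 : ℝ) ^ k) ^ 2 := by
    intro k
    have h1 : (0 : ℝ) < lg (y k) := by exact_mod_cast hlgy1 k
    rw [div_le_iff₀ h1]
    have h2 := hlgy k
    have h3 : ((1 / 4 : ℝ) ^ k) ^ 2 * 16 ^ k = 1 := by
      rw [← pow_mul, mul_comm k 2, pow_mul, ← mul_pow]
      norm_num
    have h4 : 0 < ((1 / 4 : ℝ) ^ k) ^ 2 := by positivity
    calc CT * N ^ 2 = ((1 / 4 : ℝ) ^ k) ^ 2 * (CT * N ^ 2 * 16 ^ k) := by
          rw [mul_comm (CT * (N : ℝ) ^ 2), ← mul_assoc, h3, one_mul]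
      _ ≤ ((1 / 4 : ℝ) ^ k) ^ 2 * lg (y k) := by
          refine mul_le_mul_of_nonneg_left ?_ h4.le
          linarith
  set f : ℕ → Om → ℂ := fun k ω => partialLog b (y k) (unim ω) with hf
  have hfc : ∀ k, Continuous (f k) := fun k => continuous_random b hb (y k)
  have hfm : ∀ k, MemLp (f k) 2 PP := by
    intro k
    obtain ⟨C, hC⟩ := isCompact_univ.exists_bound_of_continuousOn (hfc k).continuousOn
    exact MemLp.of_bound (hfc k).aestronglyMeasurable C
      (Eventually.of_forall fun ω => hC ω (Set.mem_univ _))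
  have hcau0 : ∀ n m : ℕ, n ≤ m → eLpNorm (f n - f m) 2 PP ≤ ENNReal.ofReal ((1 / 4 : ℝ) ^ n) := by
    intro n m hnm
    rw [eLpNorm_sub_comm]
    refine eLpNorm_le_of_sq (by positivity) ?_
    refine (tail_random b hb (hlgy1 n) (hymono hnm)).trans ?_
    exact ENNReal.ofReal_le_ofReal (hsmall n)
  have hcau : ∀ K n m : ℕ, K ≤ n → K ≤ m →
      eLpNorm (f n - f m) 2 PP < ENNReal.ofReal (2 * (1 / 2 : ℝ) ^ K) := by
    intro K n m hn hm
    have h1 : eLpNorm (f n - f m) 2 PP ≤ ENNReal.ofReal ((1 / 4 : ℝ) ^ K) := by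
      rcases le_total n m with h | h
      · refine (hcau0 n m h).trans (ENNReal.ofReal_le_ofReal ?_)
        exact pow_le_pow_of_le_one (by norm_num) (by norm_num) hn
      · rw [eLpNorm_sub_comm]
        refine (hcau0 m n h).trans (ENNReal.ofReal_le_ofReal ?_)
        exact pow_le_pow_of_le_one (by norm_num) (by norm_num) hm
    refine h1.trans_lt ?_
    rw [ENNReal.ofReal_lt_ofReal_iff (by positivity)]
    have h2 : (1 / 4 : ℝ) ^ K ≤ (1 / 2) ^ K := pow_le_pow_left₀ (by norm_num) (by norm_num) K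
    have h3 : (0 : ℝ) < (1 / 2) ^ K := by positivity
    linarith
  have hBsum : ∑' k : ℕ, ENNReal.ofReal (2 * (1 / 2 : ℝ) ^ k) ≠ ∞ := by
    have h1 : Summable fun k : ℕ => 2 * (1 / 2 : ℝ) ^ k :=
      (summable_geometric_of_lt_one (by norm_num) (by norm_num)).mul_left 2
    rw [← ENNReal.ofReal_tsum_of_nonneg (fun k => by positivity) h1]
    exact ENNReal.ofReal_ne_top
  obtain ⟨L, hL, hlim⟩ := Lp.cauchy_complete_eLpNorm one_le_two hfm hBsum hcau
  have hmeas := tendstoInMeasure_of_tendsto_eLpNorm_of_ne_top two_ne_zero ENNReal.ofNat_ne_top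
    (fun k => (hfm k).1) hL.1 hlim
  obtain ⟨ns, hns, hae⟩ := hmeas.exists_seq_tendsto_ae
  refine ⟨hL.1.mk L, hL.1.stronglyMeasurable_mk.measurable, fun i => y (ns i),
    hytend.comp hns.tendsto_atTop, ?_⟩
  filter_upwards [hae, hL.1.ae_eq_mk] with ω h1 h2
  rw [← h2]
  exact h1

end Pool.Agent.K6.H65.BJ
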