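import Pool.Agent.K6.H65.BJ.Point
import Pool.Agent.K6.H65.BJ.Zeta

/-!
# Powers of the zeta function: the exponents are optimal
-/

set_option autoImplicit false

namespace Pool.Agent.K6.H65.BJ

open MeasureTheory Filter Topology
open scoped ENNReal

/-- `N` copies of the unit motive `ℚ(0)`, with `L`-function `ζ(s)^N`. -/
def unitMotive (N : ℕ) : Motive where
  weight := 0
  rank := N
  root := fun _ _ => 1
  norm_root_le := fun p _ => by simp

lemma edge_unit (N : ℕ) : (unitMotive N).edge = 1 := by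
  simp [Motive.edge, unitMotive]

lemma LFun_unit (N : ℕ) {s : ℂ} (hs : 1 < s.re) : (unitMotive N).LFun s = riemannZeta s ^ N := by
  unfold Motive.LFun
  have h1 : ∀ p : Nat.Primes, ∏ k : Fin (unitMotive N).rank,
      (1 - (unitMotive N).root p k * (p : ℂ) ^ (-s))⁻¹ = ((1 - (p : ℂ) ^ (-s))⁻¹) ^ N := by
    intro p
    show ∏ k : Fin N, (1 - 1 * (p : ℂ) ^ (-s))⁻¹ = _
    rw [one_mul, Finset.prod_const, Finset.card_univ, Fintype.card_fin]
  rw [tprod_congr h1]
  have h2 := riemannZeta_eulerProduct_hasProd hs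
  have h3 : HasProd (fun p : Nat.Primes => ((1 - (p : ℂ) ^ (-s))⁻¹) ^ N) (riemannZeta s ^ N) :=
    h2.pow N
  exact h3.tprod_eq

lemma exp_unit (N : ℕ) {τ : ℝ} (hτ : τ ∉ badSet' (unitMotive N).nroot) (hτ0 : τ ≠ 0) :
    Complex.exp ((unitMotive N).logL τ) = riemannZeta (1 + τ * Complex.I) ^ N := by
  set M := unitMotive N with hM
  have hpt : M.edgePoint τ = 1 + τ * Complex.I := by
    simp [Motive.edgePoint, hM, unitMotive]
  have h1 := (M.at_edge hτ).2 1
  rw [hpt] at h1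
  set F := 𝓝[{s : ℂ | M.edge < s.re ∧ ‖s - (1 + τ * Complex.I)‖ ≤ 1 * (s.re - M.edge)}]
    (1 + τ * Complex.I) with hF
  have hne : (1 : ℂ) + τ * Complex.I ≠ 1 := by
    simp [hτ0]
  have h2 : Tendsto M.LFun F (𝓝 (riemannZeta (1 + τ * Complex.I) ^ N)) := by
    have h3 : Tendsto (fun s => riemannZeta s ^ N) F (𝓝 (riemannZeta (1 + τ * Complex.I) ^ N)) :=
      (((differentiableAt_riemannZeta hne).continuousAt.tendsto).pow N).mono_left
        nhdsWithin_le_nhds
    refine h3.congr' ?_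
    filter_upwards [self_mem_nhdsWithin] with s hs
    rw [hM, LFun_unit N]
    have := hs.1
    rwa [hM, edge_unit] at this
  have hbot : F.NeBot := by
    rw [hF]
    have h4 : Tendsto (fun n : ℕ => (1 + τ * Complex.I) + ((1 / ((n : ℝ) + 1) : ℝ) : ℂ)) atTop
        (𝓝 ((1 + τ * Complex.I) + ((0 : ℝ) : ℂ))) :=
      Tendsto.const_add _ ((Complex.continuous_ofReal.tendsto _).comp
        tendsto_one_div_add_atTop_nhds_zero_nat)
    rw [Complex.ofReal_zero, add_zero] at h4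
    have h5 : Tendsto (fun n : ℕ => (1 + τ * Complex.I) + ((1 / ((n : ℝ) + 1) : ℝ) : ℂ)) atTop
        (𝓝[{s : ℂ | M.edge < s.re ∧ ‖s - (1 + τ * Complex.I)‖ ≤ 1 * (s.re - M.edge)}]
          (1 + τ * Complex.I)) := by
      refine tendsto_nhdsWithin_iff.2 ⟨h4, Eventually.of_forall fun n => ?_⟩
      have h6 : 0 < 1 / ((n : ℝ) + 1) := by positivity
      have h7 : ((1 + τ * Complex.I) + ((1 / ((n : ℝ) + 1) : ℝ) : ℂ)).re = 1 + 1 / ((n : ℝ) + 1) := by
        rw [Complex.add_re, Complex.ofReal_re]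
        simp
      refine ⟨?_, ?_⟩
      · rw [h7, hM, edge_unit]
        linarith
      · rw [h7, hM, edge_unit, add_sub_cancel_left, Complex.norm_real, Real.norm_of_nonneg h6.le]
        linarith
    exact h5.neBot
  exact tendsto_nhds_unique h1 h2

lemma hz_one : hz 1 = 1 := by
  unfold hz DirichletCharacter.LFunctionTrivChar₁
  simp

/-- The lower bound near the pole. -/
lemma exists_lower : ∃ δ : ℝ, 0 < δ ∧ δ ≤ 1 ∧ ∀ τ : ℝ, 0 < τ → τ < δ →
    1 / (2 * τ) ≤ ‖riemannZeta (1 + τ * Complex.I)‖ := by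
  have h1 : ContinuousAt (fun τ : ℝ => ‖hz (1 + τ * Complex.I)‖) 0 := by
    have : Continuous fun τ : ℝ => ‖hz (1 + τ * Complex.I)‖ :=
      (differentiable_hz.continuous.comp (by fun_prop)).norm
    exact this.continuousAt
  have h2 : ∀ᶠ τ : ℝ in 𝓝 0, 1 / 2 < ‖hz (1 + τ * Complex.I)‖ := by
    refine h1.eventually (Ioi_mem_nhds ?_)
    simp [hz_one]
    norm_num
  obtain ⟨δ, hδ, hδ'⟩ := Metric.eventually_nhds_iff.1 h2
  refine ⟨min δ 1, lt_min hδ one_pos, min_le_right _ _, fun τ h0 h3 => ?_⟩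
  have h4 := hδ' (y := τ) (by
    rw [Real.dist_eq, sub_zero, abs_of_pos h0]
    exact h3.trans_le (min_le_left _ _))
  have hne : (1 : ℂ) + τ * Complex.I ≠ 1 := by
    simp [h0.ne']
  rw [hz_of_ne hne, norm_mul] at h4
  have h5 : ‖(1 : ℂ) + τ * Complex.I - 1‖ = τ := by
    rw [add_sub_cancel_left, norm_mul, Complex.norm_I, mul_one, Complex.norm_real,
      Real.norm_of_nonneg h0.le]
  rw [h5] at h4
  rw [div_le_iff₀ (by positivity)]
  nlinarith

/-- **Optimality**: for `ζ^N` the moment of order `1/N` is infinite. -/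
theorem moment_top {N : ℕ} {κ : ℝ} (hκ : 1 ≤ κ * N) :
    ∫⁻ t in Set.Icc (-1 : ℝ) 1, ENNReal.ofReal
      (Real.exp (κ * ((unitMotive N).logL t).re)) = ∞ := by
  obtain ⟨δ, hδ, hδ1, hlow⟩ := exists_lower
  have hsub : Set.Ioo (0 : ℝ) δ ⊆ Set.Icc (-1 : ℝ) 1 := fun t ht =>
    ⟨by linarith [ht.1], by linarith [ht.2]⟩
  rw [eq_top_iff]
  refine le_trans ?_ (lintegral_mono_set hsub)
  by_contra hcon
  rw [not_le] at hcon
  have hN0 : (0 : ℝ) ≤ N := Nat.cast_nonneg N
  have hκ0 : 0 < κ := by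
    by_contra h
    have : κ * N ≤ 0 := mul_nonpos_of_nonpos_of_nonneg (not_lt.1 h) hN0
    linarith
  have hae : ∀ᵐ t : ℝ ∂(volume.restrict (Set.Ioo (0 : ℝ) δ)),
      ENNReal.ofReal ((1 / 2 : ℝ) ^ (κ * N) * t ^ (-(κ * N))) ≤
        ENNReal.ofReal (Real.exp (κ * ((unitMotive N).logL t).re)) := by
    have h1 : ∀ᵐ t : ℝ, t ∉ badSet' (unitMotive N).nroot := by
      rw [ae_iff]
      simp only [not_not]
      exact volume_badSet' _ (unitMotive N).norm_nroot
    filter_upwards [ae_restrict_of_ae h1, ae_restrict_mem measurableSet_Ioo] with t ht ht0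
    refine ENNReal.ofReal_le_ofReal ?_
    have h2 := exp_unit N ht ht0.1.ne'
    have h3 : Real.exp ((unitMotive N).logL t).re = ‖riemannZeta (1 + t * Complex.I)‖ ^ N := by
      rw [← norm_pow, ← h2, Complex.norm_exp]
    have h4 : Real.exp (κ * ((unitMotive N).logL t).re) =
        ‖riemannZeta (1 + t * Complex.I)‖ ^ (κ * N) := by
      rw [mul_comm κ ((unitMotive N).logL t).re, Real.exp_mul, h3, ← Real.rpow_natCast,
        ← Real.rpow_mul (norm_nonneg _)]
      congr 1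
      ring
    rw [h4]
    have h5 : (1 / 2 : ℝ) ^ (κ * N) * t ^ (-(κ * N)) = (1 / (2 * t)) ^ (κ * N) := by
      rw [Real.rpow_neg ht0.1.le, ← Real.inv_rpow ht0.1.le, ← Real.mul_rpow (by norm_num)
        (inv_nonneg.2 ht0.1.le)]
      congr 1
      field_simp
    rw [h5]
    have h6 := ht0.1
    exact Real.rpow_le_rpow (by positivity) (hlow t ht0.1 ht0.2) (by linarith)
  have h7 : ∫⁻ t in Set.Ioo (0 : ℝ) δ,
      ENNReal.ofReal ((1 / 2 : ℝ) ^ (κ * N) * t ^ (-(κ * N))) < ∞ :=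
    (lintegral_mono_ae hae).trans_lt hcon
  have hm : Measurable fun t : ℝ => (1 / 2 : ℝ) ^ (κ * N) * t ^ (-(κ * N)) := by fun_prop
  have h8 : IntegrableOn (fun t : ℝ => (1 / 2 : ℝ) ^ (κ * N) * t ^ (-(κ * N))) (Set.Ioo 0 δ) := by
    refine ⟨hm.aestronglyMeasurable, ?_⟩
    rw [hasFiniteIntegral_iff_ofReal]
    · exact h7
    · filter_upwards [ae_restrict_mem measurableSet_Ioo] with t ht
      have := ht.1
      show (0 : ℝ) ≤ _
      positivity
  have h9 : IntegrableOn (fun t : ℝ => t ^ (-(κ * N))) (Set.Ioo 0 δ) := by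
    have h10 : (0 : ℝ) < (1 / 2 : ℝ) ^ (κ * N) := by positivity
    have h11 := h8.const_mul ((1 / 2 : ℝ) ^ (κ * N))⁻¹
    refine (h11.congr (Eventually.of_forall fun t => ?_))
    show ((1 / 2 : ℝ) ^ (κ * N))⁻¹ * ((1 / 2 : ℝ) ^ (κ * N) * t ^ (-(κ * N))) = _
    rw [← mul_assoc, inv_mul_cancel₀ h10.ne', one_mul]
  rw [intervalIntegral.integrableOn_Ioo_rpow_iff hδ] at h9
  linarith

end Pool.Agent.K6.H65.BJ
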