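import Pool.Agent.K6.H65.BJ.Mom2

/-!
# Tails of the logarithms on the edge line, in mean square over unit windows
-/

set_option autoImplicit false

namespace Pool.Agent.K6.H65.BJ

open MeasureTheory Filter Topology Finset Pool.Agent.W350.Edge
open scoped ENNReal

lemma sum_Ico_inv_sq {K : ℕ} (hK : 1 ≤ K) (n : ℕ) : ∑ k ∈ Ico K n, ((k : ℝ) ^ 2)⁻¹ ≤ 2 / K := by
  have h1 : Ico K n ⊆ Ioo (K - 1) n := by
    intro k hk
    rw [mem_Ico] at hk
    rw [mem_Ioo]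
    omega
  have h2 := sum_Ioo_inv_sq_le (α := ℝ) (K - 1) n
  have h3 : (((K - 1 : ℕ) : ℝ) + 1) = K := by
    rw [Nat.cast_sub hK]
    simp
  rw [h3] at h2
  exact (sum_le_sum_of_subset_of_nonneg h1 fun k _ _ => by positivity).trans h2

/-- The Schur type bound for the double sum. -/
lemma double_sum {F : Finset ℕ} {K : ℕ} (hK : 1 ≤ K) (hF : ∀ p ∈ F, p.Prime ∧ K ≤ lg p) :
    ∑ p ∈ F, ∑ q ∈ F, (1 : ℝ) / p * (1 / q) * Real.exp (1 - |(lg p : ℝ) - lg q|) ≤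
      24 * CC ^ 2 / K := by
  classical
  set R := F.image lg with hR
  set A : ℕ → ℝ := fun k => ∑ p ∈ F with lg p = k, (1 : ℝ) / p with hA
  have hmaps : ∀ p ∈ F, lg p ∈ R := fun p hp => mem_image_of_mem _ hp
  have hA0 : ∀ k, 0 ≤ A k := fun k => sum_nonneg fun p _ => by positivity
  have hRK : ∀ k ∈ R, K ≤ k := by
    intro k hk
    obtain ⟨p, hp, rfl⟩ := mem_image.1 hk
    exact (hF p hp).2
  have hAk : ∀ k ∈ R, A k ≤ CC / k := by
    intro k hk
    exact cheb _ k (hK.trans (hRK k hk)) fun p hp =>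
      ⟨(hF p (mem_filter.1 hp).1).1, (mem_filter.1 hp).2⟩
  have hfib : ∀ g : ℕ → ℝ, ∑ p ∈ F, (1 : ℝ) / p * g (lg p) = ∑ k ∈ R, A k * g k := by
    intro g
    rw [← sum_fiberwise_of_maps_to hmaps]
    refine sum_congr rfl fun k _ => ?_
    rw [hA, sum_mul]
    refine sum_congr rfl fun p hp => ?_
    rw [(mem_filter.1 hp).2]
  have h1 : ∑ p ∈ F, ∑ q ∈ F, (1 : ℝ) / p * (1 / q) * Real.exp (1 - |(lg p : ℝ) - lg q|) =
      ∑ k ∈ R, ∑ l ∈ R, A k * A l * Real.exp (1 - |(k : ℝ) - l|) := by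
    have h2 : ∀ p ∈ F, ∑ q ∈ F, (1 : ℝ) / p * (1 / q) * Real.exp (1 - |(lg p : ℝ) - lg q|) =
        (1 : ℝ) / p * ∑ l ∈ R, A l * Real.exp (1 - |(lg p : ℝ) - l|) := by
      intro p _
      rw [← hfib (fun l => Real.exp (1 - |(lg p : ℝ) - l|)), mul_sum]
      exact sum_congr rfl fun q _ => by ring
    rw [sum_congr rfl h2, hfib (fun k => ∑ l ∈ R, A l * Real.exp (1 - |(k : ℝ) - l|))]
    refine sum_congr rfl fun k _ => ?_
    rw [mul_sum]
    exact sum_congr rfl fun l _ => by ring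
  rw [h1]
  have h3 : ∑ k ∈ R, ∑ l ∈ R, A k * A l * Real.exp (1 - |(k : ℝ) - l|) ≤
      ∑ k ∈ R, ∑ l ∈ R, (A k ^ 2 / 2 * Real.exp (1 - |(k : ℝ) - l|) +
        A l ^ 2 / 2 * Real.exp (1 - |(l : ℝ) - k|)) := by
    refine sum_le_sum fun k _ => sum_le_sum fun l _ => ?_
    rw [abs_sub_comm (l : ℝ) k, ← add_mul]
    refine mul_le_mul_of_nonneg_right ?_ (Real.exp_pos _).le
    nlinarith [sq_nonneg (A k - A l)]
  refine h3.trans ?_
  have h4 : ∑ k ∈ R, ∑ l ∈ R, (A k ^ 2 / 2 * Real.exp (1 - |(k : ℝ) - l|) +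
        A l ^ 2 / 2 * Real.exp (1 - |(l : ℝ) - k|)) =
      ∑ k ∈ R, A k ^ 2 * ∑ l ∈ R, Real.exp (1 - |(k : ℝ) - l|) := by
    simp_rw [sum_add_distrib]
    rw [sum_comm (f := fun (k l : ℕ) => A l ^ 2 / 2 * Real.exp (1 - |(l : ℝ) - (k : ℝ)|)),
      ← sum_add_distrib]
    refine sum_congr rfl fun k _ => ?_
    rw [← mul_sum]
    ring
  rw [h4]
  have h5 : ∀ k ∈ R, A k ^ 2 * ∑ l ∈ R, Real.exp (1 - |(k : ℝ) - l|) ≤
      12 * CC ^ 2 * ((k : ℝ) ^ 2)⁻¹ := by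
    intro k hk
    have hk0 : (0 : ℝ) < k := by
      have := hK.trans (hRK k hk)
      exact_mod_cast this
    have h6 : A k ^ 2 ≤ (CC / k) ^ 2 := pow_le_pow_left₀ (hA0 k) (hAk k hk) 2
    calc A k ^ 2 * ∑ l ∈ R, Real.exp (1 - |(k : ℝ) - l|) ≤ (CC / k) ^ 2 * 12 :=
          mul_le_mul h6 (schur_row R k) (sum_nonneg fun l _ => (Real.exp_pos _).le) (sq_nonneg _)
      _ = _ := by
        field_simp
  refine (sum_le_sum h5).trans ?_
  rw [← mul_sum]
  have h7 : ∑ k ∈ R, ((k : ℝ) ^ 2)⁻¹ ≤ 2 / K := by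
    have h8 : R ⊆ Ico K (R.sup id + 1) := by
      intro k hk
      rw [mem_Ico]
      exact ⟨hRK k hk, Nat.lt_succ_of_le (le_sup (f := id) hk)⟩
    exact (sum_le_sum_of_subset_of_nonneg h8 fun k _ _ => by positivity).trans
      (sum_Ico_inv_sq hK _)
  calc 12 * CC ^ 2 * ∑ k ∈ R, ((k : ℝ) ^ 2)⁻¹ ≤ 12 * CC ^ 2 * (2 / K) :=
        mul_le_mul_of_nonneg_left h7 (by positivity)
    _ = _ := by ring

lemma sq_mean {F : Finset ℕ} {K : ℕ} (hK : 1 ≤ K) (hF : ∀ p ∈ F, p.Prime ∧ K ≤ lg p)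
    (c : ℕ → ℂ) (M : ℝ) (hM : 0 ≤ M) (hc : ∀ p ∈ F, ‖c p‖ ≤ M / p) :
    ∫ τ in (0 : ℝ)..1, ‖∑ p ∈ F, c p * Complex.exp (-(τ * (Real.log p : ℝ)) * Complex.I)‖ ^ 2 ≤
      144 * CC ^ 2 * M ^ 2 / K := by
  refine (gauss_mean F c (fun p => Real.log p)).trans ?_
  have h1 : ∑ p ∈ F, ∑ q ∈ F, ‖c p‖ * ‖c q‖ * Real.exp (-(Real.log p - Real.log q) ^ 2) ≤
      ∑ p ∈ F, ∑ q ∈ F, M ^ 2 * ((1 : ℝ) / p * (1 / q) * Real.exp (1 - |(lg p : ℝ) - lg q|)) := by
    refine sum_le_sum fun p hp => sum_le_sum fun q hq => ?_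
    have h2 := kappa_le (hF p hp).1.one_le (hF q hq).1.one_le 0
    rw [sub_zero, sub_zero] at h2
    calc ‖c p‖ * ‖c q‖ * Real.exp (-(Real.log p - Real.log q) ^ 2) ≤
        (M / p) * (M / q) * Real.exp (1 - |(lg p : ℝ) - lg q|) := by
          have h3 := hc p hp
          have h4 := hc q hq
          have h5 : 0 ≤ M / p := (norm_nonneg _).trans h3
          gcongr
      _ = _ := by ring
  have h6 := double_sum hK hF
  have h7 : ∑ p ∈ F, ∑ q ∈ F, M ^ 2 * ((1 : ℝ) / p * (1 / q) * Real.exp (1 - |(lg p : ℝ) - lg q|)) =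
      M ^ 2 * ∑ p ∈ F, ∑ q ∈ F, (1 : ℝ) / p * (1 / q) * Real.exp (1 - |(lg p : ℝ) - lg q|) := by
    rw [mul_sum]
    exact sum_congr rfl fun p _ => by rw [mul_sum]
  rw [h7] at h1
  calc 6 * ∑ p ∈ F, ∑ q ∈ F, ‖c p‖ * ‖c q‖ * Real.exp (-(Real.log p - Real.log q) ^ 2) ≤
      6 * (M ^ 2 * (24 * CC ^ 2 / K)) := by
        refine mul_le_mul_of_nonneg_left (h1.trans ?_) (by norm_num)
        exact mul_le_mul_of_nonneg_left h6 (sq_nonneg _)
    _ = _ := by ring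

/-- The primes below `x` as natural numbers. -/
lemma sum_primesLt {E : Type*} [AddCommMonoid E] (g : ℕ → E) (x : ℕ) :
    ∑ p ∈ primesLt x, g p = ∑ n ∈ (range x).filter Nat.Prime, g n := by
  have h1 : (primesLt x).map ⟨fun p : Nat.Primes => (p : ℕ), Nat.Primes.coe_nat_injective⟩ =
      (range x).filter Nat.Prime := by
    ext n
    simp only [Finset.mem_map, mem_primesLt, Function.Embedding.coeFn_mk, mem_filter, mem_range]
    constructor
    · rintro ⟨p, hp, rfl⟩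
      exact ⟨hp, p.2⟩
    · rintro ⟨h, hn⟩
      exact ⟨⟨n, hn⟩, h, rfl⟩
  rw [← h1, sum_map]
  rfl

variable {N : ℕ}

open Classical in
/-- The function of a natural number given by a function of a prime. -/
noncomputable def ext (f : Nat.Primes → ℂ) (n : ℕ) : ℂ := if h : n.Prime then f ⟨n, h⟩ else 0

lemma ext_coe (f : Nat.Primes → ℂ) (p : Nat.Primes) : ext f p = f p := by
  unfold ext
  rw [dif_pos p.2]
  rfl

/-- The second order part of the logarithm of an Euler factor. -/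
noncomputable def rem (b : Nat.Primes → Fin N → ℂ) (p : Nat.Primes) (u : ℂ) : ℂ :=
  logAt b p u - (∑ k, b p k) / p * u

lemma norm_rem (b : Nat.Primes → Fin N → ℂ) (hb : ∀ p k, ‖b p k‖ ≤ 1) (p : Nat.Primes) {u : ℂ}
    (hu : ‖u‖ ≤ 1) : ‖rem b p u‖ ≤ N * ((p : ℝ) ^ 2)⁻¹ := by
  have h1 : rem b p u = ∑ k, (-Complex.log (1 - b p k * u / p) - b p k * u / p) := by
    unfold rem logAt
    rw [sum_sub_distrib, sum_div, sum_mul]
    congr 1
    exact sum_congr rfl fun k _ => by ring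
  rw [h1]
  refine (norm_sum_le _ _).trans ?_
  have hp2 : (2 : ℝ) ≤ p := by exact_mod_cast p.2.two_le
  have hp0 : (0 : ℝ) < p := by linarith
  have h2 : ∀ k ∈ (univ : Finset (Fin N)),
      ‖-Complex.log (1 - b p k * u / p) - b p k * u / p‖ ≤ ((p : ℝ) ^ 2)⁻¹ := by
    intro k _
    set z := b p k * u / p with hz
    have h3 : ‖z‖ ≤ (p : ℝ)⁻¹ := by
      rw [hz, norm_div, norm_mul, Complex.norm_natCast, div_eq_mul_inv]
      have h4 : ‖b p k‖ * ‖u‖ ≤ 1 := mul_le_one₀ (hb p k) (norm_nonneg _) hu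
      calc ‖b p k‖ * ‖u‖ * (p : ℝ)⁻¹ ≤ 1 * (p : ℝ)⁻¹ :=
            mul_le_mul_of_nonneg_right h4 (by positivity)
        _ = _ := one_mul _
    have h5 : ‖z‖ ≤ 1 / 2 := h3.trans (by
      rw [one_div]
      exact inv_anti₀ (by norm_num) hp2)
    have h6 := Complex.norm_log_one_add_sub_self_le (z := -z) (by rw [norm_neg]; linarith)
    rw [norm_neg] at h6
    have h7 : -Complex.log (1 - z) - z = -(Complex.log (1 + -z) - -z) := by
      rw [← sub_eq_add_neg]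
      ring
    rw [h7, norm_neg]
    have h8 : (1 - ‖z‖)⁻¹ ≤ 2 := by
      rw [inv_le_comm₀ (by linarith) (by norm_num)]
      linarith
    calc ‖Complex.log (1 + -z) - -z‖ ≤ ‖z‖ ^ 2 * (1 - ‖z‖)⁻¹ / 2 := h6
      _ ≤ ‖z‖ ^ 2 * 2 / 2 := by gcongr
      _ = ‖z‖ ^ 2 := by ring
      _ ≤ ((p : ℝ)⁻¹) ^ 2 := pow_le_pow_left₀ (norm_nonneg _) h3 2
      _ = _ := by rw [inv_pow]
  refine (sum_le_sum h2).trans ?_
  rw [sum_const, card_univ, Fintype.card_fin, nsmul_eq_mul]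

lemma continuous_partialLog (b : Nat.Primes → Fin N → ℂ) (hb : ∀ p k, ‖b p k‖ ≤ 1) (n : ℕ) :
    Continuous fun t : ℝ => partialLog b n (fun p => ex (Real.log p) t) := by
  have := continuous_Fe (primesLt n) b hb le_rfl
  refine this.congr fun t => ?_
  rw [Fe_zero]

lemma sub_partialLog (f : Nat.Primes → ℂ) {y z : ℕ} (hyz : y ≤ z) :
    ∑ p ∈ primesLt z, f p - ∑ p ∈ primesLt y, f p =
      ∑ n ∈ (Ico y z).filter Nat.Prime, ext f n := by
  have h1 : ∀ x, ∑ p ∈ primesLt x, f p = ∑ n ∈ (range x).filter Nat.Prime, ext f n := by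
    intro x
    rw [← sum_primesLt]
    exact sum_congr rfl fun p _ => (ext_coe f p).symm
  rw [h1, h1, sum_filter, sum_filter, sum_filter]
  rw [sum_Ico_eq_sub _ hyz]

lemma lg_mono {m n : ℕ} (hm : 1 ≤ m) (h : m ≤ n) : lg m ≤ lg n := by
  unfold lg
  exact Nat.floor_mono (Real.log_le_log (by exact_mod_cast hm) (by exact_mod_cast h))

/-- **Tails in mean square**, uniformly over unit windows. -/
theorem tail_window (b : Nat.Primes → Fin N → ℂ) (hb : ∀ p k, ‖b p k‖ ≤ 1) (x : ℝ) {y z : ℕ}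
    (hy : 1 ≤ lg y) (hyz : y ≤ z) :
    ∫ t in x..(x + 1), ‖partialLog b z (fun p => ex (Real.log p) t) -
      partialLog b y (fun p => ex (Real.log p) t)‖ ^ 2 ≤ (288 * CC ^ 2 + 8) * N ^ 2 / lg y := by
  have hlg0 : (0 : ℝ) < lg y := by exact_mod_cast hy
  have hy1 : 1 ≤ y := by
    rcases Nat.eq_zero_or_pos y with h | h
    · subst h
      simp [lg] at hy
    · exact h
  have hy0 : (0 : ℝ) < y := by exact_mod_cast hy1
  have hlgy : (lg y : ℝ) ≤ y := (lg_le hy1).trans ((Real.log_le_sub_one_of_pos hy0).trans (by linarith))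
  set F := (Ico y z).filter Nat.Prime with hF
  have hFp : ∀ p ∈ F, p.Prime ∧ lg y ≤ lg p := fun p hp =>
    ⟨(mem_filter.1 hp).2, lg_mono hy1 (mem_Ico.1 (mem_filter.1 hp).1).1⟩
  set c : ℕ → ℂ := fun n => ext (fun p => (∑ k, b p k) / p * ex (Real.log p) x) n with hc
  set A : ℝ → ℂ := fun τ => ∑ p ∈ F, c p * Complex.exp (-(τ * (Real.log p : ℝ)) * Complex.I) with hA
  set B : ℝ → ℂ := fun τ => ∑ n ∈ F, ext (fun p => rem b p (ex (Real.log p) (x + τ))) n with hB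
  have hcn : ∀ p ∈ F, ‖c p‖ ≤ (N : ℝ) / p := by
    intro p hp
    have h1 : p.Prime := (hFp p hp).1
    simp only [hc]
    have h2 := ext_coe (fun p => (∑ k, b p k) / p * ex (Real.log p) x) ⟨p, h1⟩
    rw [show ((⟨p, h1⟩ : Nat.Primes) : ℕ) = p from rfl] at h2
    rw [h2, norm_mul, norm_ex, mul_one, norm_div, Complex.norm_natCast]
    refine div_le_div_of_nonneg_right ?_ (by positivity)
    refine (norm_sum_le _ _).trans ((sum_le_sum fun k _ => hb _ k).trans ?_)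
    simp
  have hdec : ∀ τ : ℝ, partialLog b z (fun p => ex (Real.log p) (x + τ)) -
      partialLog b y (fun p => ex (Real.log p) (x + τ)) = A τ + B τ := by
    intro τ
    unfold partialLog
    rw [sub_partialLog (fun p => logAt b p (ex (Real.log p) (x + τ))) hyz]
    simp only [hA, hB]
    rw [← sum_add_distrib]
    refine sum_congr rfl fun n hn => ?_
    have h1 : n.Prime := (hFp n hn).1
    have h2 : ∀ f : Nat.Primes → ℂ, ext f n = f ⟨n, h1⟩ := fun f => ext_coe f ⟨n, h1⟩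
    simp only [hc]
    rw [h2, h2, h2]
    unfold rem
    rw [ex_add_right]
    have h3 : ex (Real.log ((⟨n, h1⟩ : Nat.Primes) : ℕ)) τ =
        Complex.exp (-(τ * (Real.log n : ℝ)) * Complex.I) := by
      unfold ex
      congr 1
      push_cast
      ring
    rw [h3]
    ring
  have hBn : ∀ τ, ‖B τ‖ ≤ 2 * N / y := by
    intro τ
    simp only [hB]
    refine (norm_sum_le _ _).trans ?_
    have h1 : ∀ n ∈ F, ‖ext (fun p => rem b p (ex (Real.log p) (x + τ))) n‖ ≤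
        N * ((n : ℝ) ^ 2)⁻¹ := by
      intro n hn
      have h1 : n.Prime := (hFp n hn).1
      have h2 : ∀ f : Nat.Primes → ℂ, ext f n = f ⟨n, h1⟩ := fun f => ext_coe f ⟨n, h1⟩
      rw [h2]
      exact norm_rem b hb ⟨n, h1⟩ (norm_ex _ _).le
    refine (sum_le_sum h1).trans ?_
    rw [← mul_sum]
    have h3 : ∑ n ∈ F, ((n : ℝ) ^ 2)⁻¹ ≤ 2 / y :=
      (sum_le_sum_of_subset_of_nonneg (filter_subset _ _) fun k _ _ => by positivity).trans
        (sum_Ico_inv_sq hy1 z)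
    calc (N : ℝ) * ∑ n ∈ F, ((n : ℝ) ^ 2)⁻¹ ≤ N * (2 / y) :=
          mul_le_mul_of_nonneg_left h3 (Nat.cast_nonneg _)
      _ = _ := by ring
  have hshift : ∫ t in x..(x + 1), ‖partialLog b z (fun p => ex (Real.log p) t) -
      partialLog b y (fun p => ex (Real.log p) t)‖ ^ 2 = ∫ τ in (0 : ℝ)..1, ‖A τ + B τ‖ ^ 2 := by
    have h1 := intervalIntegral.integral_comp_add_left (a := 0) (b := 1)
      (fun t : ℝ => ‖partialLog b z (fun p => ex (Real.log p) t) -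
        partialLog b y (fun p => ex (Real.log p) t)‖ ^ 2) x
    rw [add_zero] at h1
    rw [← h1]
    refine intervalIntegral.integral_congr fun τ _ => ?_
    show ‖_‖ ^ 2 = _
    rw [hdec]
  rw [hshift]
  have hAc : Continuous A := by
    rw [hA]
    fun_prop
  have hABc : Continuous fun τ => A τ + B τ := by
    have h1 := (continuous_partialLog b hb z).comp (continuous_const_add x)
    have h2 := (continuous_partialLog b hb y).comp (continuous_const_add x)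
    exact (h1.sub h2).congr fun τ => hdec τ
  have hle : ∫ τ in (0 : ℝ)..1, ‖A τ + B τ‖ ^ 2 ≤
      ∫ τ in (0 : ℝ)..1, (2 * ‖A τ‖ ^ 2 + 2 * (2 * N / y) ^ 2) := by
    refine intervalIntegral.integral_mono_on zero_le_one ?_ ?_ fun τ _ => ?_
    · exact (hABc.norm.pow 2).intervalIntegrable _ _
    · exact (((hAc.norm.pow 2).const_mul 2).add continuous_const).intervalIntegrable _ _
    · have h1 : ‖A τ + B τ‖ ≤ ‖A τ‖ + ‖B τ‖ := norm_add_le _ _
      have h2 := hBn τ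
      have h3 : ‖B τ‖ ^ 2 ≤ (2 * N / y) ^ 2 := pow_le_pow_left₀ (norm_nonneg _) h2 2
      have h4 : ‖A τ + B τ‖ ^ 2 ≤ (‖A τ‖ + ‖B τ‖) ^ 2 := pow_le_pow_left₀ (norm_nonneg _) h1 2
      nlinarith [sq_nonneg (‖A τ‖ - ‖B τ‖)]
  refine hle.trans ?_
  have hI1 : IntervalIntegrable (fun τ => 2 * ‖A τ‖ ^ 2) volume 0 1 :=
    (by fun_prop : Continuous fun τ => 2 * ‖A τ‖ ^ 2).intervalIntegrable _ _
  have hI2 : IntervalIntegrable (fun _ : ℝ => 2 * (2 * (N : ℝ) / y) ^ 2) volume 0 1 :=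
    continuous_const.intervalIntegrable _ _
  rw [intervalIntegral.integral_add hI1 hI2, intervalIntegral.integral_const_mul,
    intervalIntegral.integral_const]
  have h5 := sq_mean hy hFp c N (Nat.cast_nonneg _) hcn
  have h6 : ((2 : ℝ) * N / y) ^ 2 ≤ 4 * N ^ 2 / lg y := by
    have h7 : ((2 : ℝ) * N / y) ^ 2 = 4 * N ^ 2 / (y * y) := by ring
    rw [h7]
    refine div_le_div_of_nonneg_left (by positivity) hlg0 ?_
    have : (1 : ℝ) ≤ y := by exact_mod_cast hy1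
    nlinarith
  have h8 : (288 * CC ^ 2 + 8) * (N : ℝ) ^ 2 / lg y =
      2 * (144 * CC ^ 2 * (N : ℝ) ^ 2 / lg y) + 2 * (4 * (N : ℝ) ^ 2 / lg y) := by ring
  rw [h8]
  simp only [sub_zero, one_smul]
  linarith

end Pool.Agent.K6.H65.BJ
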